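import Mathlib

set_option autoImplicit false

open Finset

namespace Pool.Agent.H122R3.Fur

/-- decode a 21-bit mask -/
def dec (a : ℕ) : Finset ℕ := (range 21).filter (fun i => a.testBit i)

lemma mem_dec (a i : ℕ) : i ∈ dec a ↔ i < 21 ∧ a.testBit i = true := by simp [dec]

def codes : List ℕ := [69905, 74274, 135752, 139652, 164897, 267394, 270881, 272449, 278824, 295444, 530468, 533528, 541313, 1048591, 1048816, 1052416, 1061408, 1110016, 1323009, 2031616]

def Fam : Finset (Finset ℕ) := (codes.map dec).toFinset

/-- all hitting sets of the masks in the second argument, containing the third argument and with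
`r` more elements, are members of the family -/
def check : ℕ → List ℕ → ℕ → Bool
  | r, [], cur => r == 0 && codes.contains cur
  | 0, _ :: _, _ => true
  | r + 1, f :: U, cur => (List.range 21).all (fun x => !f.testBit x ||
      check r ((f :: U).filter (fun g => !g.testBit x)) (cur ||| (1 <<< x)))

lemma dec_or (cur x : ℕ) (hx : x < 21) : dec (cur ||| (1 <<< x)) = insert x (dec cur) := by
  ext i
  rw [mem_insert, mem_dec, mem_dec, Nat.testBit_or, Nat.one_shiftLeft, Nat.testBit_two_pow]
  constructor
  · rintro ⟨h1, h2⟩
    simp only [Bool.or_eq_true, decide_eq_true_eq] at h2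
    rcases h2 with h | h
    · right; exact ⟨h1, h⟩
    · left; exact h.symm
  · rintro (rfl | ⟨h1, h2⟩)
    · exact ⟨hx, by simp⟩
    · exact ⟨h1, by simp [h2]⟩

lemma check_sound (B : Finset ℕ) (hB : B.card = 5) : ∀ (r : ℕ) (U : List ℕ) (cur : ℕ),
    check r U cur = true → dec cur ⊆ B → (dec cur).card + r = 5 →
    (∀ g ∈ U, Disjoint (dec g) (dec cur) ∧ (dec g ∩ B).Nonempty) → B ∈ Fam := by
  intro r
  induction r with
  | zero =>
    intro U cur hc hsub hcard hU
    have he : dec cur = B := eq_of_subset_of_card_le hsub (by omega)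
    cases U with
    | nil =>
      unfold check at hc
      simp only [BEq.rfl, Bool.true_and, List.contains_eq_mem, decide_eq_true_eq] at hc
      rw [Fam, List.mem_toFinset, List.mem_map]
      exact ⟨cur, hc, he⟩
    | cons f U =>
      obtain ⟨h1, h2⟩ := hU f List.mem_cons_self
      rw [← he, ← not_disjoint_iff_nonempty_inter] at h2
      exact absurd h1 h2
  | succ r ih =>
    intro U cur hc hsub hcard hU
    cases U with
    | nil =>
      unfold check at hc
      simp at hc
    | cons f U =>
      obtain ⟨h1, x, hx⟩ := hU f List.mem_cons_self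
      rw [mem_inter, mem_dec] at hx
      obtain ⟨⟨hx21, hxf⟩, hxB⟩ := hx
      unfold check at hc
      rw [List.all_eq_true] at hc
      have h3 := hc x (List.mem_range.2 hx21)
      rw [hxf] at h3
      simp only [Bool.not_true, Bool.false_or] at h3
      have hxc : x ∉ dec cur := disjoint_left.1 h1 ((mem_dec f x).2 ⟨hx21, hxf⟩)
      apply ih _ _ h3
      · rw [dec_or cur x hx21]
        exact insert_subset hxB hsub
      · rw [dec_or cur x hx21, card_insert_of_notMem hxc]
        omega
      · intro g hg
        rw [List.mem_filter] at hg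
        obtain ⟨h4, h5⟩ := hU g hg.1
        refine ⟨?_, h5⟩
        rw [dec_or cur x hx21, disjoint_insert_right]
        refine ⟨?_, h4⟩
        rw [mem_dec]
        rintro ⟨_, h6⟩
        rw [h6] at hg
        simp at hg

set_option maxRecDepth 100000 in
lemma check_true : check 5 codes 0 = true := by decide +kernel

lemma fam_card : ∀ A ∈ Fam, A.card = 5 := by decide +kernel

lemma fam_inter : ∀ A ∈ Fam, ∀ B ∈ Fam, (A ∩ B).Nonempty := by decide +kernel

lemma fam_union : (Fam.biUnion id).card = 21 := by decide +kernel

lemma fam_size : Fam.card = 20 := by decide +kernel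

lemma fam_max (B : Finset ℕ) (hB : B.card = 5) (h : ∀ A ∈ Fam, (A ∩ B).Nonempty) : B ∈ Fam := by
  have h0 : dec 0 = ∅ := by decide
  apply check_sound B hB 5 codes 0 check_true
  · rw [h0]; exact empty_subset _
  · rw [h0]; simp
  · intro g hg
    rw [h0]
    refine ⟨disjoint_empty_right _, ?_⟩
    apply h
    rw [Fam, List.mem_toFinset, List.mem_map]
    exact ⟨g, hg, rfl⟩

end Pool.Agent.H122R3.Fur
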