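import Mathlib

set_option autoImplicit false

open Finset

namespace Pool.Agent.H122R3.Sim

abbrev U := Finset (Fin 7)

/-- pairwise intersecting -/
def Pw (F : Finset U) : Prop := ∀ X ∈ F, ∀ Y ∈ F, X ≠ Y → ¬ Disjoint X Y

instance : DecidablePred Pw := fun F => by unfold Pw; infer_instance

/-- number of ordered disjoint pairs of distinct members -/
def dd (A : Finset U) : ℕ := ((A ×ˢ A).filter (fun p => p.1 ≠ p.2 ∧ Disjoint p.1 p.2)).card

def i2 (s : ℕ) (A : Finset U) : ℕ := ((A.powersetCard s).filter Pw).card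

lemma two_i2 (A : Finset U) : 2 * i2 2 A + dd A + A.card = A.card * A.card := by
  have h1 : ((A ×ˢ A).filter (fun p => p.1 ≠ p.2 ∧ ¬ Disjoint p.1 p.2)).card = 2 * i2 2 A := by
    rw [card_eq_sum_card_fiberwise (f := fun p : U × U => ({p.1, p.2} : Finset U))
      (t := (A.powersetCard 2).filter Pw)]
    · rw [i2, mul_comm, ← smul_eq_mul, ← sum_const]
      apply sum_congr rfl
      intro F hF
      rw [mem_filter, mem_powersetCard] at hF
      obtain ⟨⟨hFA, hF2⟩, hP⟩ := hF
      obtain ⟨X, Y, hXY, rfl⟩ := card_eq_two.1 hF2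
      have hX : X ∈ A := hFA (by simp)
      have hY : Y ∈ A := hFA (by simp)
      have hd : ¬ Disjoint X Y := hP X (by simp) Y (by simp) hXY
      have hd' : ¬ Disjoint Y X := fun h => hd h.symm
      have : (((A ×ˢ A).filter (fun p => p.1 ≠ p.2 ∧ ¬ Disjoint p.1 p.2)).filter
          (fun p : U × U => ({p.1, p.2} : Finset U) = {X, Y})) = {(X, Y), (Y, X)} := by
        ext ⟨a, b⟩
        simp only [mem_filter, mem_product, mem_insert, mem_singleton, Prod.mk.injEq]
        constructor
        · rintro ⟨⟨_, hab, _⟩, h⟩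
          have ha : a ∈ ({X, Y} : Finset U) := by rw [← h]; simp
          have hb : b ∈ ({X, Y} : Finset U) := by rw [← h]; simp
          simp only [mem_insert, mem_singleton] at ha hb
          rcases ha with rfl | rfl <;> rcases hb with rfl | rfl
          · exact absurd rfl hab
          · left; exact ⟨rfl, rfl⟩
          · right; exact ⟨rfl, rfl⟩
          · exact absurd rfl hab
        · rintro (⟨rfl, rfl⟩ | ⟨rfl, rfl⟩)
          · exact ⟨⟨⟨hX, hY⟩, hXY, hd⟩, rfl⟩
          · exact ⟨⟨⟨hY, hX⟩, hXY.symm, hd'⟩, by rw [pair_comm]⟩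
      rw [this, card_pair]
      intro h
      exact hXY (Prod.mk.inj h).1
    · intro p hp
      rw [mem_coe, mem_filter, mem_product] at hp
      obtain ⟨⟨h1, h2⟩, h3, h4⟩ := hp
      rw [mem_coe, mem_filter, mem_powersetCard]
      refine ⟨⟨?_, card_pair h3⟩, ?_⟩
      · intro x hx
        simp only [mem_insert, mem_singleton] at hx
        rcases hx with rfl | rfl <;> assumption
      · intro X hX Y hY hXY
        simp only [mem_insert, mem_singleton] at hX hY
        rcases hX with rfl | rfl <;> rcases hY with rfl | rfl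
        · exact absurd rfl hXY
        · exact h4
        · exact fun h => h4 h.symm
        · exact absurd rfl hXY
  have h2 : ((A ×ˢ A).filter (fun p => p.1 = p.2)).card = A.card := by
    have : (A ×ˢ A).filter (fun p => p.1 = p.2) = A.image (fun x => (x, x)) := by
      ext ⟨a, b⟩
      simp only [mem_filter, mem_product, mem_image, Prod.mk.injEq]
      constructor
      · rintro ⟨⟨h, _⟩, rfl⟩; exact ⟨a, h, rfl, rfl⟩
      · rintro ⟨x, hx, rfl, rfl⟩; exact ⟨⟨hx, hx⟩, rfl⟩
    rw [this, card_image_of_injective]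
    intro x y h
    exact (Prod.mk.inj h).1
  have h3 : (A ×ˢ A).card = ((A ×ˢ A).filter (fun p => p.1 ≠ p.2 ∧ ¬ Disjoint p.1 p.2)).card +
      dd A + ((A ×ˢ A).filter (fun p => p.1 = p.2)).card := by
    rw [dd, ← card_union_of_disjoint, ← card_union_of_disjoint]
    · congr 1
      ext p
      simp only [mem_union, mem_filter]
      tauto
    · rw [disjoint_left]
      intro p hp
      simp only [mem_union, mem_filter] at hp ⊢
      tauto
    · rw [disjoint_left]
      intro p hp
      simp only [mem_filter] at hp ⊢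
      tauto
  rw [card_product, h1, h2] at h3
  omega

lemma dd_insert (B : Finset U) (X : U) (hX : X ∉ B) :
    dd (insert X B) = dd B + 2 * (B.filter (fun W => Disjoint X W)).card := by
  have h : ((insert X B ×ˢ insert X B).filter (fun p => p.1 ≠ p.2 ∧ Disjoint p.1 p.2)) =
      ((B ×ˢ B).filter (fun p => p.1 ≠ p.2 ∧ Disjoint p.1 p.2)) ∪
      ((B.filter (fun W => Disjoint X W)).image (fun W => (X, W)) ∪
      (B.filter (fun W => Disjoint X W)).image (fun W => (W, X))) := by
    ext ⟨a, b⟩
    simp only [mem_filter, mem_product, mem_insert, mem_union, mem_image, Prod.mk.injEq]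
    constructor
    · rintro ⟨⟨rfl | ha, rfl | hb⟩, hne, hd⟩
      · exact absurd rfl hne
      · right; left; exact ⟨b, ⟨hb, hd⟩, rfl, rfl⟩
      · right; right; exact ⟨a, ⟨ha, hd.symm⟩, rfl, rfl⟩
      · left; exact ⟨⟨ha, hb⟩, hne, hd⟩
    · rintro (⟨⟨ha, hb⟩, hne, hd⟩ | ⟨W, ⟨hW, hd⟩, rfl, rfl⟩ | ⟨W, ⟨hW, hd⟩, rfl, rfl⟩)
      · exact ⟨⟨Or.inr ha, Or.inr hb⟩, hne, hd⟩
      · exact ⟨⟨Or.inl rfl, Or.inr hW⟩, fun h => hX (h ▸ hW), hd⟩
      · exact ⟨⟨Or.inr hW, Or.inl rfl⟩, fun h => hX (h ▸ hW), hd.symm⟩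
  rw [dd, h, card_union_of_disjoint, card_union_of_disjoint, card_image_of_injective,
    card_image_of_injective, dd]
  · ring
  · intro x y h; exact (Prod.mk.inj h).1
  · intro x y h; exact (Prod.mk.inj h).2
  · rw [disjoint_left]
    rintro ⟨a, b⟩ h1 h2
    simp only [mem_image, mem_filter, Prod.mk.injEq] at h1 h2
    obtain ⟨W, ⟨hW, _⟩, rfl, rfl⟩ := h1
    obtain ⟨W', ⟨hW', _⟩, rfl, h⟩ := h2
    exact hX hW'
  · rw [disjoint_left]
    rintro ⟨a, b⟩ h1 h2
    simp only [mem_image, mem_filter, mem_union, mem_product, Prod.mk.injEq] at h1 h2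
    obtain ⟨⟨ha, hb⟩, _⟩ := h1
    rcases h2 with ⟨W, ⟨hW, _⟩, rfl, rfl⟩ | ⟨W, ⟨hW, _⟩, rfl, rfl⟩
    · exact hX ha
    · exact hX hb

/-- 2-maximality in terms of `dd` -/
def Opt (A : Finset U) : Prop := ∀ B : Finset U, B.card = A.card → dd A ≤ dd B

lemma opt_of_i2 (A : Finset U) (h : ∀ B : Finset U, B.card = A.card → i2 2 B ≤ i2 2 A) :
    Opt A := by
  intro B hB
  have h1 := h B hB
  have h2 := two_i2 A
  have h3 := two_i2 B
  rw [hB] at h3
  omega

lemma exchange (A : Finset U) (hA : Opt A) (Y X : U) (hY : Y ∈ A) (hX : X ∉ A) :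
    ((A.erase Y).filter (fun W => Disjoint Y W)).card ≤
      ((A.erase Y).filter (fun W => Disjoint X W)).card := by
  have h1 := dd_insert (A.erase Y) Y (notMem_erase Y A)
  have h2 := dd_insert (A.erase Y) X (fun h => hX (mem_of_mem_erase h))
  rw [insert_erase hY] at h1
  have h3 := hA (insert X (A.erase Y)) (by
    rw [card_insert_of_notMem (fun h => hX (mem_of_mem_erase h)), card_erase_of_mem hY]
    have : 0 < A.card := card_pos.2 ⟨Y, hY⟩
    omega)
  omega

lemma card_disj (X : U) : (univ.filter (fun W => Disjoint X W)).card = 2 ^ (7 - X.card) := by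
  have : univ.filter (fun W => Disjoint X W) = (Xᶜ).powerset := by
    ext W
    simp only [mem_filter, mem_univ, true_and, mem_powerset]
    rw [subset_compl_comm]; exact le_compl_iff_disjoint_right.symm
  rw [this, card_powerset, card_compl, Fintype.card_fin]

end Pool.Agent.H122R3.Sim
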