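import Mathlib
import Pool.Agent.H122R3.SimA

set_option autoImplicit false

open Finset

namespace Pool.Agent.H122R3.Sim

/-- sets of size at least three -/
def L : Finset U := univ.filter (fun X => 3 ≤ X.card)

lemma card_U : (univ : Finset U).card = 128 := by
  rw [card_univ, Fintype.card_finset, Fintype.card_fin]; norm_num

lemma card_L : L.card = 99 := by decide +kernel

lemma small_card : (univ.filter (fun X : U => X.card ≤ 1)).card = 8 := by decide +kernel

lemma disj16 : ∀ Y : U, Y.card = 2 → (L.filter (fun X => Disjoint Y X)).card = 16 := by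
  decide +kernel

lemma disj11 : ∀ Y : U, 3 ≤ Y.card →
    (univ.filter (fun X : U => 2 ≤ X.card ∧ Disjoint Y X)).card ≤ 11 := by
  decide +kernel

lemma empty_notMem (A : Finset U) (hA : Opt A) (hc : A.card = 109) : ∅ ∉ A := by
  intro h0
  obtain ⟨X, hX⟩ : ∃ X, X ∉ A := by
    by_contra h
    push Not at h
    have : A = univ := eq_univ_iff_forall.2 h
    rw [this, card_U] at hc
    omega
  have h1 := exchange A hA ∅ X h0 hX
  have h2 : ((A.erase ∅).filter (fun W => Disjoint (∅ : U) W)).card = 108 := by
    rw [filter_true_of_mem (fun W _ => disjoint_empty_left W), card_erase_of_mem h0, hc]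
  have h3 : ((A.erase ∅).filter (fun W => Disjoint X W)).card ≤ 2 ^ (7 - X.card) := by
    rw [← card_disj]
    exact card_le_card (filter_subset_filter _ (subset_univ _))
  have h4 : 1 ≤ X.card := by
    by_contra h
    have : X = ∅ := card_eq_zero.1 (by omega)
    exact hX (this ▸ h0)
  have h5 : 2 ^ (7 - X.card) ≤ 2 ^ 6 := Nat.pow_le_pow_right (by norm_num) (by omega)
  norm_num at h5
  omega

lemma compl_card (A : Finset U) (hc : A.card = 109) : (Aᶜ).card = 19 := by
  have := card_add_card_compl A
  rw [← card_univ, card_U] at this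
  omega

lemma two_le (A : Finset U) (hA : Opt A) (hc : A.card = 109) : ∀ Y ∈ A, 2 ≤ Y.card := by
  intro Y hY
  by_contra hlt
  have hY0 : Y ≠ ∅ := fun h => empty_notMem A hA hc (h ▸ hY)
  have hY1 : Y.card = 1 := by
    have : 0 < Y.card := card_pos.2 (nonempty_iff_ne_empty.2 hY0)
    omega
  obtain ⟨X, hX, hX2⟩ : ∃ X, X ∉ A ∧ 2 ≤ X.card := by
    by_contra h
    push Not at h
    have : Aᶜ ⊆ univ.filter (fun X : U => X.card ≤ 1) := by
      intro X hX
      rw [mem_filter]
      rw [mem_compl] at hX
      exact ⟨mem_univ _, by have := h X hX; omega⟩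
    have := card_le_card this
    rw [compl_card A hc, small_card] at this
    omega
  have h1 := exchange A hA Y X hY hX
  have h3 : ((A.erase Y).filter (fun W => Disjoint X W)).card ≤ 32 := by
    calc _ ≤ 2 ^ (7 - X.card) := by
          rw [← card_disj]
          exact card_le_card (filter_subset_filter _ (subset_univ _))
      _ ≤ 2 ^ 5 := Nat.pow_le_pow_right (by norm_num) (by omega)
      _ = 32 := by norm_num
  have h4 : 64 ≤ ((A.erase Y).filter (fun W => Disjoint Y W)).card + 19 := by
    have h5 := card_disj Y
    rw [hY1] at h5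
    have h6 : univ.filter (fun W => Disjoint Y W) ⊆
        ((A.erase Y).filter (fun W => Disjoint Y W)) ∪ Aᶜ := by
      intro W hW
      rw [mem_filter] at hW
      rw [mem_union, mem_filter, mem_compl, mem_erase]
      by_cases hWA : W ∈ A
      · left
        refine ⟨⟨?_, hWA⟩, hW.2⟩
        rintro rfl
        exact hY0 (disjoint_self.1 hW.2)
      · right; exact hWA
    have h7 := (card_le_card h6).trans (card_union_le _ _)
    rw [compl_card A hc, h5] at h7
    simpa using h7
  omega

lemma three_mem (A : Finset U) (hA : Opt A) (hc : A.card = 109) :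
    ∀ X : U, 3 ≤ X.card → X ∈ A := by
  intro X hX3
  by_contra hX
  have h2 := two_le A hA hc
  obtain ⟨Y, hY, hY2⟩ : ∃ Y ∈ A, Y.card = 2 := by
    by_contra h
    push Not at h
    have : A ⊆ L := by
      intro Z hZ
      rw [L, mem_filter]
      have := h2 Z hZ
      have := h Z hZ
      exact ⟨mem_univ _, by omega⟩
    have := card_le_card this
    rw [card_L] at this
    omega
  have h1 := exchange A hA Y X hY hX
  have h3 : ((A.erase Y).filter (fun W => Disjoint X W)).card ≤ 11 := by
    refine le_trans (card_le_card ?_) (disj11 X hX3)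
    intro W hW
    rw [mem_filter] at hW ⊢
    exact ⟨mem_univ _, h2 W (mem_of_mem_erase hW.1), hW.2⟩
  obtain ⟨p, q, hpq, rfl⟩ := card_eq_two.1 hY2
  have hp : ({p} : U) ∉ A := fun h => by have := h2 _ h; rw [card_singleton] at this; omega
  have hq : ({q} : U) ∉ A := fun h => by have := h2 _ h; rw [card_singleton] at this; omega
  have h6 : univ.filter (fun W => Disjoint ({p, q} : U) W) ⊆
      ((A.erase {p, q}).filter (fun W => Disjoint ({p, q} : U) W)) ∪
      ((Aᶜ).erase {p}).erase {q} := by
    intro W hW
    rw [mem_filter] at hW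
    have hd := hW.2
    rw [mem_union, mem_filter, mem_erase, mem_erase, mem_erase, mem_compl]
    have hWp : p ∉ W := fun h => (disjoint_left.1 hd (by simp)) h
    have hWq : q ∉ W := fun h => (disjoint_left.1 hd (by simp)) h
    by_cases hWA : W ∈ A
    · left
      refine ⟨⟨?_, hWA⟩, hW.2⟩
      rintro rfl
      exact hWp (by simp)
    · right
      refine ⟨?_, ?_, hWA⟩
      · rintro rfl; exact hWq (by simp)
      · rintro rfl; exact hWp (by simp)
  have h7 := (card_le_card h6).trans (card_union_le _ _)
  have h8 : (((Aᶜ).erase {p}).erase {q}).card = 17 := by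
    rw [card_erase_of_mem, card_erase_of_mem, compl_card A hc]
    · exact mem_compl.2 hp
    · rw [mem_erase, mem_compl]
      refine ⟨?_, hq⟩
      intro h
      exact hpq (singleton_inj.1 h).symm
  rw [h8, card_disj, hY2] at h7
  have h9 : (2 : ℕ) ^ (7 - 2) = 32 := by norm_num
  rw [h9] at h7
  omega

/-- the pairs in `A` -/
def pr (A : Finset U) : Finset U := A.filter (fun X => X.card = 2)

lemma eq_union (A : Finset U) (hA : Opt A) (hc : A.card = 109) : A = L ∪ pr A := by
  ext X
  rw [mem_union, L, pr, mem_filter, mem_filter]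
  constructor
  · intro h
    have := two_le A hA hc X h
    rcases Nat.lt_or_ge X.card 3 with h3 | h3
    · right; exact ⟨h, by omega⟩
    · left; exact ⟨mem_univ _, h3⟩
  · rintro (⟨_, h⟩ | h)
    · exact three_mem A hA hc X h
    · exact h.1

lemma disj_L (G : Finset U) (hG : ∀ X ∈ G, X.card = 2) : Disjoint L G := by
  rw [disjoint_left]
  intro X hX hX'
  rw [L, mem_filter] at hX
  have := hG X hX'
  omega

lemma card_union_L (G : Finset U) (hG : ∀ X ∈ G, X.card = 2) : (L ∪ G).card = 99 + G.card := by
  rw [card_union_of_disjoint (disj_L G hG), card_L]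

lemma dd_union (G : Finset U) (hG : ∀ X ∈ G, X.card = 2) :
    dd (L ∪ G) = dd L + 32 * G.card + dd G := by
  induction G using Finset.induction_on with
  | empty => simp [dd]
  | insert Y G hY ih =>
    have hG' : ∀ X ∈ G, X.card = 2 := fun X hX => hG X (mem_insert_of_mem hX)
    have ih' := ih hG'
    have hY2 := hG Y (mem_insert_self _ _)
    have hYL : Y ∉ L := by rw [L, mem_filter]; omega
    rw [union_insert, dd_insert _ _ (by rw [mem_union]; tauto), ih', dd_insert _ _ hY,
      card_insert_of_notMem hY, filter_union, card_union_of_disjoint, disj16 Y hY2]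
    · ring
    · exact disjoint_filter_filter (disj_L G hG')

lemma card_pr (A : Finset U) (hA : Opt A) (hc : A.card = 109) : (pr A).card = 10 := by
  have h1 := eq_union A hA hc
  have h2 := card_union_L (pr A) (fun X hX => (mem_filter.1 hX).2)
  rw [← h1] at h2
  omega

/-- comparison with any other graph -/
lemma dd_pr_le (A : Finset U) (hA : Opt A) (hc : A.card = 109) (K : Finset U)
    (hK : ∀ X ∈ K, X.card = 2) (hKc : K.card = 10) : dd (pr A) ≤ dd K := by
  have h1 := eq_union A hA hc
  have hp : ∀ X ∈ pr A, X.card = 2 := fun X hX => (mem_filter.1 hX).2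
  have h2 := hA (L ∪ K) (by rw [card_union_L K hK, hKc, hc])
  rw [dd_union K hK] at h2
  rw [h1, dd_union _ hp, card_pr A hA hc] at h2
  omega

end Pool.Agent.H122R3.Sim
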