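import Mathlib
import Pool.Agent.H122R3.SimB

set_option autoImplicit false

open Finset

namespace Pool.Agent.H122R3.Sim

lemma dd_split (S R : Finset U) (hSR : Disjoint S R) :
    dd (S ∪ R) = dd S + dd R + 2 * ∑ Y ∈ R, (S.filter (fun X => Disjoint Y X)).card := by
  induction R using Finset.induction_on with
  | empty => simp [dd]
  | insert Y R hY ih =>
    rw [disjoint_insert_right] at hSR
    have ih' := ih hSR.2
    rw [union_insert, dd_insert _ _ (by rw [mem_union]; tauto), ih', dd_insert _ _ hY,
      sum_insert hY, filter_union, card_union_of_disjoint (disjoint_filter_filter hSR.2)]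
    ring

lemma meet_sub (S : Finset U) (v : Fin 7) (hS : ∀ X ∈ S, X.card = 2 ∧ v ∈ X) (Y : U)
    (hv : v ∉ Y) : S.filter (fun X => ¬ Disjoint Y X) ⊆ Y.image (fun y => ({v, y} : U)) := by
  intro X hX
  rw [mem_filter] at hX
  obtain ⟨hXS, hd⟩ := hX
  obtain ⟨h2, hvX⟩ := hS X hXS
  rw [not_disjoint_iff] at hd
  obtain ⟨y, hyY, hyX⟩ := hd
  rw [mem_image]
  refine ⟨y, hyY, ?_⟩
  apply eq_of_subset_of_card_le
  · intro z hz
    rw [mem_insert, mem_singleton] at hz
    rcases hz with rfl | rfl <;> assumption
  · rw [h2, card_pair]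
    rintro rfl
    exact hv hyY

lemma cross_ge (S : Finset U) (v : Fin 7) (hS : ∀ X ∈ S, X.card = 2 ∧ v ∈ X) (Y : U)
    (hY : Y.card = 2) (hv : v ∉ Y) : S.card ≤ (S.filter (fun X => Disjoint Y X)).card + 2 := by
  have h1 := (card_le_card (meet_sub S v hS Y hv)).trans card_image_le
  rw [hY] at h1
  have h2 := card_filter_add_card_filter_not (s := S) (fun X => Disjoint Y X)
  omega

lemma cross_eq (S : Finset U) (v : Fin 7) (hS : ∀ X ∈ S, X.card = 2 ∧ v ∈ X) (Y : U)
    (hY : Y.card = 2) (hv : v ∉ Y) (h : (S.filter (fun X => Disjoint Y X)).card + 2 ≤ S.card) :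
    ∀ y ∈ Y, ({v, y} : U) ∈ S := by
  have h1 := meet_sub S v hS Y hv
  have h2 := card_filter_add_card_filter_not (s := S) (fun X => Disjoint Y X)
  have h3 : (Y.image (fun y => ({v, y} : U))).card ≤ 2 := by
    rw [← hY]; exact card_image_le
  have h4 := eq_of_subset_of_card_le h1 (by omega)
  intro y hy
  have : ({v, y} : U) ∈ S.filter (fun X => ¬ Disjoint Y X) := by
    rw [h4, mem_image]; exact ⟨y, hy, rfl⟩
  exact (mem_filter.1 this).1

def deg (G : Finset U) (v : Fin 7) : ℕ := (G.filter (fun X => v ∈ X)).card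

lemma pw_of_dd (R : Finset U) (h : dd R = 0) : ∀ X ∈ R, ∀ Y ∈ R, X ≠ Y → ¬ Disjoint X Y := by
  intro X hX Y hY hne hd
  rw [dd, card_eq_zero] at h
  have : (X, Y) ∈ (R ×ˢ R).filter (fun p => p.1 ≠ p.2 ∧ Disjoint p.1 p.2) := by
    rw [mem_filter, mem_product]
    exact ⟨⟨hX, hY⟩, hne, hd⟩
  rw [h] at this
  simp at this

lemma big_deg (G : Finset U) (hG : ∀ X ∈ G, X.card = 2) (hc : G.card = 10) (hd : dd G ≤ 30)
    (v : Fin 7) (hmax : ∀ u, deg G u ≤ deg G v) : deg G v ≤ 4 := by
  by_contra hlt
  push Not at hlt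
  set S := G.filter (fun X => v ∈ X) with hS
  set R := G.filter (fun X => ¬ v ∈ X) with hR
  have hSR : Disjoint S R := disjoint_filter_filter_not G G _
  have hG' : G = S ∪ R := (filter_union_filter_not_eq _ _).symm
  have hcc : S.card + R.card = 10 := by
    rw [← hc]; exact card_filter_add_card_filter_not _
  have hSc : 5 ≤ S.card := hlt
  have hS' : ∀ X ∈ S, X.card = 2 ∧ v ∈ X := fun X hX =>
    ⟨hG X (mem_filter.1 hX).1, (mem_filter.1 hX).2⟩
  have hR' : ∀ Y ∈ R, Y.card = 2 ∧ v ∉ Y := fun X hX =>
    ⟨hG X (mem_filter.1 hX).1, (mem_filter.1 hX).2⟩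
  have h6 : S.card ≤ 6 := by
    have : S ⊆ (univ.erase v).image (fun y => ({v, y} : U)) := by
      intro X hX
      obtain ⟨h2, hvX⟩ := hS' X hX
      obtain ⟨y, hy, hyv⟩ := exists_mem_ne (by omega : 1 < X.card) v
      rw [mem_image]
      refine ⟨y, mem_erase.2 ⟨hyv, mem_univ _⟩, ?_⟩
      apply eq_of_subset_of_card_le
      · intro z hz
        rw [mem_insert, mem_singleton] at hz
        rcases hz with rfl | rfl <;> assumption
      · rw [h2, card_pair hyv.symm]
    refine (card_le_card this).trans (card_image_le.trans ?_)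
    rw [card_erase_of_mem (mem_univ _), card_univ, Fintype.card_fin]
  have hsplit := dd_split S R hSR
  rw [← hG'] at hsplit
  have hsum : ∀ Y ∈ R, S.card - 2 ≤ (S.filter (fun X => Disjoint Y X)).card := by
    intro Y hY
    have := cross_ge S v hS' Y (hR' Y hY).1 (hR' Y hY).2
    omega
  have hsum2 : R.card * (S.card - 2) ≤ ∑ Y ∈ R, (S.filter (fun X => Disjoint Y X)).card := by
    rw [← smul_eq_mul, ← sum_const]
    exact sum_le_sum hsum
  rcases Nat.lt_or_ge 5 S.card with h | h
  · have : S.card = 6 := by omega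
    have h4 : R.card = 4 := by omega
    rw [this, h4] at hsum2
    omega
  · have h5 : S.card = 5 := by omega
    have hR5 : R.card = 5 := by omega
    rw [h5, hR5] at hsum2
    have hdR : dd R = 0 := by omega
    have heq : ∑ Y ∈ R, (S.filter (fun X => Disjoint Y X)).card = ∑ Y ∈ R, (S.card - 2) := by
      rw [sum_const, smul_eq_mul, h5, hR5]; omega
    have heq2 : ∀ Y ∈ R, S.card - 2 = (S.filter (fun X => Disjoint Y X)).card :=
      (sum_eq_sum_iff_of_le hsum).1 heq.symm
    have hnb : ∀ Y ∈ R, ∀ y ∈ Y, ({v, y} : U) ∈ S := by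
      intro Y hY
      apply cross_eq S v hS' Y (hR' Y hY).1 (hR' Y hY).2
      have := heq2 Y hY
      omega
    have hpw := pw_of_dd R hdR
    -- no vertex covers R
    have hnc : ∀ Y ∈ R, ∀ p ∈ Y, ∃ Z ∈ R, p ∉ Z := by
      intro Y hY p hp
      by_contra hcon
      push Not at hcon
      have h1 : insert ({v, p} : U) R ⊆ G.filter (fun X => p ∈ X) := by
        intro X hX
        rw [mem_insert] at hX
        rw [mem_filter]
        rcases hX with rfl | hX
        · exact ⟨(mem_filter.1 (hnb Y hY p hp)).1, by simp⟩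
        · exact ⟨(mem_filter.1 hX).1, hcon X hX⟩
      have h2 := card_le_card h1
      rw [card_insert_of_notMem (fun h => (hR' _ h).2 (by simp)), hR5] at h2
      have h3 := hmax p
      have h4 : deg G v = 5 := h5
      unfold deg at h3 h4
      omega
    obtain ⟨Y0, hY0⟩ : R.Nonempty := card_pos.1 (by omega)
    obtain ⟨p, q, hpq, hY0e⟩ := card_eq_two.1 (hR' Y0 hY0).1
    obtain ⟨Y1, hY1, hp1⟩ := hnc Y0 hY0 p (by rw [hY0e]; simp)
    obtain ⟨Y2, hY2, hq2⟩ := hnc Y0 hY0 q (by rw [hY0e]; simp)
    have hq1 : q ∈ Y1 := by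
      have := hpw Y0 hY0 Y1 hY1 (fun h => hp1 (by rw [← h, hY0e]; simp))
      rw [not_disjoint_iff] at this
      obtain ⟨z, hz, hz1⟩ := this
      rw [hY0e, mem_insert, mem_singleton] at hz
      rcases hz with rfl | rfl
      · exact absurd hz1 hp1
      · exact hz1
    have hp2 : p ∈ Y2 := by
      have := hpw Y0 hY0 Y2 hY2 (fun h => hq2 (by rw [← h, hY0e]; simp))
      rw [not_disjoint_iff] at this
      obtain ⟨z, hz, hz1⟩ := this
      rw [hY0e, mem_insert, mem_singleton] at hz
      rcases hz with rfl | rfl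
      · exact hz1
      · exact absurd hz1 hq2
    have h12 := hpw Y1 hY1 Y2 hY2 (fun h => hp1 (h ▸ hp2))
    rw [not_disjoint_iff] at h12
    obtain ⟨r, hr1, hr2⟩ := h12
    have hrp : r ≠ p := fun h => hp1 (h ▸ hr1)
    have hrq : r ≠ q := fun h => hq2 (h ▸ hr2)
    have hY1e : Y1 = {q, r} := by
      symm
      apply eq_of_subset_of_card_le
      · intro z hz
        rw [mem_insert, mem_singleton] at hz
        rcases hz with rfl | rfl <;> assumption
      · rw [(hR' Y1 hY1).1, card_pair hrq.symm]
    have hY2e : Y2 = {p, r} := by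
      symm
      apply eq_of_subset_of_card_le
      · intro z hz
        rw [mem_insert, mem_singleton] at hz
        rcases hz with rfl | rfl <;> assumption
      · rw [(hR' Y2 hY2).1, card_pair hrp.symm]
    have hall : R ⊆ powersetCard 2 ({p, q, r} : U) := by
      intro Y hY
      rw [mem_powersetCard]
      refine ⟨?_, (hR' Y hY).1⟩
      intro x hx
      by_contra hx3
      simp only [mem_insert, mem_singleton, not_or] at hx3
      obtain ⟨hxp, hxq, hxr⟩ := hx3
      -- the other element of Y
      obtain ⟨y, hy, hyx⟩ := exists_mem_ne (by rw [(hR' Y hY).1]; norm_num : 1 < Y.card) x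
      have hYe : Y = {x, y} := by
        symm
        apply eq_of_subset_of_card_le
        · intro z hz
          rw [mem_insert, mem_singleton] at hz
          rcases hz with rfl | rfl <;> assumption
        · rw [(hR' Y hY).1, card_pair hyx.symm]
      have key : ∀ a b : Fin 7, ({a, b} : U) ∈ R → x ≠ a → x ≠ b → y = a ∨ y = b := by
        intro a b hab hxa hxb
        have hne : Y ≠ {a, b} := by
          intro h
          rw [h] at hx
          simp only [mem_insert, mem_singleton] at hx
          tauto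
        have := hpw Y hY _ hab hne
        rw [not_disjoint_iff] at this
        obtain ⟨z, hz, hz1⟩ := this
        rw [hYe, mem_insert, mem_singleton] at hz
        simp only [mem_insert, mem_singleton] at hz1
        rcases hz with rfl | rfl
        · tauto
        · exact hz1
      have k1 := key p q (hY0e ▸ hY0) hxp hxq
      have k2 := key q r (hY1e ▸ hY1) hxq hxr
      have k3 := key p r (hY2e ▸ hY2) hxp hxr
      rcases k1 with rfl | rfl
      · rcases k2 with h | h
        · exact hpq h
        · exact hrp h.symm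
      · rcases k3 with h | h
        · exact hpq h.symm
        · exact hrq h.symm
    have := card_le_card hall
    rw [card_powersetCard, hR5] at this
    have h3 : ({p, q, r} : U).card ≤ 3 := card_le_three
    have h4 : (({p, q, r} : U).card).choose 2 ≤ (3).choose 2 := Nat.choose_le_choose 2 h3
    have h5' : (3).choose 2 = 3 := by decide
    omega

lemma sum_deg (G : Finset U) (hG : ∀ X ∈ G, X.card = 2) : ∑ v, deg G v = 2 * G.card := by
  unfold deg
  simp_rw [card_filter]
  rw [sum_comm, mul_comm, ← smul_eq_mul, ← sum_const]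
  apply sum_congr rfl
  intro X hX
  rw [← card_filter, filter_univ_mem]
  exact hG X hX

lemma sum_deg_sq (G : Finset U) (hG : ∀ X ∈ G, X.card = 2) :
    ∑ v, deg G v * deg G v + dd G = G.card + G.card * G.card := by
  have h1 : ∑ v, deg G v * deg G v = ∑ p ∈ G ×ˢ G, (p.1 ∩ p.2).card := by
    have : ∀ v, deg G v * deg G v =
        ∑ p ∈ G ×ˢ G, if v ∈ p.1 ∩ p.2 then 1 else 0 := by
      intro v
      unfold deg
      rw [← card_product, ← filter_product, card_filter]
      apply sum_congr rfl
      intro p _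
      simp only [mem_inter]
    simp_rw [this]
    rw [sum_comm]
    apply sum_congr rfl
    intro p _
    rw [← card_filter, filter_univ_mem]
  have h2 : ∀ p ∈ G ×ˢ G, (p.1 ∩ p.2).card + (if p.1 ≠ p.2 ∧ Disjoint p.1 p.2 then 1 else 0) =
      (if p.1 = p.2 then 1 else 0) + 1 := by
    rintro ⟨X, Y⟩ hp
    rw [mem_product] at hp
    simp only
    by_cases h : X = Y
    · subst h
      simp [hG X hp.1]
    · by_cases hd : Disjoint X Y
      · rw [disjoint_iff_inter_eq_empty] at hd
        simp [h, disjoint_iff_inter_eq_empty, hd]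
      · have h1 : 1 ≤ (X ∩ Y).card := by
          rw [Nat.one_le_iff_ne_zero, ne_eq, card_eq_zero]
          rwa [disjoint_iff_inter_eq_empty] at hd
        have h2 : (X ∩ Y).card < 2 := by
          by_contra hcon
          push Not at hcon
          have e1 : X ∩ Y = X := eq_of_subset_of_card_le inter_subset_left (by rw [hG X hp.1]; exact hcon)
          have e2 : X ∩ Y = Y := eq_of_subset_of_card_le inter_subset_right (by rw [hG Y hp.2]; exact hcon)
          exact h (e1.symm.trans e2)
        simp only [h, hd, ne_eq, not_false_eq_true, and_false, if_false]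
        omega
  have h3 := sum_congr rfl h2
  rw [sum_add_distrib, sum_add_distrib, ← h1, sum_const, card_product, smul_eq_mul, mul_one,
    ← card_filter] at h3
  rw [dd, h3]
  congr 1
  rw [← card_filter]
  have : (G ×ˢ G).filter (fun p => p.1 = p.2) = G.image (fun x => (x, x)) := by
    ext ⟨a, b⟩
    simp only [mem_filter, mem_product, mem_image, Prod.mk.injEq]
    constructor
    · rintro ⟨⟨h, _⟩, rfl⟩; exact ⟨a, h, rfl, rfl⟩
    · rintro ⟨x, hx, rfl, rfl⟩; exact ⟨⟨hx, hx⟩, rfl⟩
  rw [this, card_image_of_injective]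
  intro x y h
  exact (Prod.mk.inj h).1

/-- ten edges on seven vertices with at most 15 disjoint pairs form a `K₅` -/
lemma classify (G : Finset U) (hG : ∀ X ∈ G, X.card = 2) (hc : G.card = 10) (hd : dd G ≤ 30) :
    ∃ W : U, W.card = 5 ∧ G = powersetCard 2 W := by
  obtain ⟨v, _, hv⟩ := exists_max_image univ (deg G) ⟨0, mem_univ _⟩
  have h4 := big_deg G hG hc hd v (fun u => hv u (mem_univ _))
  have hle : ∀ u, deg G u ≤ 4 := fun u => (hv u (mem_univ _)).trans h4
  have s1 := sum_deg G hG
  have s2 := sum_deg_sq G hG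
  rw [hc] at s1 s2
  have h0 : ∑ u, deg G u * deg G u = ∑ u, 4 * deg G u := by
    apply le_antisymm
    · exact sum_le_sum (fun u _ => Nat.mul_le_mul_right _ (hle u))
    · rw [← mul_sum, s1]; omega
  have h1 : ∀ u ∈ univ, deg G u * deg G u = 4 * deg G u :=
    (sum_eq_sum_iff_of_le (fun u _ => Nat.mul_le_mul_right _ (hle u))).1 h0
  have h2 : ∀ u, deg G u = 0 ∨ deg G u = 4 := by
    intro u
    rcases Nat.eq_zero_or_pos (deg G u) with h | h
    · left; exact h
    · right; exact Nat.eq_of_mul_eq_mul_right h (h1 u (mem_univ _))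
  set W : U := univ.filter (fun u => deg G u = 4) with hW
  have h3 : ∑ u, deg G u = 4 * W.card := by
    rw [hW, card_filter, mul_sum]
    apply sum_congr rfl
    intro u _
    rcases h2 u with h | h <;> simp [h]
  have hW5 : W.card = 5 := by omega
  refine ⟨W, hW5, ?_⟩
  apply eq_of_subset_of_card_le
  · intro X hX
    rw [mem_powersetCard]
    refine ⟨?_, hG X hX⟩
    intro x hx
    rw [hW, mem_filter]
    refine ⟨mem_univ _, ?_⟩
    rcases h2 x with h | h
    · exfalso
      unfold deg at h
      rw [card_eq_zero] at h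
      have : X ∈ G.filter (fun X => x ∈ X) := mem_filter.2 ⟨hX, hx⟩
      rw [h] at this
      simp at this
    · exact h
  · rw [card_powersetCard, hW5, hc]
    decide

end Pool.Agent.H122R3.Sim
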