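import Mathlib
import Pool.Agent.H122R3.SimC

set_option autoImplicit false

open Finset

namespace Pool.Agent.H122R3.Sim

/-- number of pairwise intersecting subfamilies -/
def nu (S : Finset U) : ℕ := (S.powerset.filter Pw).card

lemma Pw.mono {F G : Finset U} (h : F ⊆ G) (hG : Pw G) : Pw F :=
  fun X hX Y hY => hG X (h hX) Y (h hY)

lemma pw_insert {X : U} {T : Finset U} (hX : X ∉ T) :
    Pw (insert X T) ↔ Pw T ∧ ∀ Y ∈ T, ¬ Disjoint X Y := by
  constructor
  · intro h
    refine ⟨h.mono (subset_insert _ _), fun Y hY => h X (mem_insert_self _ _) Y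
      (mem_insert_of_mem hY) (fun he => hX (he ▸ hY))⟩
  · rintro ⟨h1, h2⟩ A hA B hB hAB
    rw [mem_insert] at hA hB
    rcases hA with rfl | hA <;> rcases hB with rfl | hB
    · exact absurd rfl hAB
    · exact h2 B hB
    · exact fun h => h2 A hA h.symm
    · exact h1 A hA B hB hAB

lemma nu_empty : nu ∅ = 1 := by
  unfold nu
  rw [powerset_empty, filter_true_of_mem, card_singleton]
  intro F hF
  rw [mem_singleton] at hF
  subst hF
  intro X hX
  exact absurd hX (notMem_empty X)

lemma nu_insert (X : U) (S : Finset U) (hX : X ∉ S) :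
    nu (insert X S) = nu S + nu (S.filter (fun Y => ¬ Disjoint X Y)) := by
  unfold nu
  rw [card_filter, sum_powerset_insert hX, ← card_filter, ← card_filter]
  congr 2
  ext T
  simp only [mem_filter, mem_powerset]
  constructor
  · rintro ⟨h1, h2⟩
    rw [pw_insert (fun h => hX (h1 h))] at h2
    refine ⟨fun Y hY => mem_filter.2 ⟨h1 hY, h2.2 Y hY⟩, h2.1⟩
  · rintro ⟨h1, h2⟩
    have h3 : T ⊆ S := fun Y hY => (mem_filter.1 (h1 hY)).1
    refine ⟨h3, ?_⟩
    rw [pw_insert (fun h => hX (h3 h))]
    exact ⟨h2, fun Y hY => (mem_filter.1 (h1 hY)).2⟩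

/-- decode a bit mask -/
def dec (a : ℕ) : U := univ.filter (fun i => a.testBit i)

lemma mem_dec (a : ℕ) (i : Fin 7) : i ∈ dec a ↔ a.testBit i = true := by simp [dec]

lemma eq_of_testBit {a b : ℕ} (ha : a < 128) (hb : b < 128)
    (h : ∀ i : Fin 7, a.testBit i = b.testBit i) : a = b := by
  apply Nat.eq_of_testBit_eq
  intro i
  rcases Nat.lt_or_ge i 7 with hi | hi
  · exact h ⟨i, hi⟩
  · rw [Nat.testBit_lt_two_pow, Nat.testBit_lt_two_pow]
    · exact lt_of_lt_of_le hb (by
        calc 128 = 2 ^ 7 := by norm_num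
          _ ≤ 2 ^ i := Nat.pow_le_pow_right (by norm_num) hi)
    · exact lt_of_lt_of_le ha (by
        calc 128 = 2 ^ 7 := by norm_num
          _ ≤ 2 ^ i := Nat.pow_le_pow_right (by norm_num) hi)

lemma dec_inj {a b : ℕ} (ha : a < 128) (hb : b < 128) (h : dec a = dec b) : a = b := by
  apply eq_of_testBit ha hb
  intro i
  have := congrArg (fun s => i ∈ s) h
  simp only [mem_dec, eq_iff_iff] at this
  exact Bool.eq_iff_iff.2 this

lemma disj_dec {a b : ℕ} (ha : a < 128) : Disjoint (dec a) (dec b) ↔ a &&& b = 0 := by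
  rw [disjoint_left]
  simp only [mem_dec]
  constructor
  · intro h
    apply eq_of_testBit (lt_of_le_of_lt Nat.and_le_left ha) (by norm_num)
    intro i
    rw [Nat.testBit_and, Nat.zero_testBit]
    have := h (a := i)
    revert this
    cases a.testBit i <;> cases b.testBit i <;> simp
  · intro h i hi hb
    have := congrArg (fun n => n.testBit i) h
    simp only [Nat.testBit_and, hi, hb, Nat.zero_testBit] at this
    exact absurd this (by simp)

lemma subset_dec {a b : ℕ} (ha : a < 128) : dec a ⊆ dec b ↔ a &&& b = a := by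
  constructor
  · intro h
    apply eq_of_testBit (lt_of_le_of_lt Nat.and_le_left ha) ha
    intro i
    rw [Nat.testBit_and]
    have := @h i
    simp only [mem_dec] at this
    revert this
    cases a.testBit i <;> cases b.testBit i <;> simp
  · intro h i hi
    rw [mem_dec] at hi ⊢
    have := congrArg (fun n => n.testBit i) h
    simp only [Nat.testBit_and, hi] at this
    simpa using this

/-- decode a list of masks -/
def decL (l : List ℕ) : Finset U := (l.map dec).toFinset

lemma mem_decL (l : List ℕ) (X : U) : X ∈ decL l ↔ ∃ a ∈ l, dec a = X := by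
  simp [decL]

lemma decL_cons (a : ℕ) (l : List ℕ) : decL (a :: l) = insert (dec a) (decL l) := by
  simp [decL]

lemma dec_notMem {a : ℕ} {l : List ℕ} (ha : a < 128) (hl : ∀ b ∈ l, b < 128) (h : a ∉ l) :
    dec a ∉ decL l := by
  rw [mem_decL]
  rintro ⟨b, hb, he⟩
  rw [dec_inj (hl b hb) ha he] at hb
  exact h hb

def cntN : ℕ → List ℕ → ℕ
  | 0, _ => 1
  | _ + 1, [] => 1
  | n + 1, a :: l => cntN n l + cntN n (l.filter (fun b => (a &&& b) != 0))

lemma cntN_eq : ∀ (n : ℕ) (l : List ℕ), l.length ≤ n → (∀ b ∈ l, b < 128) → l.Nodup →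
    nu (decL l) = cntN n l := by
  intro n
  induction n with
  | zero =>
    intro l hl _ _
    have : l = [] := List.length_eq_zero_iff.1 (by omega)
    subst this
    simp [decL, cntN, nu_empty]
  | succ n ih =>
    intro l hl hb hn
    cases l with
    | nil => simp [decL, cntN, nu_empty]
    | cons a l =>
      rw [List.nodup_cons] at hn
      have hb' : ∀ b ∈ l, b < 128 := fun b hb0 => hb b (List.mem_cons_of_mem _ hb0)
      have ha : a < 128 := hb a List.mem_cons_self
      rw [List.length_cons] at hl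
      rw [decL_cons, nu_insert _ _ (dec_notMem ha hb' hn.1), cntN, ih l (by omega) hb' hn.2]
      congr 1
      rw [← ih (l.filter (fun b => (a &&& b) != 0))
        ((List.length_filter_le _ _).trans (by omega))
        (fun b hb0 => hb' b (List.mem_of_mem_filter hb0)) (hn.2.filter _)]
      congr 1
      ext X
      rw [mem_filter, mem_decL, mem_decL]
      constructor
      · rintro ⟨⟨b, hb0, rfl⟩, hd⟩
        rw [disj_dec ha] at hd
        exact ⟨b, List.mem_filter.2 ⟨hb0, by simpa using hd⟩, rfl⟩
      · rintro ⟨b, hb0, rfl⟩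
        rw [List.mem_filter] at hb0
        refine ⟨⟨b, hb0.1, rfl⟩, ?_⟩
        rw [disj_dec ha]
        simpa using hb0.2

end Pool.Agent.H122R3.Sim
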