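import Mathlib
import Pool.Agent.H122R3.SimD

set_option autoImplicit false

open Finset

namespace Pool.Agent.H122R3.Sim

/-- intersecting families of 64 sets of size at least two with prescribed pairs -/
def Wf (P : Finset U) : Finset (Finset U) :=
  univ.filter (fun F => F.card = 64 ∧ Pw F ∧ (∀ X ∈ F, 2 ≤ X.card) ∧
    F.filter (fun X => X.card = 2) = P)

def Free (P : Finset U) : Finset U :=
  univ.filter (fun X => X.card = 3 ∧ ∀ Y ∈ P, ¬ Disjoint Y X ∧ ¬ Y ⊆ X)

def R (P T : Finset U) (X : U) : Prop :=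
  X ∈ P ∨ (X.card = 3 ∧ ((∃ Y ∈ P, Y ⊆ X) ∨ X ∈ T))

open Classical in
noncomputable def build (P T : Finset U) : Finset U :=
  univ.filter (fun X => R P T X ∨ (4 ≤ X.card ∧ ¬ R P T Xᶜ))

lemma cc (X : U) : X.card + (Xᶜ).card = 7 := by
  have := card_add_card_compl X
  simpa using this

lemma half_of_compl (F : Finset U) (h : ∀ X, X ∈ F ↔ Xᶜ ∉ F) : F.card = 64 := by
  have h1 : F.image compl = Fᶜ := by
    ext X
    rw [mem_image, mem_compl]
    constructor
    · rintro ⟨Y, hY, rfl⟩
      exact (h Y).1 hY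
    · intro hX
      refine ⟨Xᶜ, ?_, compl_compl X⟩
      by_contra hc
      exact hX ((h X).2 hc)
  have h2 : (Fᶜ).card = F.card := by
    rw [← h1, card_image_of_injective _ compl_injective]
  have h3 := card_add_card_compl F
  rw [← card_univ, card_U, h2] at h3
  omega

lemma compl_of_half (F : Finset U) (h64 : F.card = 64) (hP : Pw F) : ∀ X, X ∈ F ↔ Xᶜ ∉ F := by
  have hne : ∀ X : U, X ≠ Xᶜ := by
    intro X he
    have := cc X
    rw [← he] at this
    omega
  have hd : ∀ X, X ∈ F → Xᶜ ∉ F := fun X hX hc =>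
    hP X hX _ hc (hne X) disjoint_compl_right
  have h1 : Disjoint F (F.image compl) := by
    rw [disjoint_left]
    intro X hX hX'
    obtain ⟨Y, hY, rfl⟩ := mem_image.1 hX'
    exact hd Y hY hX
  have h2 : (F ∪ F.image compl).card = 128 := by
    rw [card_union_of_disjoint h1, card_image_of_injective _ compl_injective, h64]
  have h3 : F ∪ F.image compl = univ := by
    apply eq_of_subset_of_card_le (subset_univ _)
    rw [card_U, h2]
  intro X
  refine ⟨hd X, fun hX => ?_⟩
  have : X ∈ F ∪ F.image compl := h3 ▸ mem_univ X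
  rw [mem_union] at this
  rcases this with h | h
  · exact h
  · obtain ⟨Y, hY, rfl⟩ := mem_image.1 h
    rw [compl_compl] at hX
    exact absurd hY hX

section
variable {P T : Finset U} (hP2 : ∀ X ∈ P, X.card = 2)
include hP2

lemma R_card {X : U} (h : R P T X) : X.card = 2 ∨ X.card = 3 := by
  rcases h with h | h
  · left; exact hP2 X h
  · right; exact h.1

lemma mem_build (X : U) : X ∈ build P T ↔
    ((X.card ≤ 3 ∧ R P T X) ∨ (4 ≤ X.card ∧ ¬ R P T Xᶜ)) := by
  classical
  unfold build
  rw [mem_filter]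
  constructor
  · rintro ⟨_, h | h⟩
    · left
      have := R_card hP2 h
      exact ⟨by omega, h⟩
    · right; exact h
  · rintro (h | h)
    · exact ⟨mem_univ _, Or.inl h.2⟩
    · exact ⟨mem_univ _, Or.inr h⟩

lemma build_compl (X : U) : X ∈ build P T ↔ Xᶜ ∉ build P T := by
  rw [mem_build hP2, mem_build hP2, compl_compl]
  have h1 := cc X
  by_cases h : X.card ≤ 3
  · have h4 : ¬ 4 ≤ X.card := by omega
    have h5 : ¬ (Xᶜ).card ≤ 3 := by omega
    have h6 : 4 ≤ (Xᶜ).card := by omega
    simp [h, h4, h5, h6]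
  · have h4 : 4 ≤ X.card := by omega
    have h5 : (Xᶜ).card ≤ 3 := by omega
    have h6 : ¬ 4 ≤ (Xᶜ).card := by omega
    simp [h, h4, h5, h6]

lemma build_pw (hP : Pw P) (hT : T ⊆ Free P) (hTp : Pw T) : Pw (build P T) := by
  have hR : ∀ X, R P T X → (∃ Z ∈ P, Z ⊆ X) ∨ X ∈ T := by
    rintro X (h | ⟨_, h | h⟩)
    · left; exact ⟨X, h, Subset.refl _⟩
    · left; exact h
    · right; exact h
  have hne : ∀ Z ∈ P, ∀ X Y : U, Z ⊆ X → Z ⊆ Y → ¬ Disjoint X Y := by
    intro Z hZ X Y h1 h2 hd
    have h3 : Disjoint Z Z := hd.mono h1 h2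
    rw [disjoint_self] at h3
    have := hP2 Z hZ
    rw [h3] at this
    simp at this
  have hfree : ∀ Z ∈ P, ∀ Y ∈ T, ¬ Disjoint Z Y := fun Z hZ Y hY =>
    ((mem_filter.1 (hT hY)).2.2 Z hZ).1
  have small : ∀ X Y, R P T X → R P T Y → X ≠ Y → ¬ Disjoint X Y := by
    intro X Y hX hY hXY hd
    rcases hR X hX with ⟨Z, hZ, hZX⟩ | hX'
    · rcases hR Y hY with ⟨Z', hZ', hZY⟩ | hY'
      · by_cases h : Z = Z'
        · subst h; exact hne Z hZ X Y hZX hZY hd
        · exact hP Z hZ Z' hZ' h (hd.mono hZX hZY)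
      · exact hfree Z hZ Y hY' (hd.mono_left hZX)
    · rcases hR Y hY with ⟨Z', hZ', hZY⟩ | hY'
      · exact hfree Z' hZ' X hX' (hd.symm.mono_left hZY)
      · exact hTp X hX' Y hY' hXY hd
  have mixed : ∀ X Y, R P T X → ¬ R P T Yᶜ → 4 ≤ Y.card → ¬ Disjoint X Y := by
    intro X Y hX hY h4 hd
    have hXY : X ⊆ Yᶜ := le_compl_iff_disjoint_right.2 hd
    have hc := cc Y
    apply hY
    rcases hR X hX with ⟨Z, hZ, hZX⟩ | hX'
    · have hZY := hZX.trans hXY
      have h2 := card_le_card hZY
      rw [hP2 Z hZ] at h2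
      rcases Nat.lt_or_ge (Yᶜ).card 3 with h3 | h3
      · have : Z = Yᶜ := eq_of_subset_of_card_le hZY (by rw [hP2 Z hZ]; omega)
        left; rw [← this]; exact hZ
      · right; exact ⟨by omega, Or.inl ⟨Z, hZ, hZY⟩⟩
    · have h3 : X.card = 3 := (mem_filter.1 (hT hX')).2.1
      have : X = Yᶜ := eq_of_subset_of_card_le hXY (by omega)
      right
      rw [← this]
      exact ⟨h3, Or.inr hX'⟩
  intro X hX Y hY hXY
  rw [mem_build hP2] at hX hY
  rcases hX with ⟨_, hX⟩ | ⟨hX4, hX⟩
  · rcases hY with ⟨_, hY⟩ | ⟨hY4, hY⟩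
    · exact small X Y hX hY hXY
    · exact mixed X Y hX hY hY4
  · rcases hY with ⟨_, hY⟩ | ⟨hY4, hY⟩
    · exact fun h => mixed Y X hY hX hX4 h.symm
    · intro hd
      have h1 := card_union_of_disjoint hd
      have h2 : (X ∪ Y).card ≤ 7 := by
        have := card_le_univ (X ∪ Y)
        simpa using this
      omega

lemma build_mem (hP : Pw P) (hT : T ⊆ Free P) (hTp : Pw T) : build P T ∈ Wf P := by
  rw [Wf, mem_filter]
  refine ⟨mem_univ _, half_of_compl _ (build_compl hP2), build_pw hP2 hP hT hTp, ?_, ?_⟩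
  · intro X hX
    rw [mem_build hP2] at hX
    rcases hX with ⟨_, h⟩ | ⟨h, _⟩
    · have := R_card hP2 h; omega
    · omega
  · ext X
    rw [mem_filter, mem_build hP2]
    constructor
    · rintro ⟨(⟨_, h⟩ | ⟨h, _⟩), h2⟩
      · rcases h with h | h
        · exact h
        · omega
      · omega
    · intro h
      have := hP2 X h
      exact ⟨Or.inl ⟨by omega, Or.inl h⟩, this⟩

lemma build_inter (hT : T ⊆ Free P) :
    (build P T).filter (fun X => X ∈ Free P) = T := by
  ext X
  rw [mem_filter, mem_build hP2]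
  constructor
  · rintro ⟨(⟨_, h⟩ | ⟨h, _⟩), h2⟩
    · have hF := (mem_filter.1 h2).2
      rcases h with h | ⟨_, ⟨Y, hY, hYX⟩ | h⟩
      · have := hP2 X h; omega
      · exact absurd hYX (hF.2 Y hY).2
      · exact h
    · have hF := (mem_filter.1 h2).2
      omega
  · intro h
    have hF := (mem_filter.1 (hT h)).2
    exact ⟨Or.inl ⟨by omega, Or.inr ⟨hF.1, Or.inr h⟩⟩, hT h⟩

lemma build_of_mem (F : Finset U) (hF : F ∈ Wf P) :
    build P (F.filter (fun X => X ∈ Free P)) = F := by
  rw [Wf, mem_filter] at hF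
  obtain ⟨_, h64, hPw, h2, hFP⟩ := hF
  have hco := compl_of_half F h64 hPw
  have hPF : ∀ X ∈ P, X ∈ F := fun X hX => by
    rw [← hFP] at hX; exact (mem_filter.1 hX).1
  have key : ∀ X : U, X.card ≤ 3 → (X ∈ F ↔ R P (F.filter (fun X => X ∈ Free P)) X) := by
    intro X hX3
    constructor
    · intro hX
      have hX2 := h2 X hX
      rcases Nat.lt_or_ge X.card 3 with h | h
      · left
        rw [← hFP, mem_filter]
        exact ⟨hX, by omega⟩
      · right
        refine ⟨by omega, ?_⟩
        by_cases hY : ∃ Y ∈ P, Y ⊆ X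
        · left; exact hY
        · right
          push Not at hY
          rw [mem_filter, Free, mem_filter]
          refine ⟨hX, mem_univ _, by omega, fun Y hYP => ⟨?_, hY Y hYP⟩⟩
          apply hPw Y (hPF Y hYP) X hX
          rintro rfl
          have := hP2 Y hYP
          omega
    · rintro (h | ⟨h3, ⟨Y, hYP, hYX⟩ | h⟩)
      · exact hPF X h
      · by_contra hXF
        have hXc : Xᶜ ∈ F := by
          by_contra hc
          exact hXF ((hco X).2 hc)
        refine hPw Y (hPF Y hYP) _ hXc ?_ ?_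
        · intro he
          have h1 := cc X
          have h4 := hP2 Y hYP
          rw [he] at h4
          omega
        · exact disjoint_compl_right.mono_left hYX
      · exact (mem_filter.1 h).1
  ext X
  rw [mem_build hP2]
  have hc := cc X
  constructor
  · rintro (⟨h3, h⟩ | ⟨h4, h⟩)
    · exact (key X h3).2 h
    · rw [← key Xᶜ (by omega)] at h
      exact (hco X).2 h
  · intro hX
    rcases Nat.lt_or_ge X.card 4 with h | h
    · left; exact ⟨by omega, (key X (by omega)).1 hX⟩
    · right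
      refine ⟨h, ?_⟩
      rw [← key Xᶜ (by omega)]
      exact (hco X).1 hX

lemma card_Wf (hP : Pw P) : (Wf P).card = nu (Free P) := by
  unfold nu
  apply card_nbij' (fun F => F.filter (fun X => X ∈ Free P)) (fun T => build P T)
  · intro F hF
    rw [mem_coe] at hF
    have hF' := hF
    rw [Wf, mem_filter] at hF'
    rw [mem_coe, mem_filter, mem_powerset]
    refine ⟨fun X hX => (mem_filter.1 hX).2, hF'.2.2.1.mono (filter_subset _ _)⟩
  · intro T hT
    rw [mem_coe, mem_filter, mem_powerset] at hT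
    rw [mem_coe]
    exact build_mem hP2 hP hT.1 hT.2
  · intro F hF
    exact build_of_mem hP2 F (mem_coe.1 hF)
  · intro T hT
    rw [mem_coe, mem_filter, mem_powerset] at hT
    exact build_inter hP2 hT.1

end

lemma Wf_empty (P : Finset U) (hP : ¬ Pw P) : Wf P = ∅ := by
  rw [eq_empty_iff_forall_notMem]
  intro F hF
  rw [Wf, mem_filter] at hF
  apply hP
  rw [← hF.2.2.2.2]
  exact hF.2.2.1.mono (filter_subset _ _)

/-- counting the families inside `L ∪ G` -/
lemma i64_eq (G : Finset U) (hG : ∀ X ∈ G, X.card = 2) :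
    i2 64 (L ∪ G) = ∑ P ∈ G.powerset, (Wf P).card := by
  unfold i2
  rw [card_eq_sum_card_fiberwise (f := fun F : Finset U => F.filter (fun X => X.card = 2))
    (t := G.powerset)]
  · apply sum_congr rfl
    intro P hP
    rw [mem_powerset] at hP
    congr 1
    ext F
    rw [mem_filter, mem_filter, mem_powersetCard, Wf, mem_filter]
    constructor
    · rintro ⟨⟨⟨h1, h2⟩, h3⟩, h4⟩
      refine ⟨mem_univ _, h2, h3, ?_, h4⟩
      intro X hX
      have := h1 hX
      rw [mem_union, L, mem_filter] at this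
      rcases this with h | h
      · omega
      · rw [hG X h]
    · rintro ⟨_, h2, h3, h5, h4⟩
      refine ⟨⟨⟨?_, h2⟩, h3⟩, h4⟩
      intro X hX
      rw [mem_union, L, mem_filter]
      rcases Nat.lt_or_ge X.card 3 with h | h
      · right
        apply hP
        rw [← h4, mem_filter]
        exact ⟨hX, by have := h5 X hX; omega⟩
      · left; exact ⟨mem_univ _, h⟩
  · intro F hF
    rw [mem_coe, mem_filter, mem_powersetCard] at hF
    rw [mem_coe, mem_powerset]
    intro X hX
    rw [mem_filter] at hX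
    have := hF.1.1 hX.1
    rw [mem_union, L, mem_filter] at this
    rcases this with h | h
    · omega
    · exact h

end Pool.Agent.H122R3.Sim
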