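import Mathlib
import Pool.Agent.H122R3.SimE

set_option autoImplicit false

open Finset

namespace Pool.Agent.H122R3.Sim

def codes3 : List ℕ := [7, 11, 13, 14, 19, 21, 22, 25, 26, 28, 35, 37, 38, 41, 42, 44, 49, 50, 52,
  56, 67, 69, 70, 73, 74, 76, 81, 82, 84, 88, 97, 98, 100, 104, 112]

lemma codes3_lt : ∀ a ∈ codes3, a < 128 := by decide

lemma codes3_nodup : codes3.Nodup := by decide

lemma codes3_spec : ∀ X : U, X.card = 3 ↔ ∃ a ∈ codes3, dec a = X := by decide +kernel

def freeL (acc : List ℕ) : List ℕ :=
  codes3.filter (fun t => acc.all (fun e => (e &&& t) != 0 && (e &&& t) != e))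

lemma Free_decL (acc : List ℕ) (h : ∀ b ∈ acc, b < 128) : Free (decL acc) = decL (freeL acc) := by
  ext X
  rw [Free, mem_filter, mem_decL, codes3_spec]
  constructor
  · rintro ⟨_, ⟨a, ha, rfl⟩, h2⟩
    refine ⟨a, ?_, rfl⟩
    rw [freeL, List.mem_filter, List.all_eq_true]
    refine ⟨ha, fun e he => ?_⟩
    have h3 := h2 (dec e) ((mem_decL _ _).2 ⟨e, he, rfl⟩)
    rw [disj_dec (h e he), subset_dec (h e he)] at h3
    simp only [bne_iff_ne, ne_eq, Bool.and_eq_true]
    exact h3
  · rintro ⟨a, ha, rfl⟩
    rw [freeL, List.mem_filter, List.all_eq_true] at ha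
    refine ⟨mem_univ _, ⟨a, ha.1, rfl⟩, ?_⟩
    intro Y hY
    obtain ⟨e, he, rfl⟩ := (mem_decL _ _).1 hY
    have h3 := ha.2 e he
    simp only [bne_iff_ne, ne_eq, Bool.and_eq_true] at h3
    rw [disj_dec (h e he), subset_dec (h e he)]
    exact h3

def sumW : List ℕ → List ℕ → ℕ
  | [], acc => cntN 40 (freeL acc)
  | e :: l, acc => sumW l acc +
      (if acc.all (fun b => (e &&& b) != 0) then sumW l (e :: acc) else 0)

lemma sumW_eq : ∀ (l acc : List ℕ), (∀ b ∈ l, b < 128 ∧ (dec b).card = 2) →
    (∀ b ∈ acc, b < 128 ∧ (dec b).card = 2) → (l ++ acc).Nodup → Pw (decL acc) →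
    ∑ P ∈ (decL l).powerset, (Wf (P ∪ decL acc)).card = sumW l acc := by
  intro l
  induction l with
  | nil =>
    intro acc _ hacc hn hP
    have h0 : decL [] = ∅ := rfl
    rw [h0, powerset_empty, sum_singleton, empty_union, card_Wf, Free_decL, sumW, cntN_eq 40]
    · refine (List.length_filter_le _ _).trans ?_
      decide
    · intro b hb
      exact codes3_lt b (List.mem_of_mem_filter hb)
    · exact codes3_nodup.filter _
    · exact fun b hb => (hacc b hb).1
    · intro X hX
      obtain ⟨b, hb, rfl⟩ := (mem_decL _ _).1 hX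
      exact (hacc b hb).2
    · exact hP
  | cons e l ih =>
    intro acc hl hacc hn hP
    rw [List.cons_append, List.nodup_cons] at hn
    have hl' : ∀ b ∈ l, b < 128 ∧ (dec b).card = 2 := fun b hb => hl b (List.mem_cons_of_mem _ hb)
    have he := hl e List.mem_cons_self
    have hel : e ∉ l := fun h => hn.1 (List.mem_append_left _ h)
    have hea : e ∉ acc := fun h => hn.1 (List.mem_append_right _ h)
    have hel' : dec e ∉ decL l := dec_notMem he.1 (fun b hb => (hl' b hb).1) hel
    have hea' : dec e ∉ decL acc := dec_notMem he.1 (fun b hb => (hacc b hb).1) hea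
    rw [decL_cons, sum_powerset_insert hel', ih acc hl' hacc hn.2 hP, sumW]
    congr 1
    have h1 : ∀ P : Finset U, insert (dec e) P ∪ decL acc = P ∪ decL (e :: acc) := by
      intro P
      rw [decL_cons, insert_union, union_insert]
    simp_rw [h1]
    split_ifs with hc
    · rw [ih (e :: acc) hl']
      · intro b hb
        rw [List.mem_cons] at hb
        rcases hb with rfl | hb
        · exact he
        · exact hacc b hb
      · rw [List.nodup_middle, List.nodup_cons]
        exact hn
      · rw [decL_cons, pw_insert hea']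
        refine ⟨hP, fun Y hY => ?_⟩
        obtain ⟨b, hb, rfl⟩ := (mem_decL _ _).1 hY
        rw [disj_dec he.1]
        have := List.all_eq_true.1 hc b hb
        simpa using this
    · apply sum_eq_zero
      intro P _
      rw [card_eq_zero]
      apply Wf_empty
      intro hPw
      apply hc
      rw [List.all_eq_true]
      intro b hb
      have h2 : ¬ Disjoint (dec e) (dec b) := by
        apply hPw
        · rw [mem_union, decL_cons]; right; exact mem_insert_self _ _
        · rw [mem_union, decL_cons]; right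
          exact mem_insert_of_mem ((mem_decL _ _).2 ⟨b, hb, rfl⟩)
        · intro h
          rw [dec_inj he.1 (hacc b hb).1 h] at hea
          exact hea hb
      rw [disj_dec he.1] at h2
      simpa using h2

/-- sum over all subfamilies -/
noncomputable def tot (l : List ℕ) : ℕ := ∑ P ∈ (decL l).powerset, (Wf P).card

lemma tot_cons (e : ℕ) (l : List ℕ) (hl : ∀ b ∈ e :: l, b < 128 ∧ (dec b).card = 2)
    (hn : (e :: l).Nodup) : tot (e :: l) = tot l + sumW l [e] := by
  rw [List.nodup_cons] at hn
  have hl' : ∀ b ∈ l, b < 128 ∧ (dec b).card = 2 := fun b hb => hl b (List.mem_cons_of_mem _ hb)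
  have he := hl e List.mem_cons_self
  rw [tot, decL_cons, sum_powerset_insert (dec_notMem he.1 (fun b hb => (hl' b hb).1) hn.1), tot]
  congr 1
  rw [← sumW_eq l [e] hl']
  · apply sum_congr rfl
    intro P _
    congr 2
    rw [decL_cons]
    ext X
    simp [decL, or_comm]
  · intro b hb
    rw [List.mem_singleton] at hb
    subst hb
    exact he
  · rw [List.nodup_append]
    refine ⟨hn.2, List.nodup_singleton _, ?_⟩
    intro a ha b hb
    rw [List.mem_singleton] at hb
    subst hb
    rintro rfl
    exact hn.1 ha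
  · intro X hX Y hY hXY
    simp only [decL, List.map_cons, List.map_nil, List.mem_toFinset, List.mem_singleton] at hX hY
    exact absurd (hX.trans hY.symm) hXY

def CC : List ℕ := [3, 5, 9, 17, 6, 10, 18]

set_option maxRecDepth 100000 in
lemma numeric : sumW CC [24] + sumW (24 :: CC) [20] + sumW (20 :: 24 :: CC) [12] <
    sumW CC [34] + sumW (34 :: CC) [65] + sumW (65 :: 34 :: CC) [33] := by
  decide +kernel

lemma tot_lt : tot (12 :: 20 :: 24 :: CC) < tot (33 :: 65 :: 34 :: CC) := by
  rw [tot_cons, tot_cons, tot_cons, tot_cons, tot_cons 65, tot_cons 34]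
  · have := numeric
    omega
  all_goals decide +kernel

end Pool.Agent.H122R3.Sim
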