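import Mathlib
import Pool.Agent.H122R3.SimF

set_option autoImplicit false

open Finset

namespace Pool.Agent.H122R3.Sim

/-- the family map induced by a permutation of the ground set -/
def ph (σ : Equiv.Perm (Fin 7)) : U ↪ U := (Finset.mapEmbedding σ.toEmbedding).toEmbedding

lemma ph_apply (σ : Equiv.Perm (Fin 7)) (X : U) : ph σ X = X.map σ.toEmbedding := rfl

lemma pw_map (σ : Equiv.Perm (Fin 7)) (F : Finset U) : Pw (F.map (ph σ)) ↔ Pw F := by
  constructor
  · intro h X hX Y hY hXY hd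
    refine h (ph σ X) (mem_map_of_mem _ hX) (ph σ Y) (mem_map_of_mem _ hY)
      (fun he => hXY ((ph σ).injective he)) ?_
    rw [ph_apply, ph_apply]
    exact (disjoint_map σ.toEmbedding).2 hd
  · intro h X hX Y hY hXY hd
    obtain ⟨X', hX', rfl⟩ := mem_map.1 hX
    obtain ⟨Y', hY', rfl⟩ := mem_map.1 hY
    refine h X' hX' Y' hY' (fun he => hXY (by rw [he])) ?_
    rw [ph_apply, ph_apply] at hd
    exact (disjoint_map σ.toEmbedding).1 hd

lemma i2_map (σ : Equiv.Perm (Fin 7)) (s : ℕ) (A : Finset U) : i2 s (A.map (ph σ)) = i2 s A := by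
  unfold i2
  rw [powersetCard_map, filter_map, card_map]
  congr 1
  ext F
  rw [mem_filter, mem_filter]
  apply and_congr_right
  intro _
  exact pw_map σ F

lemma L_map (σ : Equiv.Perm (Fin 7)) : L.map (ph σ) = L := by
  ext X
  rw [mem_map, L, mem_filter]
  constructor
  · rintro ⟨Y, hY, rfl⟩
    rw [mem_filter] at hY
    rw [ph_apply, card_map]
    exact ⟨mem_univ _, hY.2⟩
  · rintro ⟨_, hX⟩
    refine ⟨X.map σ.symm.toEmbedding, ?_, ?_⟩
    · rw [mem_filter, card_map]
      exact ⟨mem_univ _, hX⟩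
    · rw [ph_apply, map_map]
      ext x
      simp

lemma pairs_map (σ : Equiv.Perm (Fin 7)) (W : U) :
    (powersetCard 2 W).map (ph σ) = powersetCard 2 (W.map σ.toEmbedding) := by
  rw [powersetCard_map]
  rfl

lemma exists_perm (W V : U) (h : W.card = V.card) :
    ∃ σ : Equiv.Perm (Fin 7), W.map σ.toEmbedding = V := by
  have e : {x // x ∈ W} ≃ {x // x ∈ V} := Finset.equivOfCardEq h
  refine ⟨e.extendSubtype, ?_⟩
  apply eq_of_subset_of_card_le
  · intro y hy
    obtain ⟨x, hx, rfl⟩ := mem_map.1 hy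
    exact e.extendSubtype_mem x hx
  · rw [card_map, h]

def W0 : U := {0, 1, 2, 3, 4}

lemma K_eq : decL (12 :: 20 :: 24 :: CC) = powersetCard 2 W0 := by decide +kernel

lemma i64_K : i2 64 (L ∪ powersetCard 2 W0) = tot (12 :: 20 :: 24 :: CC) := by
  rw [i64_eq _ (fun X hX => (mem_powersetCard.1 hX).2), tot, K_eq]

lemma Q_card2 : ∀ X ∈ decL (33 :: 65 :: 34 :: CC), X.card = 2 := by decide +kernel

lemma Q_card : (decL (33 :: 65 :: 34 :: CC)).card = 10 := by decide +kernel

lemma i64_Q : i2 64 (L ∪ decL (33 :: 65 :: 34 :: CC)) = tot (33 :: 65 :: 34 :: CC) := by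
  rw [i64_eq _ Q_card2, tot]

lemma dd_K : dd (powersetCard 2 W0) ≤ 30 := by decide +kernel

theorem no_simultaneous (A : Finset U) (hc : A.card = 109)
    (h : ∀ s : ℕ, ∀ B : Finset U, B.card = 109 → i2 s B ≤ i2 s A) : False := by
  have hopt : Opt A := opt_of_i2 A (fun B hB => h 2 B (by rw [hB, hc]))
  have hp : ∀ X ∈ pr A, X.card = 2 := fun X hX => (mem_filter.1 hX).2
  have hW0 : (powersetCard 2 W0).card = 10 := by decide
  have hdd : dd (pr A) ≤ 30 :=
    (dd_pr_le A hopt hc (powersetCard 2 W0) (fun X hX => (mem_powersetCard.1 hX).2) hW0).trans dd_K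
  obtain ⟨W, hW5, hW⟩ := classify (pr A) hp (card_pr A hopt hc) hdd
  obtain ⟨σ, hσ⟩ := exists_perm W W0 (by rw [hW5]; rfl)
  have h1 : i2 64 A = tot (12 :: 20 :: 24 :: CC) := by
    rw [← i64_K, ← i2_map σ, eq_union A hopt hc, hW, map_union, L_map, pairs_map, hσ]
  have h2 := h 64 (L ∪ decL (33 :: 65 :: 34 :: CC)) (by rw [card_union_L _ Q_card2, Q_card])
  rw [i64_Q, h1] at h2
  have := tot_lt
  omega

end Pool.Agent.H122R3.Sim
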