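import Mathlib

namespace Pool.Agent.H122R3.TW

open Finset

/-- 3-wise `s`-intersecting. -/
def ThreeWise (s : ℕ) (F : Finset (Finset ℕ)) : Prop :=
  ∀ A ∈ F, ∀ B ∈ F, ∀ C ∈ F, s ≤ (A ∩ B ∩ C).card

/-- `t`-intersecting. -/
def PairWise (t : ℕ) (F : Finset (Finset ℕ)) : Prop :=
  ∀ A ∈ F, ∀ B ∈ F, t ≤ (A ∩ B).card

/-- shifted on `[0,l)`. -/
def Shifted (l : ℕ) (F : Finset (Finset ℕ)) : Prop :=
  ∀ A ∈ F, ∀ i j, i < j → j < l → j ∈ A → i ∉ A → insert i (A.erase j) ∈ F

/-- up-closed inside the subsets of `[0,l)`. -/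
def UpSet (l : ℕ) (F : Finset (Finset ℕ)) : Prop :=
  ∀ A ∈ F, ∀ B, A ⊆ B → B ⊆ range l → B ∈ F

lemma cnt_succ (A : Finset ℕ) (j : ℕ) :
    (A ∩ range (j + 1)).card = (A ∩ range j).card + if j ∈ A then 1 else 0 := by
  rw [Finset.range_add_one]
  split_ifs with h
  · rw [Finset.inter_insert_of_mem h, Finset.card_insert_of_notMem (by simp)]
  · rw [Finset.inter_insert_of_notMem h]; simp

lemma sum_le (A B C : Finset ℕ) (j : ℕ) :
    (A ∩ range j).card + (B ∩ range j).card + (C ∩ range j).card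
      ≤ 2 * j + (A ∩ B ∩ C ∩ range j).card := by
  induction j with
  | zero => simp
  | succ j ih =>
    rw [cnt_succ, cnt_succ, cnt_succ, cnt_succ]
    simp only [Finset.mem_inter]
    by_cases h1 : j ∈ A <;> by_cases h2 : j ∈ B <;> by_cases h3 : j ∈ C <;>
      simp only [h1, h2, h3, and_self, and_true, and_false, if_true, if_false] <;> omega

lemma sum_ge (A B C : Finset ℕ) (j : ℕ)
    (h : ∀ i < j, (i ∈ A ∧ i ∈ B) ∨ (i ∈ A ∧ i ∈ C) ∨ (i ∈ B ∧ i ∈ C)) :
    2 * j + (A ∩ B ∩ C ∩ range j).card ≤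
    (A ∩ range j).card + (B ∩ range j).card + (C ∩ range j).card := by
  induction j with
  | zero => simp
  | succ j ih =>
    have ih' := ih (fun i hi => h i (by omega))
    have hj := h j (by omega)
    rw [cnt_succ, cnt_succ, cnt_succ, cnt_succ]
    simp only [Finset.mem_inter]
    by_cases h1 : j ∈ A <;> by_cases h2 : j ∈ B <;> by_cases h3 : j ∈ C <;>
      simp only [h1, h2, h3, and_self, and_true, and_false, true_and, or_false, or_self,
        if_true, if_false] at hj ⊢ <;> omega

lemma sum_shift_lt (A : Finset ℕ) (i j : ℕ) (hij : i < j) (hj : j ∈ A) (hi : i ∉ A) :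
    (insert i (A.erase j)).sum id < A.sum id := by
  rw [Finset.sum_insert (by simp [hi])]
  have := Finset.add_sum_erase A id hj
  simp only [id] at this ⊢
  omega

/-- step in the walk lemma -/
lemma frankl_step (N s : ℕ) (F : Finset (Finset ℕ)) (hF : ∀ A ∈ F, A ⊆ range N)
    (hsh : Shifted N F) (A B C : Finset ℕ) (hA : A ∈ F) 
    (i j : ℕ) (hij : i < j) (hjA : j ∈ A) (hiA : i ∉ A)
    (hiBC : i ∉ B ∨ i ∉ C) (hD : (A ∩ B ∩ C ∩ range j).card < s)
    (IH : ∀ A' ∈ F, A'.sum id < A.sum id → 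
      ∃ j ≤ N, 2 * j + s ≤ (A' ∩ range j).card + (B ∩ range j).card + (C ∩ range j).card) :
    ∃ j ≤ N, 2 * j + s ≤ (A ∩ range j).card + (B ∩ range j).card + (C ∩ range j).card := by
  have hjN : j < N := by simpa using hF A hA hjA
  obtain ⟨k, hk, hk2⟩ := IH _ (hsh A hA i j hij hjN hjA hiA) (sum_shift_lt A i j hij hjA hiA)
  by_cases h1 : k ≤ i
  · refine ⟨k, hk, ?_⟩
    have : (insert i (A.erase j) ∩ range k).card ≤ (A ∩ range k).card := by
      apply Finset.card_le_card
      intro x hx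
      simp only [Finset.mem_inter, Finset.mem_insert, Finset.mem_erase, Finset.mem_range] at hx ⊢
      rcases hx with ⟨h | h, h2⟩
      · omega
      · exact ⟨h.2, h2⟩
    omega
  · by_cases h2 : k ≤ j
    · exfalso
      have h3 := sum_le (insert i (A.erase j)) B C k
      have : (insert i (A.erase j) ∩ B ∩ C ∩ range k).card ≤ (A ∩ B ∩ C ∩ range j).card := by
        apply Finset.card_le_card
        intro x hx
        simp only [Finset.mem_inter, Finset.mem_insert, Finset.mem_erase, Finset.mem_range] at hx ⊢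
        obtain ⟨⟨⟨h, hb⟩, hc⟩, h2⟩ := hx
        rcases h with h | h
        · subst h; tauto
        · exact ⟨⟨⟨h.2, hb⟩, hc⟩, by omega⟩
      omega
    · refine ⟨k, hk, ?_⟩
      have : (insert i (A.erase j) ∩ range k).card ≤ (A ∩ range k).card := by
        have h4 : insert i (A.erase j) ∩ range k ⊆ insert i ((A ∩ range k).erase j) := by
          intro x hx
          simp only [Finset.mem_inter, Finset.mem_insert, Finset.mem_erase, Finset.mem_range] at hx ⊢
          tauto
        have h5 := Finset.card_le_card h4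
        have h6 := Finset.card_insert_le i ((A ∩ range k).erase j)
        have h7 : j ∈ A ∩ range k := by simp [hjA]; omega
        have h8 := Finset.card_erase_of_mem h7
        have h9 : 0 < (A ∩ range k).card := Finset.card_pos.mpr ⟨j, h7⟩
        omega
      omega

/-- Frankl's walk lemma for shifted 3-wise `s`-intersecting families. -/
lemma frankl (N s : ℕ) (hs : 1 ≤ s) (F : Finset (Finset ℕ)) (hF : ∀ A ∈ F, A ⊆ range N)
    (hsh : Shifted N F) (hT : ThreeWise s F) :
    ∀ w : ℕ, ∀ A ∈ F, ∀ B ∈ F, ∀ C ∈ F, A.sum id + B.sum id + C.sum id = w →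
      ∃ j ≤ N, 2 * j + s ≤ (A ∩ range j).card + (B ∩ range j).card + (C ∩ range j).card := by
  intro w
  induction w using Nat.strong_induction_on with
  | _ w ih =>
  intro A hA B hB C hC hw
  have hex : ∃ k, s ≤ (A ∩ B ∩ C ∩ range k).card := by
    refine ⟨N, ?_⟩
    have : A ∩ B ∩ C ∩ range N = A ∩ B ∩ C := by
      apply Finset.inter_eq_left.mpr
      intro x hx
      simp only [Finset.mem_inter] at hx
      exact hF A hA hx.1.1
    rw [this]
    exact hT A hA B hB C hC
  classical
  obtain ⟨k, hk, hmin⟩ : ∃ k, s ≤ (A ∩ B ∩ C ∩ range k).card ∧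
      ∀ m < k, ¬ (s ≤ (A ∩ B ∩ C ∩ range m).card) :=
    ⟨Nat.find hex, Nat.find_spec hex, fun m hm => Nat.find_min hex hm⟩
  have hkN : k ≤ N := by
    by_contra hcon
    push Not at hcon
    apply hmin N hcon
    have : A ∩ B ∩ C ∩ range N = A ∩ B ∩ C := by
      apply Finset.inter_eq_left.mpr
      intro x hx
      simp only [Finset.mem_inter] at hx
      exact hF A hA hx.1.1
    rw [this]
    exact hT A hA B hB C hC
  obtain ⟨j, rfl⟩ : ∃ j, k = j + 1 := by
    cases k with
    | zero => simp at hk; omega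
    | succ j => exact ⟨j, rfl⟩
  have hj1 := hmin j (by omega)
  have hjD : j ∈ A ∩ B ∩ C := by
    by_contra hcon
    rw [cnt_succ, if_neg hcon] at hk
    omega
  push Not at hj1
  by_cases hall : ∀ i < j + 1, (i ∈ A ∧ i ∈ B) ∨ (i ∈ A ∧ i ∈ C) ∨ (i ∈ B ∧ i ∈ C)
  · exact ⟨j + 1, hkN, by have := sum_ge A B C (j + 1) hall; omega⟩
  · push Not at hall
    obtain ⟨i, hi, h1, h2, h3⟩ := hall
    simp only [Finset.mem_inter] at hjD
    have hij : i < j := by
      rcases Nat.lt_succ_iff_lt_or_eq.mp hi with h | h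
      · exact h
      · subst h; exact absurd hjD.1.2 (h1 hjD.1.1)
    by_cases hiA : i ∈ A
    · -- then i ∉ B and i ∉ C
      have hiB := h1 hiA
      have hiC := h2 hiA
      have e1 : B ∩ A ∩ C ∩ range j = A ∩ B ∩ C ∩ range j := by
        rw [Finset.inter_comm B A]
      obtain ⟨k, hk, hk2⟩ := frankl_step N s F hF hsh B A C hB i j hij hjD.1.2 hiB (Or.inr hiC)
        (by rw [e1]; exact hj1)
        (by
          intro B' hB' hlt
          obtain ⟨k, hk, hk2⟩ := ih (A.sum id + B'.sum id + C.sum id) (by omega) A hA B' hB' C hC rfl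
          exact ⟨k, hk, by omega⟩)
      exact ⟨k, hk, by omega⟩
    · by_cases hiB : i ∈ B
      · have hiC := h3 hiB
        exact frankl_step N s F hF hsh A B C hA i j hij hjD.1.1 hiA (Or.inr hiC) hj1
          (by
            intro A' hA' hlt
            exact ih (A'.sum id + B.sum id + C.sum id) (by omega) A' hA' B hB C hC rfl)
      · exact frankl_step N s F hF hsh A B C hA i j hij hjD.1.1 hiA (Or.inl hiB) hj1
          (by
            intro A' hA' hlt
            exact ih (A'.sum id + B.sum id + C.sum id) (by omega) A' hA' B hB C hC rfl)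

end Pool.Agent.H122R3.TW
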