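import Pool.Agent.H122R3.TwA

namespace Pool.Agent.H122R3.TW

open Finset

/-- members of `F` with trace `B` on `[0,a)` -/
def fib (F : Finset (Finset ℕ)) (a : ℕ) (B : Finset ℕ) : Finset (Finset ℕ) :=
  F.filter (fun X => X ∩ range a = B)

lemma mem_fib {F : Finset (Finset ℕ)} {a : ℕ} {B X : Finset ℕ} :
    X ∈ fib F a B ↔ X ∈ F ∧ X ∩ range a = B := by
  simp [fib]

lemma fib_Om_eq (N a : ℕ) (haN : a ≤ N) (B : Finset ℕ) (hB : B ⊆ range a) :
    fib (range N).powerset a B = (Ico a N).powerset.image (fun X => B ∪ X) := by
  ext X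
  simp only [mem_fib, Finset.mem_powerset, Finset.mem_image]
  constructor
  · rintro ⟨hX, hXB⟩
    refine ⟨X ∩ Ico a N, Finset.inter_subset_right, ?_⟩
    ext x
    have h1 := Finset.ext_iff.mp hXB x
    have h2 : x ∈ X → x ∈ range N := fun h => hX h
    simp only [Finset.mem_inter, Finset.mem_union, Finset.mem_range, Finset.mem_Ico] at h1 h2 ⊢
    constructor
    · rintro (h | h)
      · exact (h1.mpr h).1
      · exact h.1
    · intro h
      by_cases hx : x < a
      · exact Or.inl (h1.mp ⟨h, hx⟩)
      · exact Or.inr ⟨h, by omega, h2 h⟩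
  · rintro ⟨Y, hY, rfl⟩
    constructor
    · intro x hx
      rcases Finset.mem_union.mp hx with h | h
      · have := Finset.mem_range.mp (hB h); exact Finset.mem_range.mpr (by omega)
      · exact Finset.mem_range.mpr (Finset.mem_Ico.mp (hY h)).2
    · ext x
      simp only [Finset.mem_inter, Finset.mem_union, Finset.mem_range]
      constructor
      · rintro ⟨h | h, hx⟩
        · exact h
        · have := (Finset.mem_Ico.mp (hY h)).1; omega
      · intro h
        exact ⟨Or.inl h, Finset.mem_range.mp (hB h)⟩

lemma card_fib_Om (N a : ℕ) (haN : a ≤ N) (B : Finset ℕ) (hB : B ⊆ range a) :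
    (fib (range N).powerset a B).card = 2 ^ (N - a) := by
  rw [fib_Om_eq N a haN B hB, Finset.card_image_of_injOn, Finset.card_powerset, Nat.card_Ico]
  intro X hX Y hY h
  simp only [Finset.coe_powerset, Set.mem_preimage, Set.mem_powerset_iff, Finset.coe_subset] at hX hY
  ext x
  have h1 := Finset.ext_iff.mp h x
  simp only [Finset.mem_union] at h1
  constructor
  · intro hx
    rcases h1.mp (Or.inr hx) with h2 | h2
    · have h3 := Finset.mem_range.mp (hB h2)
      have h4 := (Finset.mem_Ico.mp (hX hx)).1
      omega
    · exact h2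
  · intro hx
    rcases h1.mpr (Or.inr hx) with h2 | h2
    · have h3 := Finset.mem_range.mp (hB h2)
      have h4 := (Finset.mem_Ico.mp (hY hx)).1
      omega
    · exact h2

lemma card_fib_le (N a : ℕ) (haN : a ≤ N) (F : Finset (Finset ℕ))
    (hF : F ⊆ (range N).powerset) (B : Finset ℕ) (hB : B ⊆ range a) :
    (fib F a B).card ≤ 2 ^ (N - a) := by
  rw [← card_fib_Om N a haN B hB]
  apply Finset.card_le_card
  exact Finset.filter_subset_filter _ hF

/-- two heavy fibres contain members which are disjoint beyond the window -/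
lemma exists_disj (N a : ℕ) (haN : a ≤ N) (B C : Finset ℕ)
    (hC : C ⊆ range a) (G H : Finset (Finset ℕ))
    (hG : G ⊆ fib (range N).powerset a B) (hH : H ⊆ fib (range N).powerset a C)
    (hcard : 2 ^ (N - a) < G.card + H.card) :
    ∃ Y ∈ G, ∃ Z ∈ H, Y ∩ Z ⊆ range a := by
  by_contra hcon
  push Not at hcon
  have himg : G.image (fun Y => C ∪ (Ico a N \ Y)) ⊆ fib (range N).powerset a C := by
    rw [fib_Om_eq N a haN C hC]
    intro X hX
    obtain ⟨Y, _, rfl⟩ := Finset.mem_image.mp hX
    exact Finset.mem_image.mpr ⟨Ico a N \ Y, by simp, rfl⟩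
  have hinj : (G.image (fun Y => C ∪ (Ico a N \ Y))).card = G.card := by
    apply Finset.card_image_of_injOn
    intro Y hY Y' hY' h
    have hY1 := mem_fib.mp (hG hY)
    have hY2 := mem_fib.mp (hG hY')
    ext x
    have e1 := Finset.ext_iff.mp hY1.2 x
    have e2 := Finset.ext_iff.mp hY2.2 x
    have e3 := Finset.ext_iff.mp h x
    have e4 : x ∈ Y → x < N := fun h => Finset.mem_range.mp (Finset.mem_powerset.mp hY1.1 h)
    have e5 : x ∈ Y' → x < N := fun h => Finset.mem_range.mp (Finset.mem_powerset.mp hY2.1 h)
    have e6 : x ∈ C → x < a := fun h => Finset.mem_range.mp (hC h)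
    simp only [Finset.mem_inter, Finset.mem_range, Finset.mem_union, Finset.mem_sdiff,
      Finset.mem_Ico] at e1 e2 e3
    by_cases hx : x < a
    · exact ⟨fun h => (e2.mpr (e1.mp ⟨h, hx⟩)).1, fun h => (e1.mpr (e2.mp ⟨h, hx⟩)).1⟩
    · by_cases hx2 : x < N
      · have hx3 : a ≤ x := by omega
        have hxC : x ∉ C := fun h => hx (e6 h)
        simp only [hxC, hx3, hx2, and_self, true_and, false_or] at e3
        exact not_iff_not.mp e3
      · exact ⟨fun h => absurd (e4 h) hx2, fun h => absurd (e5 h) hx2⟩
  have hdisj : Disjoint (G.image (fun Y => C ∪ (Ico a N \ Y))) H := by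
    rw [Finset.disjoint_left]
    intro X hX hXH
    obtain ⟨Y, hY, rfl⟩ := Finset.mem_image.mp hX
    apply hcon Y hY _ hXH
    intro x hx
    simp only [Finset.mem_inter, Finset.mem_union, Finset.mem_sdiff] at hx
    rcases hx.2 with h | h
    · exact hC h
    · exact absurd hx.1 h.2
  have := Finset.card_union_of_disjoint hdisj
  have h2 := Finset.card_le_card (Finset.union_subset himg hH)
  rw [card_fib_Om N a haN C hC] at h2
  omega

/-- pairs in a 2-intersecting family on a window -/
lemma two_int_bound (a b : ℕ) (hab : a ≤ b) (H : Finset (Finset ℕ))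
    (hH : ∀ E ∈ H, E ⊆ Ico a b) (h2 : ∀ E ∈ H, ∀ E' ∈ H, 2 ≤ (E ∩ E').card) :
    (2 * (b - a) + 1) * H.card ≤ (b - a) * 2 ^ (b - a) := by
  classical
  set H' := H.image (fun E => Ico a b \ E) with hH'
  set R := (Ico a b).powerset \ (H ∪ H') with hR
  have hcH' : H'.card = H.card := by
    apply Finset.card_image_of_injOn
    intro E hE E' hE' h
    have h1 := hH E hE
    have h3 := hH E' hE'
    have : Ico a b \ (Ico a b \ E) = Ico a b \ (Ico a b \ E') := by
      simp only at h; rw [h]
    rwa [Finset.sdiff_sdiff_eq_self h1, Finset.sdiff_sdiff_eq_self h3] at this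
  have hdis : Disjoint H H' := by
    rw [Finset.disjoint_left]
    intro X hX hX'
    obtain ⟨E, hE, rfl⟩ := Finset.mem_image.mp hX'
    have := h2 E hE _ hX
    have h3 : E ∩ (Ico a b \ E) = ∅ := by
      ext x; simp
    rw [h3] at this
    simp at this
  have hsub : H ∪ H' ⊆ (Ico a b).powerset := by
    apply Finset.union_subset
    · intro E hE; exact Finset.mem_powerset.mpr (hH E hE)
    · intro X hX
      obtain ⟨E, _, rfl⟩ := Finset.mem_image.mp hX
      simp
  have hcR : R.card + 2 * H.card = 2 ^ (b - a) := by
    have h3 := Finset.card_sdiff_add_card_eq_card hsub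
    rw [← hR, Finset.card_union_of_disjoint hdis, hcH', Finset.card_powerset, Nat.card_Ico] at h3
    omega
  have hcover : H ⊆ (Ioc a b).biUnion (fun k => R.image (fun X => symmDiff X (Ico a k))) := by
    intro E hE
    have hex : ∃ k, a ≤ k ∧ k ≤ b ∧ symmDiff E (Ico a k) ∉ H := by
      refine ⟨b, hab, le_rfl, ?_⟩
      have h3 : symmDiff E (Ico a b) = Ico a b \ E := by
        ext x
        have := hH E hE
        simp only [Finset.mem_symmDiff, Finset.mem_sdiff]
        constructor
        · rintro (⟨h, h'⟩ | h)
          · exact absurd (this h) h'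
          · exact h
        · exact Or.inr
      rw [h3]
      have : Ico a b \ E ∈ H' := Finset.mem_image.mpr ⟨E, hE, rfl⟩
      exact Finset.disjoint_right.mp hdis this
    obtain ⟨k, ⟨hak, hkb, hk⟩, hmin⟩ : ∃ k, (a ≤ k ∧ k ≤ b ∧ symmDiff E (Ico a k) ∉ H) ∧
        ∀ m < k, ¬ (a ≤ m ∧ m ≤ b ∧ symmDiff E (Ico a m) ∉ H) :=
      ⟨Nat.find hex, Nat.find_spec hex, fun m hm => Nat.find_min hex hm⟩
    have hka : a < k := by
      rcases Nat.lt_or_ge a k with h | h
      · exact h
      · exfalso
        have : k = a := by omega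
        subst this
        apply hk
        rw [Finset.Ico_self, ← Finset.bot_eq_empty, symmDiff_bot]
        exact hE
    obtain ⟨k', rfl⟩ : ∃ k', k = k' + 1 := ⟨k - 1, by omega⟩
    have hE1 : symmDiff E (Ico a k') ∈ H := by
      have := hmin k' (by omega)
      push Not at this
      exact this (by omega) (by omega)
    rw [Finset.mem_biUnion]
    refine ⟨k' + 1, Finset.mem_Ioc.mpr ⟨hka, hkb⟩, Finset.mem_image.mpr
      ⟨symmDiff E (Ico a (k' + 1)), ?_, by rw [symmDiff_symmDiff_cancel_right]⟩⟩
    rw [hR, Finset.mem_sdiff, Finset.mem_union, not_or]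
    refine ⟨?_, hk, ?_⟩
    · rw [Finset.mem_powerset]
      intro x hx
      rw [Finset.mem_symmDiff] at hx
      rcases hx with h | h
      · exact hH E hE h.1
      · have := Finset.mem_Ico.mp h.1
        exact Finset.mem_Ico.mpr ⟨this.1, by omega⟩
    · intro hcon
      obtain ⟨E2, hE2, h3⟩ := Finset.mem_image.mp hcon
      have h4 := h2 E2 hE2 _ hE1
      have h5 : E2 ∩ symmDiff E (Ico a k') ⊆ {k'} := by
        intro x hx
        rw [Finset.mem_inter] at hx
        rw [Finset.mem_singleton]
        by_contra hne
        have h6 : x ∈ symmDiff E (Ico a (k' + 1)) := by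
          have := hx.2
          rw [Finset.mem_symmDiff, Finset.mem_Ico] at this ⊢
          rcases this with h | h
          · left; exact ⟨h.1, fun h' => h.2 ⟨h'.1, by omega⟩⟩
          · right; exact ⟨⟨h.1.1, by omega⟩, h.2⟩
        rw [← h3, Finset.mem_sdiff] at h6
        exact h6.2 hx.1
      have h6 := Finset.card_le_card h5
      simp at h6
      omega
  have hcard : H.card ≤ (b - a) * R.card := by
    calc H.card ≤ _ := Finset.card_le_card hcover
      _ ≤ ∑ k ∈ Ioc a b, (R.image (fun X => symmDiff X (Ico a k))).card := Finset.card_biUnion_le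
      _ ≤ ∑ k ∈ Ioc a b, R.card := Finset.sum_le_sum (fun k _ => Finset.card_image_le)
      _ = (b - a) * R.card := by simp
  have : (b - a) * (R.card + 2 * H.card) = (b - a) * 2 ^ (b - a) := by rw [hcR]
  nlinarith

/-- the walk of `X` from `a` on exceeds the line of slope 3/5 by `K` -/
def Tail (N a : ℕ) (K : ℤ) (X : Finset ℕ) : Prop :=
  ∃ j, a ≤ j ∧ j ≤ N ∧ 3 * ((j : ℤ) - a) + K ≤ 5 * ((X ∩ Ico a j).card : ℤ)

open Classical in
lemma tail_bound (N : ℕ) : ∀ m a : ℕ, ∀ B : Finset ℕ, ∀ K : ℤ, a + m = N → B ⊆ range a →
    (((fib (range N).powerset a B).filter (fun X => Tail N a K X)).card : ℝ)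
      ≤ (9 / 10 : ℝ) ^ K * 2 ^ m := by
  intro m
  induction m with
  | zero =>
    intro a B K haN hB
    have haN' : a = N := by omega
    subst haN'
    by_cases hK : K ≤ 0
    · have h1 : (((fib (range a).powerset a B).filter (fun X => Tail a a K X)).card : ℝ) ≤ 1 := by
        have h2 := Finset.card_filter_le (fib (range a).powerset a B) (fun X => Tail a a K X)
        rw [card_fib_Om a a le_rfl B hB] at h2
        simp at h2
        exact_mod_cast h2
      have h3 : (1 : ℝ) ≤ (9 / 10 : ℝ) ^ K := one_le_zpow_of_nonpos₀ (by norm_num) (by norm_num) hK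
      simpa using le_trans h1 h3
    · have : (fib (range a).powerset a B).filter (fun X => Tail a a K X) = ∅ := by
        rw [Finset.filter_eq_empty_iff]
        rintro X _ ⟨j, hj1, hj2, hj3⟩
        have : j = a := by omega
        subst this
        simp at hj3
        exact hK hj3
      rw [this]
      simp
      positivity
  | succ m ih =>
    intro a B K haN hB
    by_cases hK : K ≤ 0
    · have h1 : (((fib (range N).powerset a B).filter (fun X => Tail N a K X)).card : ℝ)
          ≤ 2 ^ (m + 1) := by
        have h2 := Finset.card_filter_le (fib (range N).powerset a B) (fun X => Tail N a K X)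
        rw [card_fib_Om N a (by omega) B hB] at h2
        have : N - a = m + 1 := by omega
        rw [this] at h2
        exact_mod_cast h2
      have h3 : (1 : ℝ) ≤ (9 / 10 : ℝ) ^ K := one_le_zpow_of_nonpos₀ (by norm_num) (by norm_num) hK
      have h4 : (0 : ℝ) ≤ 2 ^ (m + 1) := by positivity
      nlinarith
    · push Not at hK
      have hBa : insert a B ⊆ range (a + 1) := by
        intro x hx
        rcases Finset.mem_insert.mp hx with h | h
        · subst h; simp
        · have := Finset.mem_range.mp (hB h); exact Finset.mem_range.mpr (by omega)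
      have hBb : B ⊆ range (a + 1) := fun x hx => hBa (Finset.mem_insert_of_mem hx)
      have ha' : a ∉ B := fun h => by have := Finset.mem_range.mp (hB h); omega
      have hsub : (fib (range N).powerset a B).filter (fun X => Tail N a K X) ⊆
          ((fib (range N).powerset (a + 1) B).filter (fun X => Tail N (a + 1) (K + 3) X)) ∪
          ((fib (range N).powerset (a + 1) (insert a B)).filter
            (fun X => Tail N (a + 1) (K - 2) X)) := by
        intro X hX
        rw [Finset.mem_filter, mem_fib] at hX
        obtain ⟨⟨hXN, hXB⟩, j, hj1, hj2, hj3⟩ := hX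
        have hja : a < j := by
          rcases Nat.lt_or_ge a j with h | h
          · exact h
          · exfalso
            have : j = a := by omega
            subst this
            simp at hj3
            omega
        have hIco : Ico a j = insert a (Ico (a + 1) j) := by
          ext x; simp only [Finset.mem_Ico, Finset.mem_insert]; omega
        by_cases haX : a ∈ X
        · apply Finset.mem_union_right
          rw [Finset.mem_filter, mem_fib]
          refine ⟨⟨hXN, ?_⟩, j, by omega, hj2, ?_⟩
          · rw [Finset.range_add_one, Finset.inter_insert_of_mem haX, hXB]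
          · rw [hIco, Finset.inter_insert_of_mem haX, Finset.card_insert_of_notMem (by simp)] at hj3
            push_cast at hj3 ⊢
            linarith
        · apply Finset.mem_union_left
          rw [Finset.mem_filter, mem_fib]
          refine ⟨⟨hXN, ?_⟩, j, by omega, hj2, ?_⟩
          · rw [Finset.range_add_one, Finset.inter_insert_of_notMem haX, hXB]
          · rw [hIco, Finset.inter_insert_of_notMem haX] at hj3
            push_cast at hj3 ⊢
            linarith
      have h1 := ih (a + 1) B (K + 3) (by omega) hBb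
      have h2 := ih (a + 1) (insert a B) (K - 2) (by omega) hBa
      have h3 : (((fib (range N).powerset a B).filter (fun X => Tail N a K X)).card : ℝ) ≤
          (((fib (range N).powerset (a + 1) B).filter
            (fun X => Tail N (a + 1) (K + 3) X)).card : ℝ) +
          (((fib (range N).powerset (a + 1) (insert a B)).filter
            (fun X => Tail N (a + 1) (K - 2) X)).card : ℝ) := by
        exact_mod_cast le_trans (Finset.card_le_card hsub) (Finset.card_union_le _ _)
      have h4 : (9 / 10 : ℝ) ^ (K + 3) = (9 / 10 : ℝ) ^ K * (9 / 10) ^ (3 : ℕ) := by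
        rw [zpow_add₀ (by norm_num)]; norm_cast
      have h5 : (9 / 10 : ℝ) ^ (K - 2) = (9 / 10 : ℝ) ^ K * (10 / 9) ^ (2 : ℕ) := by
        rw [zpow_sub₀ (by norm_num)]; norm_num [div_eq_mul_inv]
      rw [h4] at h1
      rw [h5] at h2
      have h6 : (0 : ℝ) < (9 / 10 : ℝ) ^ K := zpow_pos (by norm_num) K
      have h7 : (0 : ℝ) < 2 ^ m := by positivity
      have h8 : (0 : ℝ) < (9 / 10 : ℝ) ^ K * 2 ^ m := by positivity
      rw [pow_succ (2 : ℝ) m]
      nlinarith

end Pool.Agent.H122R3.TW
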