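import Pool.Agent.H122R3.TwB

namespace Pool.Agent.H122R3.TW

open Finset

/-- replace `j` by `i` -/
def sw (i j : ℕ) (A : Finset ℕ) : Finset ℕ := insert i (A.erase j)

open Classical in
/-- the map of the compression -/
noncomputable def phi (i j : ℕ) (F : Finset (Finset ℕ)) (A : Finset ℕ) : Finset ℕ :=
  if j ∈ A ∧ i ∉ A ∧ sw i j A ∉ F then sw i j A else A

/-- the left compression `j → i` -/
noncomputable def comp (i j : ℕ) (F : Finset (Finset ℕ)) : Finset (Finset ℕ) :=
  F.image (phi i j F)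

lemma sw_inv (i j : ℕ) (A : Finset ℕ) (hj : j ∈ A) (hi : i ∉ A) :
    insert j ((sw i j A).erase i) = A := by
  unfold sw
  ext x
  simp only [Finset.mem_insert, Finset.mem_erase]
  by_cases h1 : x = i
  · subst h1
    have : x ≠ j := fun h => hi (h ▸ hj)
    simp [hi, this]
  · by_cases h2 : x = j
    · subst h2; simp [hj]
    · simp [h1, h2]

lemma phi_injOn (i j : ℕ) (F : Finset (Finset ℕ)) : Set.InjOn (phi i j F) (F : Set (Finset ℕ)) := by
  intro A hA A' hA' h
  rw [Finset.mem_coe] at hA hA'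
  unfold phi at h
  split_ifs at h with h1 h2 h2
  · rw [← sw_inv i j A h1.1 h1.2.1, h, sw_inv i j A' h2.1 h2.2.1]
  · exact absurd (h ▸ hA') h1.2.2
  · exact absurd (h ▸ hA) h2.2.2
  · exact h

lemma card_comp (i j : ℕ) (F : Finset (Finset ℕ)) : (comp i j F).card = F.card :=
  Finset.card_image_of_injOn (phi_injOn i j F)

lemma comp_cases (i j : ℕ) (hij : i ≠ j) (F : Finset (Finset ℕ)) (X : Finset ℕ)
    (hX : X ∈ comp i j F) :
    (X ∈ F ∧ (j ∈ X → i ∉ X → sw i j X ∈ F)) ∨
      (i ∈ X ∧ j ∉ X ∧ X ∉ F ∧ insert j (X.erase i) ∈ F) := by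
  obtain ⟨A, hA, rfl⟩ := Finset.mem_image.mp hX
  unfold phi
  split_ifs with h
  · right
    refine ⟨by simp [sw], ?_, h.2.2, ?_⟩
    · simp [sw, hij.symm]
    · rw [sw_inv i j A h.1 h.2.1]; exact hA
  · left
    refine ⟨hA, fun h1 h2 => ?_⟩
    by_contra h3
    exact h ⟨h1, h2, h3⟩

lemma sum_comp_ge (i j : ℕ) (F : Finset (Finset ℕ)) (f : Finset ℕ → ℕ)
    (hf : ∀ A, j ∈ A → i ∉ A → f A ≤ f (sw i j A)) :
    ∑ A ∈ F, f A ≤ ∑ A ∈ comp i j F, f A := by
  unfold comp
  rw [Finset.sum_image (phi_injOn i j F)]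
  apply Finset.sum_le_sum
  intro A _
  unfold phi
  split_ifs with h
  · exact hf A h.1 h.2.1
  · exact le_rfl

/-- cross 3-wise `s`-intersecting -/
def Cross (s : ℕ) (F G H : Finset (Finset ℕ)) : Prop :=
  ∀ A ∈ F, ∀ B ∈ G, ∀ C ∈ H, s ≤ (A ∩ B ∩ C).card

lemma comp_alpha (i j : ℕ) (hij : i ≠ j) (G : Finset (Finset ℕ)) (X : Finset ℕ)
    (hX : X ∈ comp i j G) : ∃ X' ∈ G, ∀ x, x ≠ i → x ≠ j → x ∈ X' → x ∈ X := by
  rcases comp_cases i j hij G X hX with h | h
  · exact ⟨X, h.1, fun x _ _ hx => hx⟩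
  · refine ⟨_, h.2.2.2, fun x h1 h2 hx => ?_⟩
    simp only [Finset.mem_insert, Finset.mem_erase] at hx
    tauto

lemma comp_beta (i j : ℕ) (hij : i ≠ j) (G : Finset (Finset ℕ)) (X : Finset ℕ)
    (hX : X ∈ comp i j G) (hi : i ∉ X) :
    ∃ X' ∈ G, j ∉ X' ∧ ∀ x, x ≠ i → x ≠ j → x ∈ X' → x ∈ X := by
  rcases comp_cases i j hij G X hX with h | h
  · by_cases hj : j ∈ X
    · refine ⟨sw i j X, h.2 hj hi, by simp [sw, hij.symm], fun x h1 h2 hx => ?_⟩
      simp only [sw, Finset.mem_insert, Finset.mem_erase] at hx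
      tauto
    · exact ⟨X, h.1, hj, fun x _ _ hx => hx⟩
  · exact absurd h.1 hi

lemma cross_helper (s i j : ℕ) (hij : i ≠ j) (F G H : Finset (Finset ℕ)) (h : Cross s F G H)
    (A B C : Finset ℕ) (hA : A ∈ comp i j F) (hAF : A ∉ F) (hB : B ∈ comp i j G)
    (hC : C ∈ comp i j H) : s ≤ (A ∩ B ∩ C).card := by
  rcases comp_cases i j hij F A hA with h1 | ⟨hiA, hjA, _, hA'⟩
  · exact absurd h1.1 hAF
  by_cases hiB : i ∈ B
  · by_cases hiC : i ∈ C
    · obtain ⟨B', hB', hBB⟩ := comp_alpha i j hij G B hB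
      obtain ⟨C', hC', hCC⟩ := comp_alpha i j hij H C hC
      have h3 := h _ hA' B' hB' C' hC'
      have h4 : insert j (A.erase i) ∩ B' ∩ C' ⊆ insert j ((A ∩ B ∩ C).erase i) := by
        intro x hx
        simp only [Finset.mem_inter, Finset.mem_insert, Finset.mem_erase] at hx ⊢
        by_cases hxj : x = j
        · exact Or.inl hxj
        · right
          have hxi : x ≠ i := by
            rcases hx.1.1 with h | h
            · exact absurd h hxj
            · exact h.1
          refine ⟨hxi, ⟨?_, hBB x hxi hxj hx.1.2⟩, hCC x hxi hxj hx.2⟩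
          rcases hx.1.1 with h | h
          · exact absurd h hxj
          · exact h.2
      have h5 := Finset.card_le_card h4
      have h6 := Finset.card_insert_le j ((A ∩ B ∩ C).erase i)
      have h7 : i ∈ A ∩ B ∩ C := by simp [hiA, hiB, hiC]
      have h8 := Finset.card_erase_of_mem h7
      have h9 : 0 < (A ∩ B ∩ C).card := Finset.card_pos.mpr ⟨i, h7⟩
      omega
    · obtain ⟨B', hB', hBB⟩ := comp_alpha i j hij G B hB
      obtain ⟨C', hC', hjC, hCC⟩ := comp_beta i j hij H C hC hiC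
      refine le_trans (h _ hA' B' hB' C' hC') (Finset.card_le_card ?_)
      intro x hx
      simp only [Finset.mem_inter, Finset.mem_insert, Finset.mem_erase] at hx ⊢
      have hxj : x ≠ j := fun h => hjC (h ▸ hx.2)
      have h4 : x ≠ i ∧ x ∈ A := by tauto
      exact ⟨⟨h4.2, hBB x h4.1 hxj hx.1.2⟩, hCC x h4.1 hxj hx.2⟩
  · obtain ⟨B', hB', hjB, hBB⟩ := comp_beta i j hij G B hB hiB
    obtain ⟨C', hC', hCC⟩ := comp_alpha i j hij H C hC
    refine le_trans (h _ hA' B' hB' C' hC') (Finset.card_le_card ?_)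
    intro x hx
    simp only [Finset.mem_inter, Finset.mem_insert, Finset.mem_erase] at hx ⊢
    have hxj : x ≠ j := fun h => hjB (h ▸ hx.1.2)
    have h4 : x ≠ i ∧ x ∈ A := by tauto
    exact ⟨⟨h4.2, hBB x h4.1 hxj hx.1.2⟩, hCC x h4.1 hxj hx.2⟩

lemma cross_comp (s i j : ℕ) (hij : i ≠ j) (F G H : Finset (Finset ℕ)) (h : Cross s F G H) :
    Cross s (comp i j F) (comp i j G) (comp i j H) := by
  intro A hA B hB C hC
  by_cases hAF : A ∈ F
  · by_cases hBG : B ∈ G
    · by_cases hCH : C ∈ H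
      · exact h A hAF B hBG C hCH
      · have h' : Cross s H F G := by
          intro C hC A hA B hB
          have := h A hA B hB C hC
          have e : C ∩ A ∩ B = A ∩ B ∩ C := by
            ext x; simp only [Finset.mem_inter]; tauto
          rwa [e]
        have := cross_helper s i j hij H F G h' C A B hC hCH hA hB
        have e : C ∩ A ∩ B = A ∩ B ∩ C := by
          ext x; simp only [Finset.mem_inter]; tauto
        rwa [e] at this
    · have h' : Cross s G F H := by
        intro B hB A hA C hC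
        have := h A hA B hB C hC
        rwa [Finset.inter_comm B A]
      have := cross_helper s i j hij G F H h' B A C hB hBG hA hC
      rwa [Finset.inter_comm B A] at this
  · exact cross_helper s i j hij F G H h A B C hA hAF hB hC

lemma threeWise_comp (s i j : ℕ) (hij : i ≠ j) (F : Finset (Finset ℕ)) (h : ThreeWise s F) :
    ThreeWise s (comp i j F) := cross_comp s i j hij F F F h

lemma comp_singleton_range (i j N : ℕ) (hi : i < N) :
    comp i j {range N} = {range N} := by
  unfold comp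
  rw [Finset.image_singleton]
  congr 1
  unfold phi
  rw [if_neg]
  intro h
  exact h.2.1 (Finset.mem_range.mpr hi)

lemma comp_sub (i j N : ℕ) (hi : i < N) (F : Finset (Finset ℕ)) (hF : F ⊆ (range N).powerset) :
    comp i j F ⊆ (range N).powerset := by
  intro X hX
  obtain ⟨A, hA, rfl⟩ := Finset.mem_image.mp hX
  have h1 := Finset.mem_powerset.mp (hF hA)
  unfold phi
  split_ifs
  · rw [Finset.mem_powerset]
    intro x hx
    simp only [sw, Finset.mem_insert, Finset.mem_erase] at hx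
    rcases hx with h | h
    · subst h; exact Finset.mem_range.mpr hi
    · exact h1 h.2
  · exact hF hA

lemma pairWise_comp (t i j N : ℕ) (hij : i ≠ j) (hi : i < N) (F : Finset (Finset ℕ))
    (hF : F ⊆ (range N).powerset) (h : PairWise t F) : PairWise t (comp i j F) := by
  have h1 : Cross t F F {range N} := by
    intro A hA B hB C hC
    rw [Finset.mem_singleton] at hC
    subst hC
    have h2 := Finset.mem_powerset.mp (hF hA)
    have h3 : A ∩ B ∩ range N = A ∩ B :=
      Finset.inter_eq_left.mpr (fun x hx => h2 (Finset.mem_inter.mp hx).1)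
    rw [h3]; exact h A hA B hB
  have h2 := cross_comp t i j hij F F {range N} h1
  rw [comp_singleton_range i j N hi] at h2
  intro A hA B hB
  have h3 := h2 A hA B hB (range N) (Finset.mem_singleton_self _)
  refine le_trans h3 (Finset.card_le_card Finset.inter_subset_left)

/-- full shifting -/
lemma shift_exists (l : ℕ) (P : Finset (Finset ℕ) → Prop)
    (hP : ∀ G, P G → ∀ i j, i < j → j < l → P (comp i j G)) :
    ∀ w : ℕ, ∀ F, P F → (∑ A ∈ F, A.sum id) = w → ∃ G, P G ∧ Shifted l G := by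
  intro w
  induction w using Nat.strong_induction_on with
  | _ w ih =>
  intro F hF hw
  by_cases hS : Shifted l F
  · exact ⟨F, hF, hS⟩
  · unfold Shifted at hS
    push Not at hS
    obtain ⟨A, hA, i, j, hij, hjl, hjA, hiA, hsw⟩ := hS
    have hlt : (∑ A ∈ comp i j F, A.sum id) < ∑ A ∈ F, A.sum id := by
      unfold comp
      rw [Finset.sum_image (phi_injOn i j F)]
      apply Finset.sum_lt_sum
      · intro B _
        unfold phi
        split_ifs with h
        · exact (sum_shift_lt B i j hij h.1 h.2.1).le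
        · exact le_rfl
      · refine ⟨A, hA, ?_⟩
        unfold phi
        rw [if_pos ⟨hjA, hiA, hsw⟩]
        exact sum_shift_lt A i j hij hjA hiA
    exact ih _ (by omega) (comp i j F) (hP F hF i j hij hjl) rfl

open Classical in
/-- up-closure in the subsets of `[0,l)` -/
noncomputable def upc (l : ℕ) (F : Finset (Finset ℕ)) : Finset (Finset ℕ) :=
  (range l).powerset.filter (fun B => ∃ A ∈ F, A ⊆ B)

lemma mem_upc {l : ℕ} {F : Finset (Finset ℕ)} {B : Finset ℕ} :
    B ∈ upc l F ↔ B ⊆ range l ∧ ∃ A ∈ F, A ⊆ B := by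
  simp [upc]

lemma upc_sub (l : ℕ) (F : Finset (Finset ℕ)) : upc l F ⊆ (range l).powerset :=
  Finset.filter_subset _ _

lemma sub_upc (l : ℕ) (F : Finset (Finset ℕ)) (hF : F ⊆ (range l).powerset) : F ⊆ upc l F := by
  intro A hA
  exact mem_upc.mpr ⟨Finset.mem_powerset.mp (hF hA), A, hA, Finset.Subset.refl A⟩

lemma upSet_upc (l : ℕ) (F : Finset (Finset ℕ)) : UpSet l (upc l F) := by
  intro A hA B hAB hB
  obtain ⟨_, A', hA', h⟩ := mem_upc.mp hA
  exact mem_upc.mpr ⟨hB, A', hA', h.trans hAB⟩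

lemma threeWise_upc (l s : ℕ) (F : Finset (Finset ℕ)) (h : ThreeWise s F) :
    ThreeWise s (upc l F) := by
  intro A hA B hB C hC
  obtain ⟨_, A', hA', h1⟩ := mem_upc.mp hA
  obtain ⟨_, B', hB', h2⟩ := mem_upc.mp hB
  obtain ⟨_, C', hC', h3⟩ := mem_upc.mp hC
  exact le_trans (h A' hA' B' hB' C' hC')
    (Finset.card_le_card (Finset.inter_subset_inter (Finset.inter_subset_inter h1 h2) h3))

lemma pairWise_upc (l t : ℕ) (F : Finset (Finset ℕ)) (h : PairWise t F) :
    PairWise t (upc l F) := by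
  intro A hA B hB
  obtain ⟨_, A', hA', h1⟩ := mem_upc.mp hA
  obtain ⟨_, B', hB', h2⟩ := mem_upc.mp hB
  exact le_trans (h A' hA' B' hB') (Finset.card_le_card (Finset.inter_subset_inter h1 h2))

lemma shifted_upc (l : ℕ) (F : Finset (Finset ℕ)) (h : Shifted l F) :
    Shifted l (upc l F) := by
  intro B hB i j hij hjl hjB hiB
  obtain ⟨hBl, A, hA, h1⟩ := mem_upc.mp hB
  have hsub : insert i (B.erase j) ⊆ range l := by
    intro x hx
    rw [Finset.mem_insert, Finset.mem_erase] at hx
    rcases hx with h | h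
    · subst h; exact Finset.mem_range.mpr (by omega)
    · exact hBl h.2
  by_cases hjA : j ∈ A
  · have hiA : i ∉ A := fun h => hiB (h1 h)
    refine mem_upc.mpr ⟨hsub, _, h A hA i j hij hjl hjA hiA, ?_⟩
    intro x hx
    rw [Finset.mem_insert, Finset.mem_erase] at hx ⊢
    rcases hx with h | h
    · exact Or.inl h
    · exact Or.inr ⟨h.1, h1 h.2⟩
  · refine mem_upc.mpr ⟨hsub, A, hA, ?_⟩
    intro x hx
    rw [Finset.mem_insert, Finset.mem_erase]
    exact Or.inr ⟨fun h => hjA (h ▸ hx), h1 hx⟩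

end Pool.Agent.H122R3.TW
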