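import Pool.Agent.H122R3.TwC

namespace Pool.Agent.H122R3.TW

open Finset

lemma crit_mo (e s : ℕ) (P Q : Finset (Finset ℕ)) 
    (h1 : ∀ A ∈ P, ∀ B ∈ Q, ∀ C ∈ Q, s ≤ (A ∩ B ∩ C).card)
    (h2 : ∀ A ∈ Q, ∀ i < e, i ∉ A → insert i A ∈ P)
    (A B C : Finset ℕ) (hA : A ∈ Q) (hB : B ∈ Q) (hC : C ∈ Q)
    (hcr : (A ∩ B ∩ C).card < s) :
    ∀ i < e, (i ∈ A ∧ i ∈ B) ∨ (i ∈ A ∧ i ∈ C) ∨ (i ∈ B ∧ i ∈ C) := by
  intro i hi
  have key : ∀ X ∈ Q, ∀ Y ∈ Q, ∀ Z ∈ Q, (X ∩ Y ∩ Z).card < s → i ∉ X → i ∉ Y → False := by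
    intro X hX Y hY Z hZ hlt hiX hiY
    have h4 := h1 _ (h2 X hX i hi hiX) Y hY Z hZ
    have h5 : insert i X ∩ Y ∩ Z ⊆ X ∩ Y ∩ Z := by
      intro x hx
      simp only [Finset.mem_inter, Finset.mem_insert] at hx ⊢
      have : x ≠ i := fun h => hiY (h ▸ hx.1.2)
      tauto
    have := Finset.card_le_card h5
    omega
  by_cases hiA : i ∈ A
  · by_cases hiB : i ∈ B
    · exact Or.inl ⟨hiA, hiB⟩
    · by_cases hiC : i ∈ C
      · exact Or.inr (Or.inl ⟨hiA, hiC⟩)
      · exfalso
        apply key B hB C hC A hA _ hiB hiC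
        have e : B ∩ C ∩ A = A ∩ B ∩ C := by
          ext x; simp only [Finset.mem_inter]; tauto
        rwa [e]
  · by_cases hiB : i ∈ B
    · by_cases hiC : i ∈ C
      · exact Or.inr (Or.inr ⟨hiB, hiC⟩)
      · exfalso
        apply key A hA C hC B hB _ hiA hiC
        have e : A ∩ C ∩ B = A ∩ B ∩ C := by
          ext x; simp only [Finset.mem_inter]; tauto
        rwa [e]
    · exact absurd (key A hA B hB C hC hcr hiA hiB) id

lemma crit_sum (e s : ℕ) (Q : Finset (Finset ℕ)) (hQ : ∀ A ∈ Q, A ⊆ range e)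
    (h3 : ∀ A ∈ Q, ∀ B ∈ Q, ∀ C ∈ Q, s ≤ (A ∩ B ∩ C).card + 1)
    (A B C : Finset ℕ) (hA : A ∈ Q) (hB : B ∈ Q) (hC : C ∈ Q)
    (hcr : (A ∩ B ∩ C).card < s)
    (hmo : ∀ i < e, (i ∈ A ∧ i ∈ B) ∨ (i ∈ A ∧ i ∈ C) ∨ (i ∈ B ∧ i ∈ C)) :
    A.card + B.card + C.card + 1 = 2 * e + s := by
  have h4 := sum_le A B C e
  have h5 := sum_ge A B C e hmo
  have h6 := h3 A hA B hB C hC
  rw [Finset.inter_eq_left.mpr (hQ A hA), Finset.inter_eq_left.mpr (hQ B hB),
    Finset.inter_eq_left.mpr (hQ C hC),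
    Finset.inter_eq_left.mpr (fun x hx => hQ C hC (Finset.mem_inter.mp hx).2 :
      A ∩ B ∩ C ⊆ range e)] at h4 h5
  omega

/-- averaging over pairs -/
lemma avg_pair (e s : ℕ) (hs : 1 ≤ s) (he : 9 * s ≤ e) (M : Finset (Finset ℕ))
    (hM : ∀ A ∈ M, A ⊆ range e ∧ 3 * A.card + 1 = 2 * e + s) :
    ∃ i j, i < e ∧ j < e ∧ 
      2 * (M.filter (fun A => i ∈ A ∧ j ∈ A)).card ≤ M.card ∧
      (0 < M.card → 2 * (M.filter (fun A => i ∈ A ∧ j ∈ A)).card < M.card) := by
  rcases Nat.eq_zero_or_pos M.card with h0 | hpos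
  · refine ⟨0, 1, by omega, by omega, ?_, by omega⟩
    have := Finset.card_filter_le M (fun A => 0 ∈ A ∧ 1 ∈ A)
    omega
  by_contra hcon
  push Not at hcon
  have hall : ∀ p ∈ (range e).offDiag,
      M.card ≤ 2 * (M.filter (fun A => p.1 ∈ A ∧ p.2 ∈ A)).card := by
    intro p hp
    rw [Finset.mem_offDiag] at hp
    by_contra hlt
    push Not at hlt
    have := hcon p.1 p.2 (Finset.mem_range.mp hp.1) (Finset.mem_range.mp hp.2.1) hlt.le
    omega
  have hsum := Finset.sum_le_sum hall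
  rw [Finset.sum_const, smul_eq_mul, Finset.offDiag_card, Finset.card_range,
    ← Finset.mul_sum] at hsum
  have hswap : ∑ p ∈ (range e).offDiag, (M.filter (fun A => p.1 ∈ A ∧ p.2 ∈ A)).card
      = ∑ A ∈ M, ((range e).offDiag.filter (fun p => p.1 ∈ A ∧ p.2 ∈ A)).card := by
    simp only [Finset.card_filter]
    exact Finset.sum_comm
  rw [hswap] at hsum
  obtain ⟨A0, hA0⟩ := Finset.card_pos.mp hpos
  set a := A0.card with ha
  have haeq := (hM A0 hA0).2
  have hbound : ∀ A ∈ M, ((range e).offDiag.filter (fun p => p.1 ∈ A ∧ p.2 ∈ A)).card ≤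
      a * a - a := by
    intro A hA
    have h1 : A.card = a := by have := (hM A hA).2; omega
    rw [← h1, ← Finset.offDiag_card]
    apply Finset.card_le_card
    intro p hp
    rw [Finset.mem_filter, Finset.mem_offDiag] at hp
    rw [Finset.mem_offDiag]
    exact ⟨hp.2.1, hp.2.2, hp.1.2.2⟩
  have hsum2 := Finset.sum_le_sum hbound
  rw [Finset.sum_const, smul_eq_mul] at hsum2
  have h5 : (e * e - e) * M.card ≤ 2 * (M.card * (a * a - a)) := by
    exact le_trans hsum (Nat.mul_le_mul_left 2 hsum2)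
  have h6 : e * e - e ≤ 2 * (a * a - a) := by
    have : (e * e - e) * M.card ≤ (2 * (a * a - a)) * M.card := by
      calc _ ≤ _ := h5
        _ = _ := by ring
    exact Nat.le_of_mul_le_mul_right this hpos
  have h7 : e ≤ e * e := Nat.le_mul_self e
  have h8 : a ≤ a * a := Nat.le_mul_self a
  zify [h7, h8] at h6
  have h9 : (3 * (a : ℤ)) = 2 * e + s - 1 := by
    have : 3 * (a : ℤ) + 1 = 2 * e + s := by exact_mod_cast haeq
    linarith
  have h10 : (9 : ℤ) * s ≤ e := by exact_mod_cast he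
  have h11 : (1 : ℤ) ≤ s := by exact_mod_cast hs
  have h12 : 9 * ((e : ℤ) * e - e) ≤ 2 * ((3 * (a : ℤ)) * (3 * a) - 3 * (3 * a)) := by
    linarith
  rw [h9] at h12
  nlinarith

lemma pig2 {a b c a' b' c' : Prop} (h : (a ∧ b) ∨ (a ∧ c) ∨ (b ∧ c))
    (h' : (a' ∧ b') ∨ (a' ∧ c') ∨ (b' ∧ c')) (na : ¬ (a ∧ a')) (nb : ¬ (b ∧ b'))
    (nc : ¬ (c ∧ c')) : False := by
  tauto

lemma pigAB {a b c : Prop} (h : (a ∧ b) ∨ (a ∧ c) ∨ (b ∧ c)) (na : ¬ a) (nb : ¬ b) : False := by
  tauto

lemma pigAC {a b c : Prop} (h : (a ∧ b) ∨ (a ∧ c) ∨ (b ∧ c)) (na : ¬ a) (nb : ¬ c) : False := by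
  tauto

lemma pigBC {a b c : Prop} (h : (a ∧ b) ∨ (a ∧ c) ∨ (b ∧ c)) (na : ¬ b) (nb : ¬ c) : False := by
  tauto

/-- choice of the sub-family which may be pushed down -/
lemma selection (e s : ℕ) (hs : 1 ≤ s) (he : 9 * s ≤ e) (P Q : Finset (Finset ℕ))
    (hQ : ∀ A ∈ Q, A ⊆ range e)
    (h1 : ∀ A ∈ P, ∀ B ∈ Q, ∀ C ∈ Q, s ≤ (A ∩ B ∩ C).card)
    (h2 : ∀ A ∈ Q, ∀ i < e, i ∉ A → insert i A ∈ P)
    (h3 : ∀ A ∈ Q, ∀ B ∈ Q, ∀ C ∈ Q, s ≤ (A ∩ B ∩ C).card + 1)
    (hup : UpSet e P) :
    ∃ S ⊆ Q \ P, ThreeWise s S ∧ (Q \ P).card ≤ 2 * S.card ∧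
      (0 < (Q \ P).card → (Q \ P).card < 2 * S.card) ∧
      (Q \ P).card ≤ S.card + ((Q \ P).filter (fun A => 2 * e + s ≤ 3 * A.card + 1)).card := by
  classical
  set T := Q \ P with hT
  set Ts := T.filter (fun A => 3 * A.card + 1 < 2 * e + s) with hTs
  set Tm := T.filter (fun A => 3 * A.card + 1 = 2 * e + s) with hTm
  set Tl := T.filter (fun A => 2 * e + s < 3 * A.card + 1) with hTl
  have hTQ : ∀ A ∈ T, A ∈ Q := fun A hA => (Finset.mem_sdiff.mp hA).1
  have hcT : T.card = Ts.card + Tm.card + Tl.card := by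
    have e1 := Finset.card_filter_add_card_filter_not (s := T) (fun A => 3 * A.card + 1 < 2 * e + s)
    have e2 := Finset.card_filter_add_card_filter_not
      (s := T.filter (fun A => ¬ (3 * A.card + 1 < 2 * e + s)))
      (fun A => 3 * A.card + 1 = 2 * e + s)
    have e3 : (T.filter (fun A => ¬ (3 * A.card + 1 < 2 * e + s))).filter
        (fun A => 3 * A.card + 1 = 2 * e + s) = Tm := by
      rw [Finset.filter_filter]
      apply Finset.filter_congr
      intro A _; omega
    have e4 : (T.filter (fun A => ¬ (3 * A.card + 1 < 2 * e + s))).filter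
        (fun A => ¬ (3 * A.card + 1 = 2 * e + s)) = Tl := by
      rw [Finset.filter_filter]
      apply Finset.filter_congr
      intro A _; omega
    rw [e3, e4] at e2
    rw [← hTs] at e1
    omega
  have hcge : (T.filter (fun A => 2 * e + s ≤ 3 * A.card + 1)).card = Tm.card + Tl.card := by
    have e1 := Finset.card_filter_add_card_filter_not (s := T) (fun A => 3 * A.card + 1 < 2 * e + s)
    have e3 : T.filter (fun A => ¬ (3 * A.card + 1 < 2 * e + s)) =
        T.filter (fun A => 2 * e + s ≤ 3 * A.card + 1) := by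
      apply Finset.filter_congr
      intro A _; omega
    rw [e3, ← hTs] at e1
    omega
  rw [hcge]
  -- critical triple facts
  have crit : ∀ A ∈ T, ∀ B ∈ T, ∀ C ∈ T, (A ∩ B ∩ C).card < s →
      (A.card + B.card + C.card + 1 = 2 * e + s ∧
        ∀ i < e, (i ∈ A ∧ i ∈ B) ∨ (i ∈ A ∧ i ∈ C) ∨ (i ∈ B ∧ i ∈ C)) := by
    intro A hA B hB C hC hlt
    have hmo := crit_mo e s P Q h1 h2 A B C (hTQ A hA) (hTQ B hB) (hTQ C hC) hlt
    exact ⟨crit_sum e s Q hQ h3 A B C (hTQ A hA) (hTQ B hB) (hTQ C hC) hlt hmo, hmo⟩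
  obtain ⟨i, j, hi, hj, hav1, hav2⟩ := avg_pair e s hs he Tm (by
    intro A hA
    rw [hTm, Finset.mem_filter] at hA
    exact ⟨hQ A (hTQ A hA.1), hA.2⟩)
  set Tm' := Tm.filter (fun A => ¬ (i ∈ A ∧ j ∈ A)) with hTm'
  have hcm : (Tm.filter (fun A => i ∈ A ∧ j ∈ A)).card + Tm'.card = Tm.card :=
    Finset.card_filter_add_card_filter_not (s := Tm) (fun A => i ∈ A ∧ j ∈ A)
  have hsubm : Tm' ⊆ T := (Finset.filter_subset _ _).trans (Finset.filter_subset _ _)
  have memTm' : ∀ A ∈ Tm', A ∈ T ∧ 3 * A.card + 1 = 2 * e + s ∧ ¬ (i ∈ A ∧ j ∈ A) := by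
    intro A hA
    rw [hTm', Finset.mem_filter, hTm, Finset.mem_filter] at hA
    exact ⟨hA.1.1, hA.1.2, hA.2⟩
  have memTs : ∀ A ∈ Ts, A ∈ T ∧ 3 * A.card + 1 < 2 * e + s := by
    intro A hA; rw [hTs, Finset.mem_filter] at hA; exact hA
  have memTl : ∀ A ∈ Tl, A ∈ T ∧ 2 * e + s < 3 * A.card + 1 := by
    intro A hA; rw [hTl, Finset.mem_filter] at hA; exact hA
  by_cases hspecial : Tm.card = 0 ∧ Ts.card = Tl.card ∧ 0 < Tl.card
  · obtain ⟨hm0, hsl, hlpos⟩ := hspecial
    have hspos : 0 < Ts.card := by omega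
    obtain ⟨A0, hA0, hmax⟩ := Finset.exists_max_image Ts Finset.card (Finset.card_pos.mp hspos)
    obtain ⟨B0, hB0, hmin⟩ := Finset.exists_min_image Tl Finset.card (Finset.card_pos.mp hlpos)
    have hA0' := memTs A0 hA0
    have hB0' := memTl B0 hB0
    have hA0e : A0.card < e := by omega
    obtain ⟨j0, hj0, hj0A⟩ := Finset.exists_mem_notMem_of_card_lt_card
      (show A0.card < (range e).card by simpa using hA0e)
    rw [Finset.mem_range] at hj0
    by_cases hcase : 2 * (2 * e + s) ≤ 3 * A0.card + 3 * B0.card + 2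
    · set S2 := Ts.filter (fun A => A.card = A0.card ∧ j0 ∉ A) with hS2
      have hS2pos : 0 < S2.card := Finset.card_pos.mpr
        ⟨A0, by rw [hS2, Finset.mem_filter]; exact ⟨hA0, rfl, hj0A⟩⟩
      have hS2le : S2.card ≤ Ts.card := Finset.card_filter_le _ _
      have hdis : Disjoint Tl S2 := by
        rw [Finset.disjoint_left]
        intro X hX hX2
        have a1 := (memTl X hX).2
        rw [hS2, Finset.mem_filter] at hX2
        have a2 := (memTs X hX2.1).2
        omega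
      have hcU := Finset.card_union_of_disjoint hdis
      refine ⟨Tl ∪ S2, ?_, ?_, by omega, by omega, by omega⟩
      · apply Finset.union_subset (Finset.filter_subset _ _)
        exact (Finset.filter_subset _ _).trans (Finset.filter_subset _ _)
      · have hmem : ∀ X ∈ Tl ∪ S2, X ∈ T ∧ ((B0.card ≤ X.card ∧ 2 * e + s < 3 * X.card + 1) ∨
            (X.card = A0.card ∧ j0 ∉ X)) := by
          intro X hX
          rcases Finset.mem_union.mp hX with h | h
          · exact ⟨(memTl X h).1, Or.inl ⟨hmin X h, (memTl X h).2⟩⟩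
          · rw [hS2, Finset.mem_filter] at h
            exact ⟨(memTs X h.1).1, Or.inr h.2⟩
        intro A hA B hB C hC
        by_contra hlt
        push Not at hlt
        obtain ⟨a1, a2⟩ := hmem A hA
        obtain ⟨b1, b2⟩ := hmem B hB
        obtain ⟨c1, c2⟩ := hmem C hC
        obtain ⟨d1, d2⟩ := crit A a1 B b1 C c1 hlt
        have d3 := d2 j0 hj0
        rcases a2 with a2 | a2 <;> rcases b2 with b2 | b2 <;> rcases c2 with c2 | c2
        · omega
        · omega
        · omega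
        · exact pigBC d3 b2.2 c2.2
        · omega
        · exact pigAC d3 a2.2 c2.2
        · exact pigAB d3 a2.2 b2.2
        · exact pigAB d3 a2.2 b2.2
    · have hB0ne : B0.card < e := by
        have hB0sub := hQ B0 (hTQ B0 hB0'.1)
        have hle := Finset.card_le_card hB0sub
        rw [Finset.card_range] at hle
        rcases Nat.lt_or_ge B0.card e with h | h
        · exact h
        · exfalso
          have hBr : B0 = range e := Finset.eq_of_subset_of_card_le hB0sub (by simpa using h)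
          have hP1 := h2 A0 (hTQ A0 hA0'.1) j0 hj0 hj0A
          have hP2 : range e ∈ P := by
            apply hup _ hP1 _ _ (Finset.Subset.refl _)
            intro x hx
            rcases Finset.mem_insert.mp hx with h | h
            · subst h; exact Finset.mem_range.mpr hj0
            · exact hQ A0 (hTQ A0 hA0'.1) h
          rw [← hBr] at hP2
          exact (Finset.mem_sdiff.mp hB0'.1).2 hP2
      obtain ⟨j1, hj1, hj1B⟩ := Finset.exists_mem_notMem_of_card_lt_card
        (show B0.card < (range e).card by simpa using hB0ne)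
      rw [Finset.mem_range] at hj1
      set S2 := Tl.filter (fun A => A.card = B0.card ∧ j1 ∉ A) with hS2
      have hS2pos : 0 < S2.card := Finset.card_pos.mpr
        ⟨B0, by rw [hS2, Finset.mem_filter]; exact ⟨hB0, rfl, hj1B⟩⟩
      have hS2le : S2.card ≤ Tl.card := Finset.card_filter_le _ _
      have hdis : Disjoint Ts S2 := by
        rw [Finset.disjoint_left]
        intro X hX hX2
        have a1 := (memTs X hX).2
        rw [hS2, Finset.mem_filter] at hX2
        have a2 := (memTl X hX2.1).2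
        omega
      have hcU := Finset.card_union_of_disjoint hdis
      refine ⟨Ts ∪ S2, ?_, ?_, by omega, by omega, by omega⟩
      · apply Finset.union_subset (Finset.filter_subset _ _)
        exact (Finset.filter_subset _ _).trans (Finset.filter_subset _ _)
      · have hmem : ∀ X ∈ Ts ∪ S2, X ∈ T ∧ ((X.card ≤ A0.card ∧ 3 * X.card + 1 < 2 * e + s) ∨
            (X.card = B0.card ∧ j1 ∉ X)) := by
          intro X hX
          rcases Finset.mem_union.mp hX with h | h
          · exact ⟨(memTs X h).1, Or.inl ⟨hmax X h, (memTs X h).2⟩⟩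
          · rw [hS2, Finset.mem_filter] at h
            exact ⟨(memTl X h.1).1, Or.inr h.2⟩
        intro A hA B hB C hC
        by_contra hlt
        push Not at hlt
        obtain ⟨a1, a2⟩ := hmem A hA
        obtain ⟨b1, b2⟩ := hmem B hB
        obtain ⟨c1, c2⟩ := hmem C hC
        obtain ⟨d1, d2⟩ := crit A a1 B b1 C c1 hlt
        have d3 := d2 j1 hj1
        rcases a2 with a2 | a2 <;> rcases b2 with b2 | b2 <;> rcases c2 with c2 | c2
        · omega
        · omega
        · omega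
        · exact pigBC d3 b2.2 c2.2
        · omega
        · exact pigAC d3 a2.2 c2.2
        · exact pigAB d3 a2.2 b2.2
        · exact pigAB d3 a2.2 b2.2
  · by_cases hle : Tl.card ≤ Ts.card
    · have hdis : Disjoint Ts Tm' := by
        rw [Finset.disjoint_left]
        intro X hX hX2
        have a1 := (memTs X hX).2
        have a2 := (memTm' X hX2).2.1
        omega
      have hcU := Finset.card_union_of_disjoint hdis
      refine ⟨Ts ∪ Tm', Finset.union_subset (Finset.filter_subset _ _) hsubm, ?_,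
        by omega, by omega, by omega⟩
      have hmem : ∀ X ∈ Ts ∪ Tm', X ∈ T ∧ (3 * X.card + 1 < 2 * e + s ∨
            (3 * X.card + 1 = 2 * e + s ∧ ¬ (i ∈ X ∧ j ∈ X))) := by
        intro X hX
        rcases Finset.mem_union.mp hX with h | h
        · exact ⟨(memTs X h).1, Or.inl (memTs X h).2⟩
        · exact ⟨(memTm' X h).1, Or.inr (memTm' X h).2⟩
      intro A hA B hB C hC
      by_contra hlt
      push Not at hlt
      obtain ⟨a1, a2⟩ := hmem A hA
      obtain ⟨b1, b2⟩ := hmem B hB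
      obtain ⟨c1, c2⟩ := hmem C hC
      obtain ⟨d1, d2⟩ := crit A a1 B b1 C c1 hlt
      have d3 := d2 i hi
      have d4 := d2 j hj
      rcases a2 with a2 | a2 <;> rcases b2 with b2 | b2 <;> rcases c2 with c2 | c2
      all_goals first
        | omega
        | exact pig2 d3 d4 a2.2 b2.2 c2.2
    · have hdis : Disjoint Tl Tm' := by
        rw [Finset.disjoint_left]
        intro X hX hX2
        have a1 := (memTl X hX).2
        have a2 := (memTm' X hX2).2.1
        omega
      have hcU := Finset.card_union_of_disjoint hdis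
      refine ⟨Tl ∪ Tm', Finset.union_subset (Finset.filter_subset _ _) hsubm, ?_,
        by omega, by omega, by omega⟩
      have hmem : ∀ X ∈ Tl ∪ Tm', X ∈ T ∧ (2 * e + s < 3 * X.card + 1 ∨
            (3 * X.card + 1 = 2 * e + s ∧ ¬ (i ∈ X ∧ j ∈ X))) := by
        intro X hX
        rcases Finset.mem_union.mp hX with h | h
        · exact ⟨(memTl X h).1, Or.inl (memTl X h).2⟩
        · exact ⟨(memTm' X h).1, Or.inr (memTm' X h).2⟩
      intro A hA B hB C hC
      by_contra hlt
      push Not at hlt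
      obtain ⟨a1, a2⟩ := hmem A hA
      obtain ⟨b1, b2⟩ := hmem B hB
      obtain ⟨c1, c2⟩ := hmem C hC
      obtain ⟨d1, d2⟩ := crit A a1 B b1 C c1 hlt
      have d3 := d2 i hi
      have d4 := d2 j hj
      rcases a2 with a2 | a2 <;> rcases b2 with b2 | b2 <;> rcases c2 with c2 | c2
      all_goals first
        | omega
        | exact pig2 d3 d4 a2.2 b2.2 c2.2

end Pool.Agent.H122R3.TW
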