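import Pool.Agent.H122R3.TwD

namespace Pool.Agent.H122R3.TW

open Finset

/-- number of members of `F` whose trace on `[0,a)` lies in `G` -/
def cap (F : Finset (Finset ℕ)) (a : ℕ) (G : Finset (Finset ℕ)) : ℕ :=
  ∑ B ∈ G, (fib F a B).card

lemma fib_card_mono_sw (N a : ℕ) (F : Finset (Finset ℕ)) (hS : Shifted N F) (haN : a ≤ N)
    (B : Finset ℕ) (i j : ℕ) (hij : i < j) (hja : j < a) (hjB : j ∈ B) (hiB : i ∉ B) :
    (fib F a B).card ≤ (fib F a (sw i j B)).card := by
  have hfact : ∀ X ∈ fib F a B, X ∈ F ∧ j ∈ X ∧ i ∉ X ∧ X ∩ range a = B := by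
    intro X hX
    obtain ⟨h1, h2⟩ := mem_fib.mp hX
    refine ⟨h1, ?_, ?_, h2⟩
    · rw [← h2] at hjB; exact (Finset.mem_inter.mp hjB).1
    · intro h
      apply hiB
      rw [← h2]
      exact Finset.mem_inter.mpr ⟨h, Finset.mem_range.mpr (by omega)⟩
  apply Finset.card_le_card_of_injOn (sw i j)
  · intro X hX
    obtain ⟨h1, h2, h3, h4⟩ := hfact X hX
    rw [Finset.mem_coe, mem_fib]
    refine ⟨hS X h1 i j hij (by omega) h2 h3, ?_⟩
    rw [← h4]
    unfold sw
    ext x
    simp only [Finset.mem_inter, Finset.mem_insert, Finset.mem_erase, Finset.mem_range]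
    constructor
    · rintro ⟨h | h, hx⟩
      · exact Or.inl h
      · exact Or.inr ⟨h.1, h.2, hx⟩
    · rintro (h | h)
      · exact ⟨Or.inl h, by omega⟩
      · exact ⟨Or.inr ⟨h.1, h.2.1⟩, h.2.2⟩
  · intro X hX Y hY h
    obtain ⟨h1, h2, h3, h4⟩ := hfact X hX
    obtain ⟨k1, k2, k3, k4⟩ := hfact Y hY
    rw [← sw_inv i j X h2 h3, h, sw_inv i j Y k2 k3]

lemma fib_split (F : Finset (Finset ℕ)) (e : ℕ) (B : Finset ℕ) (hB : B ⊆ range e) :
    (fib F e B).card = (fib F (e + 1) B).card + (fib F (e + 1) (insert e B)).card := by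
  have heB : e ∉ B := fun h => by have := Finset.mem_range.mp (hB h); omega
  have e1 := Finset.card_filter_add_card_filter_not (s := fib F e B) (fun X => e ∉ X)
  have e2 : (fib F e B).filter (fun X => e ∉ X) = fib F (e + 1) B := by
    ext X
    rw [Finset.mem_filter, mem_fib, mem_fib, Finset.range_add_one]
    constructor
    · rintro ⟨⟨h1, h2⟩, h3⟩
      exact ⟨h1, by rw [Finset.inter_insert_of_notMem h3]; exact h2⟩
    · rintro ⟨h1, h2⟩
      have h3 : e ∉ X := by
        intro h
        apply heB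
        rw [← h2]
        simp [h]
      rw [Finset.inter_insert_of_notMem h3] at h2
      exact ⟨⟨h1, h2⟩, h3⟩
  have e3 : (fib F e B).filter (fun X => ¬ e ∉ X) = fib F (e + 1) (insert e B) := by
    ext X
    rw [Finset.mem_filter, mem_fib, mem_fib, Finset.range_add_one, not_not]
    constructor
    · rintro ⟨⟨h1, h2⟩, h3⟩
      exact ⟨h1, by rw [Finset.inter_insert_of_mem h3, h2]⟩
    · rintro ⟨h1, h2⟩
      have h3 : e ∈ X := by
        have : e ∈ X ∩ insert e (range e) := by rw [h2]; simp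
        exact (Finset.mem_inter.mp this).1
      rw [Finset.inter_insert_of_mem h3] at h2
      refine ⟨⟨h1, ?_⟩, h3⟩
      have h4 := congrArg (fun Z => Finset.erase Z e) h2
      beta_reduce at h4
      rw [Finset.erase_insert (by simp), Finset.erase_insert heB] at h4
      exact h4
  rw [e2, e3] at e1
  omega

lemma big_card (e s : ℕ) (hs : 1 ≤ s) :
    (((range e).powerset.filter (fun A => 2 * e + s ≤ 3 * A.card + 1)).card : ℝ) ≤
      (9 / 10 : ℝ) ^ (e / 3) * 2 ^ e := by
  classical
  have h1 := tail_bound e e 0 ∅ ((e / 3 : ℕ) : ℤ) (by omega) (by simp)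
  rw [zpow_natCast] at h1
  refine le_trans ?_ h1
  have : (range e).powerset.filter (fun A => 2 * e + s ≤ 3 * A.card + 1) ⊆
      (fib (range e).powerset 0 ∅).filter (fun X => Tail e 0 ((e / 3 : ℕ) : ℤ) X) := by
    intro A hA
    rw [Finset.mem_filter] at hA
    rw [Finset.mem_filter, mem_fib]
    refine ⟨⟨hA.1, by simp⟩, e, by omega, le_rfl, ?_⟩
    have h2 : A ∩ Ico 0 e = A := by
      apply Finset.inter_eq_left.mpr
      intro x hx
      have := Finset.mem_range.mp (Finset.mem_powerset.mp hA.1 hx)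
      simp [this]
    rw [h2]
    have h3 : 3 * e + e / 3 ≤ 5 * A.card := by omega
    have h4 : (3 : ℤ) * e + ((e / 3 : ℕ) : ℤ) ≤ 5 * A.card := by exact_mod_cast h3
    simpa using h4
  exact_mod_cast Finset.card_le_card this

lemma cap_le_cap (F : Finset (Finset ℕ)) (a : ℕ) (G H : Finset (Finset ℕ)) (h : G ⊆ H) :
    cap F a G ≤ cap F a H :=
  Finset.sum_le_sum_of_subset h

lemma descent (s : ℕ) (hs : 1 ≤ s) (N : ℕ) (F : Finset (Finset ℕ))
    (hF : F ⊆ (range N).powerset) (hFS : Shifted N F) (e : ℕ) (he : 9 * s ≤ e)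
    (heN : e + 1 ≤ N) (J : Finset (Finset ℕ)) (hJ : J ⊆ (range (e + 1)).powerset)
    (hJT : ThreeWise s J) (hJU : UpSet (e + 1) J) (hJS : Shifted (e + 1) J) :
    ∃ J₁, J₁ ⊆ (range e).powerset ∧ ThreeWise s J₁ ∧ UpSet e J₁ ∧ Shifted e J₁ ∧
      J.card ≤ 2 * J₁.card ∧
      (cap F (e + 1) J : ℝ) ≤ cap F e J₁ + (9 / 10 : ℝ) ^ (e / 3) * 2 ^ N ∧
      (J.card = 2 * J₁.card → cap F (e + 1) J ≤ cap F e J₁) := by
  classical
  set P := J.filter (fun A => e ∉ A) with hP
  set Q := (range e).powerset.filter (fun A => insert e A ∈ J) with hQ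
  have memP : ∀ {A}, A ∈ P ↔ A ∈ J ∧ e ∉ A := by
    intro A; rw [hP, Finset.mem_filter]
  have memQ : ∀ {A}, A ∈ Q ↔ A ⊆ range e ∧ insert e A ∈ J := by
    intro A; rw [hQ, Finset.mem_filter, Finset.mem_powerset]
  have hre : ∀ {A : Finset ℕ}, A ⊆ range e → e ∉ A := by
    intro A hA h
    have := Finset.mem_range.mp (hA h); omega
  have hPe : ∀ A ∈ P, A ⊆ range e := by
    intro A hA x hx
    obtain ⟨h1, h2⟩ := memP.mp hA
    have h3 := Finset.mem_range.mp (Finset.mem_powerset.mp (hJ h1) hx)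
    have h4 : x ≠ e := fun h => h2 (h ▸ hx)
    exact Finset.mem_range.mpr (by omega)
  have hQe : ∀ A ∈ Q, A ⊆ range e := fun A hA => (memQ.mp hA).1
  have hins : ∀ {A : Finset ℕ}, A ⊆ range e → insert e A ⊆ range (e + 1) := by
    intro A hA
    rw [Finset.range_add_one]
    exact Finset.insert_subset_insert e hA
  have hPQ : P ⊆ Q := by
    intro A hA
    exact memQ.mpr ⟨hPe A hA, hJU A (memP.mp hA).1 _ (Finset.subset_insert _ _)
      (hins (hPe A hA))⟩
  have h1 : ∀ A ∈ P, ∀ B ∈ Q, ∀ C ∈ Q, s ≤ (A ∩ B ∩ C).card := by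
    intro A hA B hB C hC
    refine le_trans (hJT A (memP.mp hA).1 _ (memQ.mp hB).2 _ (memQ.mp hC).2)
      (Finset.card_le_card ?_)
    intro x hx
    simp only [Finset.mem_inter, Finset.mem_insert] at hx ⊢
    have : x ≠ e := fun h => (memP.mp hA).2 (h ▸ hx.1.1)
    tauto
  have h3 : ∀ A ∈ Q, ∀ B ∈ Q, ∀ C ∈ Q, s ≤ (A ∩ B ∩ C).card + 1 := by
    intro A hA B hB C hC
    have h4 := hJT _ (memQ.mp hA).2 _ (memQ.mp hB).2 _ (memQ.mp hC).2
    have h5 : insert e A ∩ insert e B ∩ insert e C ⊆ insert e (A ∩ B ∩ C) := by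
      intro x hx
      simp only [Finset.mem_inter, Finset.mem_insert] at hx ⊢
      tauto
    have h6 := Finset.card_le_card h5
    have h7 := Finset.card_insert_le e (A ∩ B ∩ C)
    omega
  have h2 : ∀ A ∈ Q, ∀ i < e, i ∉ A → insert i A ∈ P := by
    intro A hA i hi hiA
    obtain ⟨hAe, hAJ⟩ := memQ.mp hA
    have h4 := hJS _ hAJ i e hi (by omega) (Finset.mem_insert_self _ _)
      (by
        intro h
        rcases Finset.mem_insert.mp h with h | h
        · omega
        · exact hiA h)
    rw [Finset.erase_insert (hre hAe)] at h4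
    refine memP.mpr ⟨h4, ?_⟩
    intro h
    rcases Finset.mem_insert.mp h with h | h
    · omega
    · exact hre hAe h
  have hup : UpSet e P := by
    intro A hA B hAB hB
    refine memP.mpr ⟨hJU A (memP.mp hA).1 B hAB ?_, hre hB⟩
    exact hB.trans (Finset.range_subset_range.mpr (by omega))
  obtain ⟨S, hST, hSTW, hS1, hS2, hS3⟩ := selection e s hs he P Q hQe h1 h2 h3 hup
  -- cardinalities
  have hinj : Set.InjOn (fun A : Finset ℕ => insert e A) (Q : Set (Finset ℕ)) := by
    intro A hA B hB h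
    have h4 := congrArg (fun Z => Z.erase e) h
    simp only at h4
    rwa [Finset.erase_insert (hre (hQe A hA)), Finset.erase_insert (hre (hQe B hB))] at h4
  have hJeq : J = P ∪ Q.image (fun A => insert e A) := by
    ext A
    rw [Finset.mem_union, Finset.mem_image]
    constructor
    · intro hA
      by_cases heA : e ∈ A
      · right
        refine ⟨A.erase e, memQ.mpr ⟨?_, ?_⟩, Finset.insert_erase heA⟩
        · intro x hx
          rw [Finset.mem_erase] at hx
          have := Finset.mem_range.mp (Finset.mem_powerset.mp (hJ hA) hx.2)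
          exact Finset.mem_range.mpr (by omega)
        · rw [Finset.insert_erase heA]; exact hA
      · left; exact memP.mpr ⟨hA, heA⟩
    · rintro (h | ⟨B, hB, rfl⟩)
      · exact (memP.mp h).1
      · exact (memQ.mp hB).2
  have hdis : Disjoint P (Q.image (fun A => insert e A)) := by
    rw [Finset.disjoint_left]
    intro A hA hA2
    obtain ⟨B, _, rfl⟩ := Finset.mem_image.mp hA2
    exact (memP.mp hA).2 (Finset.mem_insert_self _ _)
  have hcJ : J.card = P.card + Q.card := by
    rw [hJeq, Finset.card_union_of_disjoint hdis, Finset.card_image_of_injOn hinj]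
  have hcT : (Q \ P).card + P.card = Q.card := Finset.card_sdiff_add_card_eq_card hPQ
  have hPS : Disjoint P S := by
    rw [Finset.disjoint_left]
    intro A hA hA2
    exact (Finset.mem_sdiff.mp (hST hA2)).2 hA
  have hcPS : (P ∪ S).card = P.card + S.card := Finset.card_union_of_disjoint hPS
  -- capture
  have hcap : cap F (e + 1) J ≤ cap F e (P ∪ S) + ((Q \ P) \ S).card * 2 ^ (N - (e + 1)) := by
    have c1 : cap F (e + 1) J = ∑ B ∈ P, (fib F (e + 1) B).card +
        ∑ B ∈ Q, (fib F (e + 1) (insert e B)).card := by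
      conv_lhs => rw [hJeq]
      unfold cap
      rw [Finset.sum_union hdis, Finset.sum_image hinj]
    have c2 : cap F e (P ∪ S) = ∑ B ∈ P, (fib F e B).card + ∑ B ∈ S, (fib F e B).card := by
      unfold cap
      rw [Finset.sum_union hPS]
    have c3 : ∑ B ∈ P, (fib F e B).card = ∑ B ∈ P, (fib F (e + 1) B).card +
        ∑ B ∈ P, (fib F (e + 1) (insert e B)).card := by
      rw [← Finset.sum_add_distrib]
      exact Finset.sum_congr rfl (fun B hB => fib_split F e B (hPe B hB))
    have c4 : ∑ B ∈ S, (fib F (e + 1) (insert e B)).card ≤ ∑ B ∈ S, (fib F e B).card := by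
      apply Finset.sum_le_sum
      intro B hB
      rw [fib_split F e B (hQe B (Finset.mem_sdiff.mp (hST hB)).1)]
      omega
    have c5 : ∑ B ∈ Q, (fib F (e + 1) (insert e B)).card =
        ∑ B ∈ Q \ P, (fib F (e + 1) (insert e B)).card +
        ∑ B ∈ P, (fib F (e + 1) (insert e B)).card := (Finset.sum_sdiff hPQ).symm
    have c6 : ∑ B ∈ Q \ P, (fib F (e + 1) (insert e B)).card =
        ∑ B ∈ (Q \ P) \ S, (fib F (e + 1) (insert e B)).card +
        ∑ B ∈ S, (fib F (e + 1) (insert e B)).card := (Finset.sum_sdiff hST).symm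
    have c7 : ∑ B ∈ (Q \ P) \ S, (fib F (e + 1) (insert e B)).card ≤
        ((Q \ P) \ S).card * 2 ^ (N - (e + 1)) := by
      rw [← smul_eq_mul, ← Finset.sum_const]
      apply Finset.sum_le_sum
      intro B hB
      apply card_fib_le N (e + 1) heN F hF
      exact hins (hQe B (Finset.mem_sdiff.mp (Finset.mem_sdiff.mp hB).1).1)
    omega
  have hcdiff : ((Q \ P) \ S).card + S.card = (Q \ P).card := Finset.card_sdiff_add_card_eq_card hST
  -- shift
  have hPSe : P ∪ S ⊆ (range e).powerset := by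
    intro A hA
    rcases Finset.mem_union.mp hA with h | h
    · exact Finset.mem_powerset.mpr (hPe A h)
    · exact Finset.mem_powerset.mpr (hQe A (Finset.mem_sdiff.mp (hST h)).1)
  have hPSTW : ThreeWise s (P ∪ S) := by
    have hsubQ : ∀ A ∈ P ∪ S, A ∈ Q := by
      intro A hA
      rcases Finset.mem_union.mp hA with h | h
      · exact hPQ h
      · exact (Finset.mem_sdiff.mp (hST h)).1
    intro A hA B hB C hC
    have hA' := hsubQ A hA
    have hB' := hsubQ B hB
    have hC' := hsubQ C hC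
    rcases Finset.mem_union.mp hA with hA1 | hA1
    · exact h1 A hA1 B hB' C hC'
    · rcases Finset.mem_union.mp hB with hB1 | hB1
      · have := h1 B hB1 A hA' C hC'
        rwa [Finset.inter_comm B A] at this
      · rcases Finset.mem_union.mp hC with hC1 | hC1
        · have := h1 C hC1 A hA' B hB'
          have e1 : C ∩ A ∩ B = A ∩ B ∩ C := by
            ext x; simp only [Finset.mem_inter]; tauto
          rwa [e1] at this
        · exact hSTW A hA1 B hB1 C hC1
  obtain ⟨G, ⟨hG1, hG2, hG3, hG4⟩, hG5⟩ := shift_exists e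
    (fun G => G ⊆ (range e).powerset ∧ ThreeWise s G ∧ G.card = (P ∪ S).card ∧
      cap F e (P ∪ S) ≤ cap F e G)
    (by
      rintro G ⟨g1, g2, g3, g4⟩ i j hij hje
      refine ⟨comp_sub i j e (by omega) G g1, threeWise_comp s i j (by omega) G g2,
        by rw [card_comp]; exact g3, le_trans g4 ?_⟩
      unfold cap
      apply sum_comp_ge i j G (fun B => (fib F e B).card)
      intro A hjA hiA
      exact fib_card_mono_sw N e F hFS (by omega) A i j hij hje hjA hiA)
    _ (P ∪ S) ⟨hPSe, hPSTW, rfl, le_rfl⟩ rfl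
  have hGupc := sub_upc e G hG1
  have hcardG := Finset.card_le_card hGupc
  refine ⟨upc e G, upc_sub e G, threeWise_upc e s G hG2, upSet_upc e G, shifted_upc e G hG5,
    by omega, ?_, ?_⟩
  · have d1 : ((Q \ P) \ S).card ≤ ((range e).powerset.filter
        (fun A => 2 * e + s ≤ 3 * A.card + 1)).card := by
      have : (Q \ P).filter (fun A => 2 * e + s ≤ 3 * A.card + 1) ⊆
          (range e).powerset.filter (fun A => 2 * e + s ≤ 3 * A.card + 1) := by
        apply Finset.filter_subset_filter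
        intro A hA
        exact Finset.mem_powerset.mpr (hQe A (Finset.mem_sdiff.mp hA).1)
      have := Finset.card_le_card this
      omega
    have d2 := big_card e s hs
    have d3 : (((Q \ P) \ S).card : ℝ) ≤ (9 / 10 : ℝ) ^ (e / 3) * 2 ^ e :=
      le_trans (by exact_mod_cast d1) d2
    have d4 : (cap F (e + 1) J : ℝ) ≤ cap F e (P ∪ S) +
        (((Q \ P) \ S).card : ℝ) * 2 ^ (N - (e + 1)) := by exact_mod_cast hcap
    have d5 : (cap F e (P ∪ S) : ℝ) ≤ cap F e (upc e G) := by
      exact_mod_cast le_trans hG4 (cap_le_cap F e G _ hGupc)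
    have d6 : (2 : ℝ) ^ N = 2 ^ e * 2 ^ (N - (e + 1)) * 2 := by
      rw [← pow_add, ← pow_succ]
      congr 1; omega
    have d7 : (((Q \ P) \ S).card : ℝ) * 2 ^ (N - (e + 1)) ≤
        (9 / 10 : ℝ) ^ (e / 3) * 2 ^ e * 2 ^ (N - (e + 1)) :=
      mul_le_mul_of_nonneg_right d3 (by positivity)
    have d8 : 0 ≤ (9 / 10 : ℝ) ^ (e / 3) * 2 ^ e * 2 ^ (N - (e + 1)) := by positivity
    rw [d6]
    nlinarith
  · intro heq
    have hz : (Q \ P).card = 0 := by
      by_contra hne
      have := hS2 (Nat.pos_of_ne_zero hne)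
      omega
    have hz2 : ((Q \ P) \ S).card = 0 := by omega
    rw [hz2] at hcap
    have := cap_le_cap F e G _ hGupc
    omega

end Pool.Agent.H122R3.TW
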