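import Pool.Agent.H122R3.TwE

namespace Pool.Agent.H122R3.TW

open Finset

open Classical in
/-- the maximum size of a family of subsets of `[0,n)` with property `P` -/
noncomputable def mx (P : Finset (Finset ℕ) → Prop) (n : ℕ) : ℕ :=
  (((range n).powerset.powerset).filter P).sup Finset.card

lemma le_mx (P : Finset (Finset ℕ) → Prop) (n : ℕ) (F : Finset (Finset ℕ))
    (hF : F ⊆ (range n).powerset) (hP : P F) : F.card ≤ mx P n := by
  classical
  unfold mx
  apply Finset.le_sup (f := Finset.card)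
  rw [Finset.mem_filter, Finset.mem_powerset]
  exact ⟨hF, hP⟩

lemma exists_mx (P : Finset (Finset ℕ) → Prop) (n : ℕ) (h0 : P ∅) :
    ∃ F ⊆ (range n).powerset, P F ∧ F.card = mx P n := by
  classical
  have hne : (((range n).powerset.powerset).filter P).Nonempty :=
    ⟨∅, by rw [Finset.mem_filter, Finset.mem_powerset]; exact ⟨Finset.empty_subset _, h0⟩⟩
  obtain ⟨F, hF, h⟩ := Finset.exists_mem_eq_sup _ hne Finset.card
  rw [Finset.mem_filter, Finset.mem_powerset] at hF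
  exact ⟨F, hF.1, hF.2, h.symm⟩

lemma threeWise_empty (s : ℕ) : ThreeWise s ∅ := by
  intro A hA; simp at hA

lemma bound_shifted (s : ℕ) (hs : 1 ≤ s) (n : ℕ) (hn : 9 * s ≤ n) :
    ∀ J : Finset (Finset ℕ), J ⊆ (range n).powerset → ThreeWise s J → UpSet n J → Shifted n J →
      J.card * 2 ^ (9 * s) ≤ mx (ThreeWise s) (9 * s) * 2 ^ n := by
  induction n, hn using Nat.le_induction with
  | base =>
    intro J h1 h2 _ _
    exact Nat.mul_le_mul_right _ (le_mx _ _ J h1 h2)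
  | succ e he ih =>
    intro J h1 h2 h3 h4
    obtain ⟨J₁, k1, k2, k3, k4, k5, _, _⟩ := descent s hs (e + 1) ∅ (Finset.empty_subset _)
      (by intro A hA; simp at hA) e he le_rfl J h1 h2 h3 h4
    have := ih J₁ k1 k2 k3 k4
    rw [pow_succ 2 e]
    calc J.card * 2 ^ (9 * s) ≤ (2 * J₁.card) * 2 ^ (9 * s) := Nat.mul_le_mul_right _ k5
      _ = 2 * (J₁.card * 2 ^ (9 * s)) := by ring
      _ ≤ 2 * (mx (ThreeWise s) (9 * s) * 2 ^ e) := Nat.mul_le_mul_left 2 this
      _ = _ := by ring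

lemma exists_shifted (N s t : ℕ) (F : Finset (Finset ℕ)) (hF : F ⊆ (range N).powerset)
    (hT : ThreeWise s F) (hP : PairWise t F) :
    ∃ G, G ⊆ (range N).powerset ∧ ThreeWise s G ∧ PairWise t G ∧ UpSet N G ∧ Shifted N G ∧
      F.card ≤ G.card := by
  obtain ⟨G, ⟨g1, g2, g3, g4⟩, g5⟩ := shift_exists N
    (fun G => G ⊆ (range N).powerset ∧ ThreeWise s G ∧ PairWise t G ∧ G.card = F.card)
    (by
      rintro G ⟨g1, g2, g3, g4⟩ i j hij hjN
      exact ⟨comp_sub i j N (by omega) G g1, threeWise_comp s i j (by omega) G g2,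
        pairWise_comp t i j N (by omega) (by omega) G g1 g3, by rw [card_comp]; exact g4⟩)
    _ F ⟨hF, hT, hP, rfl⟩ rfl
  refine ⟨upc N G, upc_sub N G, threeWise_upc N s G g2, pairWise_upc N t G g3, upSet_upc N G,
    shifted_upc N G g5, ?_⟩
  rw [← g4]
  exact Finset.card_le_card (sub_upc N G g1)

lemma bound_all (s : ℕ) (hs : 1 ≤ s) (n : ℕ) (hn : 9 * s ≤ n) (F : Finset (Finset ℕ))
    (hF : F ⊆ (range n).powerset) (hT : ThreeWise s F) :
    F.card * 2 ^ (9 * s) ≤ mx (ThreeWise s) (9 * s) * 2 ^ n := by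
  obtain ⟨G, g1, g2, _, g4, g5, g6⟩ := exists_shifted n s 0 F hF hT
    (fun _ _ _ _ => Nat.zero_le _)
  exact le_trans (Nat.mul_le_mul_right _ g6) (bound_shifted s hs n hn G g1 g2 g4 g5)

/-- iterated descent -/
lemma iter (s : ℕ) (hs : 1 ≤ s) (N : ℕ) (F : Finset (Finset ℕ))
    (hF : F ⊆ (range N).powerset) (hFS : Shifted N F) (q : ℕ) (hq : 9 * s ≤ q)
    (M : ℕ) (hM : q ≤ M) : M ≤ N → ∀ J : Finset (Finset ℕ), J ⊆ (range M).powerset →
      ThreeWise s J → UpSet M J → Shifted M J →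
    ∃ J₁, J₁ ⊆ (range q).powerset ∧ ThreeWise s J₁ ∧ UpSet q J₁ ∧ Shifted q J₁ ∧
      J.card * 2 ^ q ≤ J₁.card * 2 ^ M ∧
      (cap F M J : ℝ) ≤ cap F q J₁ + ((M : ℝ) - q) * ((9 / 10 : ℝ) ^ (q / 3) * 2 ^ N) ∧
      (J.card * 2 ^ q = J₁.card * 2 ^ M → cap F M J ≤ cap F q J₁) := by
  induction M, hM using Nat.le_induction with
  | base =>
    intro _ J h1 h2 h3 h4
    exact ⟨J, h1, h2, h3, h4, le_rfl, by simp, fun _ => le_rfl⟩
  | succ e he ih =>
    intro heN J h1 h2 h3 h4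
    obtain ⟨J₁, k1, k2, k3, k4, k5, k6, k7⟩ := descent s hs N F hF hFS e (by omega) heN J h1 h2 h3 h4
    obtain ⟨J₂, l1, l2, l3, l4, l5, l6, l7⟩ := ih (by omega) J₁ k1 k2 k3 k4
    have hp : (0 : ℕ) < 2 ^ q := by positivity
    have hp2 : (0 : ℕ) < 2 ^ e := by positivity
    have m1 : J.card * 2 ^ q ≤ 2 * (J₁.card * 2 ^ q) := by
      calc J.card * 2 ^ q ≤ (2 * J₁.card) * 2 ^ q := Nat.mul_le_mul_right _ k5
        _ = _ := by ring
    have m2 : J₂.card * 2 ^ (e + 1) = 2 * (J₂.card * 2 ^ e) := by ring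
    refine ⟨J₂, l1, l2, l3, l4, by omega, ?_, ?_⟩
    · have m3 : (9 / 10 : ℝ) ^ (e / 3) ≤ (9 / 10 : ℝ) ^ (q / 3) :=
        pow_le_pow_of_le_one (by norm_num) (by norm_num) (Nat.div_le_div_right he)
      have m4 : (9 / 10 : ℝ) ^ (e / 3) * 2 ^ N ≤ (9 / 10 : ℝ) ^ (q / 3) * 2 ^ N :=
        mul_le_mul_of_nonneg_right m3 (by positivity)
      push_cast
      have : ((e : ℝ) + 1 - q) * ((9 / 10 : ℝ) ^ (q / 3) * 2 ^ N) =
        ((e : ℝ) - q) * ((9 / 10 : ℝ) ^ (q / 3) * 2 ^ N) + (9 / 10 : ℝ) ^ (q / 3) * 2 ^ N := by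
        ring
      rw [this]
      linarith
    · intro heq
      have m5 : J.card * 2 ^ q = (2 * J₁.card) * 2 ^ q := by
        have : (2 * J₁.card) * 2 ^ q = 2 * (J₁.card * 2 ^ q) := by ring
        omega
      have m6 : J.card = 2 * J₁.card := Nat.eq_of_mul_eq_mul_right hp m5
      have m7 : J₁.card * 2 ^ q = J₂.card * 2 ^ e := by omega
      exact le_trans (k7 m6) (l7 m7)

/-- walks going high after `M` -/
def Bad (M N s : ℕ) (X : Finset ℕ) : Prop :=
  ∃ j, M < j ∧ j ≤ N ∧ 2 * j + s ≤ 3 * (X ∩ range j).card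

open Classical in
lemma bad_card (M N s : ℕ) :
    (((range N).powerset.filter (fun X => Bad M N s X)).card : ℝ) ≤
      (9 / 10 : ℝ) ^ (M / 3) * 2 ^ N := by
  have h1 := tail_bound N N 0 ∅ ((M / 3 : ℕ) : ℤ) (by omega) (by simp)
  rw [zpow_natCast] at h1
  refine le_trans ?_ h1
  have : (range N).powerset.filter (fun X => Bad M N s X) ⊆
      (fib (range N).powerset 0 ∅).filter (fun X => Tail N 0 ((M / 3 : ℕ) : ℤ) X) := by
    intro A hA
    rw [Finset.mem_filter] at hA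
    obtain ⟨hA1, j, hj1, hj2, hj3⟩ := hA
    rw [Finset.mem_filter, mem_fib]
    refine ⟨⟨hA1, by simp⟩, j, by omega, hj2, ?_⟩
    rw [← Finset.range_eq_Ico]
    have h3 : 3 * j + M / 3 ≤ 5 * (A ∩ range j).card := by omega
    have h4 : (3 : ℤ) * j + ((M / 3 : ℕ) : ℤ) ≤ 5 * (A ∩ range j).card := by exact_mod_cast h3
    simpa using h4
  exact_mod_cast Finset.card_le_card this

lemma half_fib (N M t : ℕ) (F : Finset (Finset ℕ)) (hF : F ⊆ (range N).powerset)
    (hP : PairWise t F) (hMt : M < t) (hMN : M ≤ N) (B : Finset ℕ) (hB : B ⊆ range M) :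
    2 * (fib F M B).card ≤ 2 ^ (N - M) := by
  by_contra hcon
  push Not at hcon
  have hsub : fib F M B ⊆ fib (range N).powerset M B := Finset.filter_subset_filter _ hF
  obtain ⟨Y, hY, Z, hZ, h⟩ := exists_disj N M hMN B B hB (fib F M B) (fib F M B) hsub hsub
    (by omega)
  have h1 := hP Y (mem_fib.mp hY).1 Z (mem_fib.mp hZ).1
  have h2 := Finset.card_le_card h
  rw [Finset.card_range] at h2
  omega

/-- the 3-wise intersecting family on the window -/
lemma window (s : ℕ) (hs : 1 ≤ s) (N M t : ℕ) (hMN : M ≤ N) (hMt : M < t)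
    (F : Finset (Finset ℕ)) (hF : F ⊆ (range N).powerset) (hT : ThreeWise s F)
    (hP : PairWise t F) (hS : Shifted N F) :
    ∃ J, J ⊆ (range M).powerset ∧ ThreeWise s J ∧ UpSet M J ∧ Shifted M J ∧
      (F.card : ℝ) ≤ cap F M J + (9 / 10 : ℝ) ^ (M / 3) * 2 ^ N ∧
      (F.card : ℝ) ≤ J.card * 2 ^ (N - M) / 2 + (9 / 10 : ℝ) ^ (M / 3) * 2 ^ N := by
  classical
  set Fg := F.filter (fun X => ¬ Bad M N s X) with hFg
  set S := Fg.image (fun X => X ∩ range M) with hSdef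
  have memFg : ∀ {X}, X ∈ Fg ↔ X ∈ F ∧ ¬ Bad M N s X := by
    intro X; rw [hFg, Finset.mem_filter]
  have hSM : S ⊆ (range M).powerset := by
    intro A hA
    obtain ⟨X, _, rfl⟩ := Finset.mem_image.mp hA
    exact Finset.mem_powerset.mpr Finset.inter_subset_right
  have hFe : ∀ A ∈ F, A ⊆ range N := fun A hA => Finset.mem_powerset.mp (hF hA)
  have hST : ThreeWise s S := by
    intro A hA B hB C hC
    obtain ⟨X, hX, rfl⟩ := Finset.mem_image.mp hA
    obtain ⟨Y, hY, rfl⟩ := Finset.mem_image.mp hB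
    obtain ⟨Z, hZ, rfl⟩ := Finset.mem_image.mp hC
    obtain ⟨hX1, hX2⟩ := memFg.mp hX
    obtain ⟨hY1, hY2⟩ := memFg.mp hY
    obtain ⟨hZ1, hZ2⟩ := memFg.mp hZ
    obtain ⟨j, hj, hj2⟩ := frankl N s hs F hFe hS hT _ X hX1 Y hY1 Z hZ1 rfl
    have hjM : j ≤ M := by
      by_contra hcon
      push Not at hcon
      have b1 : ¬ (2 * j + s ≤ 3 * (X ∩ range j).card) := fun h => hX2 ⟨j, hcon, hj, h⟩
      have b2 : ¬ (2 * j + s ≤ 3 * (Y ∩ range j).card) := fun h => hY2 ⟨j, hcon, hj, h⟩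
      have b3 : ¬ (2 * j + s ≤ 3 * (Z ∩ range j).card) := fun h => hZ2 ⟨j, hcon, hj, h⟩
      omega
    have h1 := sum_le X Y Z j
    refine le_trans (show s ≤ (X ∩ Y ∩ Z ∩ range j).card by omega) (Finset.card_le_card ?_)
    intro x hx
    simp only [Finset.mem_inter, Finset.mem_range] at hx ⊢
    have : x < M := by omega
    tauto
  have hSS : Shifted M S := by
    intro A hA i j hij hjM hjA hiA
    obtain ⟨X, hX, rfl⟩ := Finset.mem_image.mp hA
    obtain ⟨hX1, hX2⟩ := memFg.mp hX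
    have hjX : j ∈ X := (Finset.mem_inter.mp hjA).1
    have hiX : i ∉ X := fun h => hiA (Finset.mem_inter.mpr ⟨h, Finset.mem_range.mpr (by omega)⟩)
    refine Finset.mem_image.mpr ⟨insert i (X.erase j), memFg.mpr
      ⟨hS X hX1 i j hij (by omega) hjX hiX, ?_⟩, ?_⟩
    · rintro ⟨k, hk1, hk2, hk3⟩
      apply hX2
      refine ⟨k, hk1, hk2, le_trans hk3 (Nat.mul_le_mul_left 3 ?_)⟩
      have h4 : insert i (X.erase j) ∩ range k ⊆ insert i ((X ∩ range k).erase j) := by
        intro x hx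
        simp only [Finset.mem_inter, Finset.mem_insert, Finset.mem_erase] at hx ⊢
        tauto
      have h5 := Finset.card_le_card h4
      have h6 := Finset.card_insert_le i ((X ∩ range k).erase j)
      have h7 : j ∈ X ∩ range k := Finset.mem_inter.mpr ⟨hjX, Finset.mem_range.mpr (by omega)⟩
      have h8 := Finset.card_erase_of_mem h7
      have h9 : 0 < (X ∩ range k).card := Finset.card_pos.mpr ⟨j, h7⟩
      omega
    · ext x
      simp only [Finset.mem_inter, Finset.mem_insert, Finset.mem_erase, Finset.mem_range]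
      constructor
      · rintro ⟨h | h, hx⟩
        · exact Or.inl h
        · exact Or.inr ⟨h.1, h.2, hx⟩
      · rintro (h | h)
        · exact ⟨Or.inl h, by omega⟩
        · exact ⟨Or.inr ⟨h.1, h.2.1⟩, h.2.2⟩
  have hsplit : F.card = (F.filter (fun X => Bad M N s X)).card + Fg.card :=
    (Finset.card_filter_add_card_filter_not (s := F) (fun X => Bad M N s X)).symm
  have hbad : ((F.filter (fun X => Bad M N s X)).card : ℝ) ≤ (9 / 10 : ℝ) ^ (M / 3) * 2 ^ N := by
    refine le_trans ?_ (bad_card M N s)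
    exact_mod_cast Finset.card_le_card (Finset.filter_subset_filter _ hF)
  have hgood : Fg.card ≤ cap F M S := by
    unfold cap
    rw [Finset.card_eq_sum_card_image (fun X => X ∩ range M) Fg]
    apply Finset.sum_le_sum
    intro B _
    apply Finset.card_le_card
    intro X hX
    rw [Finset.mem_filter] at hX
    exact mem_fib.mpr ⟨(memFg.mp hX.1).1, hX.2⟩
  have hhalf : 2 * cap F M (upc M S) ≤ (upc M S).card * 2 ^ (N - M) := by
    unfold cap
    rw [Finset.mul_sum, ← smul_eq_mul, ← Finset.sum_const]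
    apply Finset.sum_le_sum
    intro B hB
    exact half_fib N M t F hF hP hMt hMN B (Finset.mem_powerset.mp (upc_sub M S hB))
  have hcc := cap_le_cap F M S _ (sub_upc M S hSM)
  refine ⟨upc M S, upc_sub M S, threeWise_upc M s S hST, upSet_upc M S, shifted_upc M S hSS, ?_, ?_⟩
  · have : (Fg.card : ℝ) ≤ cap F M (upc M S) := by exact_mod_cast le_trans hgood hcc
    rw [hsplit]
    push_cast
    linarith
  · have h1 : (Fg.card : ℝ) ≤ cap F M (upc M S) := by exact_mod_cast le_trans hgood hcc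
    have h2 : 2 * (cap F M (upc M S) : ℝ) ≤ (upc M S).card * 2 ^ (N - M) := by
      exact_mod_cast hhalf
    rw [hsplit]
    push_cast
    linarith

/-- stability: a family of density more than half the optimum is mostly captured
by an optimal family on a bounded window -/
lemma stability (s : ℕ) (hs : 1 ≤ s) (q : ℕ) (hq : 9 * s ≤ q) (hq5 : 5 ≤ q) (N t : ℕ)
    (ht : 24 * q < t) (hN : 24 * q ≤ N)
    (F : Finset (Finset ℕ)) (hF : F ⊆ (range N).powerset) (hT : ThreeWise s F)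
    (hP : PairWise t F) (hS : Shifted N F)
    (hbig : mx (ThreeWise s) (9 * s) * 2 ^ N < 2 * (F.card * 2 ^ (9 * s))) :
    ∃ J, J ⊆ (range (9 * s)).powerset ∧ ThreeWise s J ∧
      J.card = mx (ThreeWise s) (9 * s) ∧
      (F.card : ℝ) ≤ cap F (9 * s) J +
        (24 * (q : ℝ) + 1) * ((9 / 10 : ℝ) ^ (q / 3) * 2 ^ N) := by
  obtain ⟨JM, a1, a2, a3, a4, a5, a6⟩ := window s hs N (24 * q) t hN ht F hF hT hP hS
  obtain ⟨Jq, b1, b2, b3, b4, b5, b6, _⟩ := iter s hs N F hF hS q hq (24 * q) (by omega) hN JM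
    a1 a2 a3 a4
  obtain ⟨J0, c1, c2, c3, c4, c5, _, c7⟩ := iter s hs N F hF hS (9 * s) le_rfl q hq (by omega) Jq
    b1 b2 b3 b4
  set m := mx (ThreeWise s) (9 * s) with hm
  have hJ0m : J0.card ≤ m := le_mx _ _ J0 c1 c2
  -- exact optimality at level q
  have hopt : m * 2 ^ q ≤ Jq.card * 2 ^ (9 * s) := by
    by_contra hcon
    push Not at hcon
    obtain ⟨r, hr⟩ : ∃ r, q = 9 * s + r := ⟨q - 9 * s, by omega⟩
    have e1 : (2 : ℕ) ^ q = 2 ^ (9 * s) * 2 ^ r := by rw [hr, pow_add]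
    have e2 : Jq.card < m * 2 ^ r := by
      have : Jq.card * 2 ^ (9 * s) < (m * 2 ^ r) * 2 ^ (9 * s) := by
        calc _ < m * 2 ^ q := hcon
          _ = _ := by rw [e1]; ring
      exact Nat.lt_of_mul_lt_mul_right this
    have e3 : (Jq.card + 1) * 2 ^ (9 * s) ≤ m * 2 ^ q := by
      rw [e1]
      calc (Jq.card + 1) * 2 ^ (9 * s) ≤ (m * 2 ^ r) * 2 ^ (9 * s) := Nat.mul_le_mul_right _ e2
        _ = _ := by ring
    -- real inequalities
    have f1 : ((Jq.card : ℝ) + 1) * 2 ^ (9 * s) ≤ m * 2 ^ q := by exact_mod_cast e3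
    have f2 : (m : ℝ) * 2 ^ N < 2 * (F.card * 2 ^ (9 * s)) := by exact_mod_cast hbig
    have f3 : (JM.card : ℝ) * 2 ^ q ≤ Jq.card * 2 ^ (24 * q) := by exact_mod_cast b5
    have f4 : (2 : ℝ) ^ N = 2 ^ (24 * q) * 2 ^ (N - 24 * q) := by
      rw [← pow_add]; congr 1; omega
    have f5 : 24 * q / 3 = 8 * q := by omega
    rw [f5] at a6
    set D : ℝ := 2 ^ (N - 24 * q) with hD
    have hDpos : 0 < D := by positivity
    set x : ℝ := 2 ^ (24 * q) with hx
    have hxpos : 0 < x := by positivity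
    set y : ℝ := 2 ^ q with hy
    have hypos : 0 < y := by positivity
    set z : ℝ := 2 ^ (9 * s) with hz
    have hzpos : 0 < z := by positivity
    set b : ℝ := (9 / 10 : ℝ) ^ (8 * q) with hb
    rw [f4] at f2 a6
    -- 2 |F| ≤ |JM| D + 2 b x D
    have g1 : 2 * (F.card : ℝ) * y ≤ Jq.card * x * D + 2 * b * x * D * y := by
      have : 2 * (F.card : ℝ) ≤ JM.card * D + 2 * (b * (x * D)) := by linarith
      calc 2 * (F.card : ℝ) * y ≤ (JM.card * D + 2 * (b * (x * D))) * y :=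
            mul_le_mul_of_nonneg_right this hypos.le
        _ = (JM.card * y) * D + 2 * b * x * D * y := by ring
        _ ≤ (Jq.card * x) * D + 2 * b * x * D * y := by
            have := mul_le_mul_of_nonneg_right f3 hDpos.le
            linarith
        _ = _ := by ring
    have g2 : (m : ℝ) * (x * D) * y < (Jq.card * x * D + 2 * b * x * D * y) * z := by
      calc (m : ℝ) * (x * D) * y < (2 * (F.card * z)) * y := mul_lt_mul_of_pos_right f2 hypos
        _ = (2 * F.card * y) * z := by ring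
        _ ≤ _ := mul_le_mul_of_nonneg_right g1 hzpos.le
    have g3 : ((Jq.card : ℝ) + 1) * z * (x * D) ≤ (m * y) * (x * D) :=
      mul_le_mul_of_nonneg_right f1 (by positivity)
    have g4 : z * (x * D) < 2 * b * y * (z * (x * D)) := by nlinarith
    have g5 : 1 < 2 * b * y := by
      have hpos : 0 < z * (x * D) := by positivity
      by_contra hle
      push Not at hle
      nlinarith
    -- contradiction with q ≥ 5
    have g6 : 2 * b * y ≤ 1 := by
      have h1 : b * y = ((9 / 10 : ℝ) ^ 8 * 2) ^ q := by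
        rw [hb, hy, pow_mul, ← mul_pow]
      have h2 : ((9 / 10 : ℝ) ^ 8 * 2) ^ q ≤ ((9 / 10 : ℝ) ^ 8 * 2) ^ 5 :=
        pow_le_pow_of_le_one (by norm_num) (by norm_num) hq5
      have h3 : ((9 / 10 : ℝ) ^ 8 * 2) ^ 5 ≤ 1 / 2 := by norm_num
      have : b * y ≤ 1 / 2 := by rw [h1]; linarith
      linarith
    linarith
  have hub := bound_shifted s hs q hq Jq b1 b2 b3 b4
  have hJqeq : Jq.card * 2 ^ (9 * s) = m * 2 ^ q := le_antisymm hub hopt
  have hp : (0 : ℕ) < 2 ^ q := by positivity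
  have hJ0 : J0.card = m := by
    apply le_antisymm hJ0m
    have : m * 2 ^ q ≤ J0.card * 2 ^ q := by rw [← hJqeq]; exact c5
    exact Nat.le_of_mul_le_mul_right this hp
  have hcap := c7 (by rw [hJqeq, hJ0])
  refine ⟨J0, c1, c2, hJ0, ?_⟩
  have hc : (cap F q Jq : ℝ) ≤ cap F (9 * s) J0 := by exact_mod_cast hcap
  have h1 : (9 / 10 : ℝ) ^ (24 * q / 3) ≤ (9 / 10 : ℝ) ^ (q / 3) :=
    pow_le_pow_of_le_one (by norm_num) (by norm_num) (by omega)
  have h2 : (9 / 10 : ℝ) ^ (24 * q / 3) * 2 ^ N ≤ (9 / 10 : ℝ) ^ (q / 3) * 2 ^ N :=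
    mul_le_mul_of_nonneg_right h1 (by positivity)
  have h3 : (0 : ℝ) ≤ (9 / 10 : ℝ) ^ (q / 3) * 2 ^ N := by positivity
  push_cast at b6
  have h4 : (24 * (q : ℝ) - q) * ((9 / 10 : ℝ) ^ (q / 3) * 2 ^ N) ≤
      24 * (q : ℝ) * ((9 / 10 : ℝ) ^ (q / 3) * 2 ^ N) := by
    apply mul_le_mul_of_nonneg_right _ h3
    have : (0 : ℝ) ≤ q := by positivity
    linarith
  have h5 : (24 * (q : ℝ) + 1) * ((9 / 10 : ℝ) ^ (q / 3) * 2 ^ N) =
    24 * (q : ℝ) * ((9 / 10 : ℝ) ^ (q / 3) * 2 ^ N) + (9 / 10 : ℝ) ^ (q / 3) * 2 ^ N := by ring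
  rw [h5]
  linarith

end Pool.Agent.H122R3.TW
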