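import Pool.Agent.H122R3.TwF

namespace Pool.Agent.H122R3.TW

open Finset

/-- a heavy fibre has a member with a tame walk -/
lemma exists_tame (N a : ℕ) (haN : a ≤ N) (F : Finset (Finset ℕ)) (hF : F ⊆ (range N).powerset)
    (B : Finset ℕ) (hB : B ⊆ range a) (K : ℕ)
    (h : (9 / 10 : ℝ) ^ K * 2 ^ (N - a) < (fib F a B).card) :
    ∃ X ∈ F, X ∩ range a = B ∧
      ∀ j, a ≤ j → j ≤ N → 5 * (X ∩ Ico a j).card < 3 * (j - a) + K := by
  classical
  by_contra hcon
  push Not at hcon
  have h1 := tail_bound N (N - a) a B (K : ℤ) (by omega) hB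
  rw [zpow_natCast] at h1
  have h2 : fib F a B ⊆ (fib (range N).powerset a B).filter (fun X => Tail N a (K : ℤ) X) := by
    intro X hX
    obtain ⟨hX1, hX2⟩ := mem_fib.mp hX
    rw [Finset.mem_filter, mem_fib]
    obtain ⟨j, hj1, hj2, hj3⟩ := hcon X hX1 hX2
    refine ⟨⟨hF hX1, hX2⟩, j, hj1, hj2, ?_⟩
    zify [hj1] at hj3
    exact hj3
  have h3 : ((fib F a B).card : ℝ) ≤
      (((fib (range N).powerset a B).filter (fun X => Tail N a (K : ℤ) X)).card : ℝ) := by
    exact_mod_cast Finset.card_le_card h2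
  linarith

lemma fib_window (F : Finset (Finset ℕ)) (a b : ℕ) (hab : a ≤ b) (B : Finset ℕ)
    (hB : B ⊆ range a) :
    (fib F a B).card = ∑ E ∈ (Ico a b).powerset, (fib F b (B ∪ E)).card := by
  classical
  rw [Finset.card_eq_sum_card_fiberwise (f := fun X => X ∩ Ico a b) (s := fib F a B)
    (t := (Ico a b).powerset)]
  · apply Finset.sum_congr rfl
    intro E hE
    congr 1
    ext X
    rw [Finset.mem_filter, mem_fib, mem_fib]
    rw [Finset.mem_powerset] at hE
    constructor
    · rintro ⟨⟨h1, h2⟩, h3⟩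
      refine ⟨h1, ?_⟩
      rw [← h2, ← h3]
      ext x
      simp only [Finset.mem_inter, Finset.mem_union, Finset.mem_range, Finset.mem_Ico]
      constructor
      · rintro ⟨h, h'⟩
        by_cases hx : x < a
        · exact Or.inl ⟨h, hx⟩
        · exact Or.inr ⟨h, by omega, h'⟩
      · rintro (⟨h, h'⟩ | ⟨h, h'⟩)
        · exact ⟨h, by omega⟩
        · exact ⟨h, h'.2⟩
    · rintro ⟨h1, h2⟩
      have h3 : ∀ x, (x ∈ X ∧ x < b) ↔ (x ∈ B ∨ x ∈ E) := by
        intro x
        have := Finset.ext_iff.mp h2 x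
        simpa only [Finset.mem_inter, Finset.mem_union, Finset.mem_range] using this
      refine ⟨⟨h1, ?_⟩, ?_⟩
      · ext x
        rw [Finset.mem_inter, Finset.mem_range]
        constructor
        · rintro ⟨h, h'⟩
          rcases (h3 x).mp ⟨h, by omega⟩ with h4 | h4
          · exact h4
          · have := (Finset.mem_Ico.mp (hE h4)).1; omega
        · intro h
          have h4 := Finset.mem_range.mp (hB h)
          exact ⟨((h3 x).mpr (Or.inl h)).1, h4⟩
      · ext x
        rw [Finset.mem_inter, Finset.mem_Ico]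
        constructor
        · rintro ⟨h, h'⟩
          rcases (h3 x).mp ⟨h, h'.2⟩ with h4 | h4
          · have := Finset.mem_range.mp (hB h4); omega
          · exact h4
        · intro h
          exact ⟨((h3 x).mpr (Or.inr h)).1, Finset.mem_Ico.mp (hE h)⟩
  · intro X _
    simp

lemma heavy_two_int (N a b t : ℕ) (hab : a ≤ b) (hbN : b ≤ N) (F : Finset (Finset ℕ))
    (hF : F ⊆ (range N).powerset) (hP : PairWise t F) (ht : a + 2 ≤ t) (B : Finset ℕ)
    (hB : B ⊆ range a) (H : Finset (Finset ℕ))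
    (hH : ∀ E ∈ H, E ⊆ Ico a b ∧ 2 ^ (N - b) < 2 * (fib F b (B ∪ E)).card) :
    (2 * (b - a) + 1) * H.card ≤ (b - a) * 2 ^ (b - a) := by
  apply two_int_bound a b hab H (fun E hE => (hH E hE).1)
  intro E hE E' hE'
  obtain ⟨h1, h2⟩ := hH E hE
  obtain ⟨h3, h4⟩ := hH E' hE'
  have hBE : B ∪ E ⊆ range b := by
    intro x hx
    rcases Finset.mem_union.mp hx with h | h
    · have := Finset.mem_range.mp (hB h); exact Finset.mem_range.mpr (by omega)
    · exact Finset.mem_range.mpr (Finset.mem_Ico.mp (h1 h)).2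
  have hBE' : B ∪ E' ⊆ range b := by
    intro x hx
    rcases Finset.mem_union.mp hx with h | h
    · have := Finset.mem_range.mp (hB h); exact Finset.mem_range.mpr (by omega)
    · exact Finset.mem_range.mpr (Finset.mem_Ico.mp (h3 h)).2
  obtain ⟨Y, hY, Z, hZ, h5⟩ := exists_disj N b hbN (B ∪ E) (B ∪ E') hBE'
    (fib F b (B ∪ E)) (fib F b (B ∪ E')) (Finset.filter_subset_filter _ hF)
    (Finset.filter_subset_filter _ hF) (by omega)
  obtain ⟨hY1, hY2⟩ := mem_fib.mp hY
  obtain ⟨hZ1, hZ2⟩ := mem_fib.mp hZ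
  have h6 := hP Y hY1 Z hZ1
  have h7 : Y ∩ Z ⊆ range a ∪ (E ∩ E') := by
    intro x hx
    have hxb := h5 hx
    rw [Finset.mem_inter] at hx
    have e1 : x ∈ B ∪ E := by rw [← hY2]; exact Finset.mem_inter.mpr ⟨hx.1, hxb⟩
    have e2 : x ∈ B ∪ E' := by rw [← hZ2]; exact Finset.mem_inter.mpr ⟨hx.2, hxb⟩
    rw [Finset.mem_union] at e1 e2 ⊢
    rw [Finset.mem_inter]
    rcases e1 with e1 | e1
    · exact Or.inl (hB e1)
    · rcases e2 with e2 | e2
      · exact Or.inl (hB e2)
      · exact Or.inr ⟨e1, e2⟩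
  have h8 := Finset.card_le_card h7
  have h9 := Finset.card_union_le (range a) (E ∩ E')
  rw [Finset.card_range] at h9
  omega

/-- the conflict lemma -/
lemma conflict (s : ℕ) (hs : 1 ≤ s) (N L t : ℕ) (hLN : L ≤ N) (ht : L + 2 ≤ t)
    (F : Finset (Finset ℕ)) (hF : F ⊆ (range N).powerset) (hT : ThreeWise s F)
    (hP : PairWise t F) (hS : Shifted N F) (A B C : Finset ℕ) (hA : A ⊆ range L)
    (hB : B ⊆ range L) (hC : C ⊆ range L) (hABC : (A ∩ B ∩ C).card < s) (K : ℕ)
    (hK : (9 / 10 : ℝ) ^ K * 2 ^ (N - L) < (fib F L A).card) :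
    ((fib F L B).card : ℝ) + (fib F L C).card ≤
      2 ^ (N - L) * (1 + (9 / 10 : ℝ) ^ K - 1 / (8 * K + 2)) := by
  classical
  obtain ⟨X, hXF, hXA, hXt⟩ := exists_tame N L hLN F hF A hA K hK
  obtain ⟨b, hb1, hb2, hb3, hb4⟩ : ∃ b, L ≤ b ∧ b ≤ N ∧ b ≤ L + 2 * K ∧
      (b < N → b = L + 2 * K) := ⟨min (L + 2 * K) N, by omega, by omega, by omega, by omega⟩
  set W := Ico L b with hW
  have hWcard : W.card = b - L := by rw [hW, Nat.card_Ico]
  have hFe : ∀ A ∈ F, A ⊆ range N := fun A hA => Finset.mem_powerset.mp (hF hA)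
  have hsubb : ∀ (B E : Finset ℕ), B ⊆ range L → E ⊆ W → B ∪ E ⊆ range b := by
    intro B E hB hE x hx
    rcases Finset.mem_union.mp hx with h | h
    · have := Finset.mem_range.mp (hB h); exact Finset.mem_range.mpr (by omega)
    · exact Finset.mem_range.mpr (Finset.mem_Ico.mp (hE h)).2
  -- the key alternative
  have key : ∀ E ⊆ W, ¬ ((9 / 10 : ℝ) ^ K * 2 ^ (N - b) < (fib F b (B ∪ E)).card ∧
      (9 / 10 : ℝ) ^ K * 2 ^ (N - b) < (fib F b (C ∪ (W \ E))).card) := by
    rintro E hE ⟨hY, hZ⟩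
    obtain ⟨Y, hYF, hYB, hYt⟩ := exists_tame N b hb2 F hF (B ∪ E) (hsubb B E hB hE) K hY
    obtain ⟨Z, hZF, hZC, hZt⟩ := exists_tame N b hb2 F hF (C ∪ (W \ E))
      (hsubb C _ hC Finset.sdiff_subset) K hZ
    obtain ⟨j, hj, hj2⟩ := frankl N s hs F hFe hS hT _ X hXF Y hYF Z hZF rfl
    have memX : ∀ x, x < L → (x ∈ X → x ∈ A) := by
      intro x hx h
      rw [← hXA]; exact Finset.mem_inter.mpr ⟨h, Finset.mem_range.mpr hx⟩
    have memY : ∀ x, x < b → (x ∈ Y → x ∈ B ∨ x ∈ E) := by
      intro x hx h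
      have : x ∈ B ∪ E := by rw [← hYB]; exact Finset.mem_inter.mpr ⟨h, Finset.mem_range.mpr hx⟩
      exact Finset.mem_union.mp this
    have memZ : ∀ x, x < b → (x ∈ Z → x ∈ C ∨ (x ∈ W ∧ x ∉ E)) := by
      intro x hx h
      have : x ∈ C ∪ (W \ E) := by
        rw [← hZC]; exact Finset.mem_inter.mpr ⟨h, Finset.mem_range.mpr hx⟩
      rw [Finset.mem_union, Finset.mem_sdiff] at this
      exact this
    by_cases hjb : j ≤ b
    · have h1 := sum_le X Y Z j
      have h2 : X ∩ Y ∩ Z ∩ range j ⊆ A ∩ B ∩ C := by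
        intro x hx
        simp only [Finset.mem_inter, Finset.mem_range] at hx ⊢
        obtain ⟨⟨⟨hx1, hx2⟩, hx3⟩, hx4⟩ := hx
        have hy := memY x (by omega) hx2
        have hz := memZ x (by omega) hx3
        have hEL : x ∈ E → L ≤ x := fun h => (Finset.mem_Ico.mp (hE h)).1
        have hWL : x ∈ W → L ≤ x := fun h => (Finset.mem_Ico.mp h).1
        have hBL : x ∈ B → x < L := fun h => Finset.mem_range.mp (hB h)
        have hCL : x ∈ C → x < L := fun h => Finset.mem_range.mp (hC h)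
        by_cases hxL : x < L
        · have hxE : x ∉ E := fun h => by have := hEL h; omega
          have hxW : x ∉ W := fun h => by have := hWL h; omega
          refine ⟨⟨memX x hxL hx1, ?_⟩, ?_⟩
          · rcases hy with h | h
            · exact h
            · exact absurd h hxE
          · rcases hz with h | h
            · exact h
            · exact absurd h.1 hxW
        · exfalso
          have hxE : x ∈ E := by
            rcases hy with h | h
            · exact absurd (hBL h) hxL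
            · exact h
          rcases hz with h | h
          · exact hxL (hCL h)
          · exact h.2 hxE
      have h3 := Finset.card_le_card h2
      omega
    · push Not at hjb
      have hbeq := hb4 (by omega)
      have cX : (X ∩ range j).card ≤ A.card + (X ∩ Ico L j).card := by
        refine le_trans (Finset.card_le_card ?_) (Finset.card_union_le _ _)
        intro x hx
        rw [Finset.mem_inter, Finset.mem_range] at hx
        rw [Finset.mem_union, Finset.mem_inter, Finset.mem_Ico]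
        by_cases hxL : x < L
        · exact Or.inl (memX x hxL hx.1)
        · exact Or.inr ⟨hx.1, by omega, hx.2⟩
      have cY : (Y ∩ range j).card ≤ B.card + E.card + (Y ∩ Ico b j).card := by
        refine le_trans (Finset.card_le_card (t := (B ∪ E) ∪ (Y ∩ Ico b j)) ?_)
          (le_trans (Finset.card_union_le _ _) ?_)
        · intro x hx
          rw [Finset.mem_inter, Finset.mem_range] at hx
          rw [Finset.mem_union, Finset.mem_union, Finset.mem_inter, Finset.mem_Ico]
          by_cases hxL : x < b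
          · exact Or.inl (memY x hxL hx.1)
          · exact Or.inr ⟨hx.1, by omega, hx.2⟩
        · have := Finset.card_union_le B E; omega
      have cZ : (Z ∩ range j).card ≤ C.card + (W \ E).card + (Z ∩ Ico b j).card := by
        refine le_trans (Finset.card_le_card (t := (C ∪ (W \ E)) ∪ (Z ∩ Ico b j)) ?_)
          (le_trans (Finset.card_union_le _ _) ?_)
        · intro x hx
          rw [Finset.mem_inter, Finset.mem_range] at hx
          rw [Finset.mem_union, Finset.mem_union, Finset.mem_inter, Finset.mem_Ico,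
            Finset.mem_sdiff]
          by_cases hxL : x < b
          · exact Or.inl (memZ x hxL hx.1)
          · exact Or.inr ⟨hx.1, by omega, hx.2⟩
        · have := Finset.card_union_le C (W \ E); omega
      have cE := Finset.card_sdiff_add_card_eq_card hE
      have cABC := sum_le A B C L
      rw [Finset.inter_eq_left.mpr hA, Finset.inter_eq_left.mpr hB, Finset.inter_eq_left.mpr hC,
        Finset.inter_eq_left.mpr (fun x hx => hC (Finset.mem_inter.mp hx).2 :
          A ∩ B ∩ C ⊆ range L)] at cABC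
      have tX := hXt j (by omega) hj
      have tY := hYt j (by omega) hj
      have tZ := hZt j (by omega) hj
      omega
  -- heavy sets
  set D : ℝ := 2 ^ (N - b) with hD
  have hDpos : 0 < D := by positivity
  set H1 := W.powerset.filter (fun E => 2 ^ (N - b) < 2 * (fib F b (B ∪ E)).card) with hH1
  set H2 := W.powerset.filter (fun E => 2 ^ (N - b) < 2 * (fib F b (C ∪ E)).card) with hH2
  have hb1' : (2 * (b - L) + 1) * H1.card ≤ (b - L) * 2 ^ (b - L) := by
    apply heavy_two_int N L b t hb1 hb2 F hF hP ht B hB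
    intro E hE
    rw [hH1, Finset.mem_filter, Finset.mem_powerset] at hE
    exact hE
  have hb2' : (2 * (b - L) + 1) * H2.card ≤ (b - L) * 2 ^ (b - L) := by
    apply heavy_two_int N L b t hb1 hb2 F hF hP ht C hC
    intro E hE
    rw [hH2, Finset.mem_filter, Finset.mem_powerset] at hE
    exact hE
  have hle : ∀ (B E : Finset ℕ), B ⊆ range L → E ⊆ W → ((fib F b (B ∪ E)).card : ℝ) ≤ D := by
    intro B E hB hE
    have := card_fib_le N b hb2 F hF (B ∪ E) (hsubb B E hB hE)
    rw [hD]; exact_mod_cast this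
  have hpt : ∀ E ∈ W.powerset, ((fib F b (B ∪ E)).card : ℝ) + (fib F b (C ∪ (W \ E))).card ≤
      (D / 2 + (9 / 10 : ℝ) ^ K * D) + ((if E ∈ H1 then D / 2 else 0) +
        (if W \ E ∈ H2 then D / 2 else 0)) := by
    intro E hE
    rw [Finset.mem_powerset] at hE
    have k1 := key E hE
    have k2 := hle B E hB hE
    have k3 := hle C (W \ E) hC Finset.sdiff_subset
    have hcase : ((fib F b (B ∪ E)).card : ℝ) ≤ (9 / 10 : ℝ) ^ K * D ∨
        ((fib F b (C ∪ (W \ E))).card : ℝ) ≤ (9 / 10 : ℝ) ^ K * D := by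
      by_contra hcon
      push Not at hcon
      exact k1 hcon
    have hbK : 0 ≤ (9 / 10 : ℝ) ^ K * D := by positivity
    by_cases hE1 : E ∈ H1
    · rw [if_pos hE1]
      have hpos : (0 : ℝ) ≤ if W \ E ∈ H2 then D / 2 else 0 := by
        split_ifs
        · positivity
        · exact le_rfl
      rcases hcase with h | h <;> linarith
    · have l1 : ((fib F b (B ∪ E)).card : ℝ) ≤ D / 2 := by
        rw [hH1, Finset.mem_filter, Finset.mem_powerset, not_and, not_lt] at hE1
        have := hE1 hE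
        have h' : 2 * ((fib F b (B ∪ E)).card : ℝ) ≤ D := by rw [hD]; exact_mod_cast this
        linarith
      rw [if_neg hE1]
      by_cases hE2 : W \ E ∈ H2
      · rw [if_pos hE2]
        rcases hcase with h | h <;> linarith
      · rw [if_neg hE2]
        have l2 : ((fib F b (C ∪ (W \ E))).card : ℝ) ≤ D / 2 := by
          rw [hH2, Finset.mem_filter, Finset.mem_powerset, not_and, not_lt] at hE2
          have := hE2 Finset.sdiff_subset
          have h' : 2 * ((fib F b (C ∪ (W \ E))).card : ℝ) ≤ D := by rw [hD]; exact_mod_cast this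
          linarith
        rcases hcase with h | h <;> linarith
  obtain ⟨c0, hc0⟩ : ∃ c0, c0 = D / 2 + (9 / 10 : ℝ) ^ K * D := ⟨_, rfl⟩
  rw [← hc0] at hpt
  have hsum := Finset.sum_le_sum hpt
  rw [Finset.sum_add_distrib, Finset.sum_add_distrib, Finset.sum_add_distrib,
    Finset.sum_const, Finset.card_powerset, hWcard, nsmul_eq_mul] at hsum
  have hs1 : ∑ E ∈ W.powerset, ((fib F b (B ∪ E)).card : ℝ) = (fib F L B).card := by
    rw [fib_window F L b hb1 B hB]; push_cast; rfl
  have hbij : ∀ f : Finset ℕ → ℝ, ∑ E ∈ W.powerset, f (W \ E) = ∑ E ∈ W.powerset, f E := by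
    intro f
    apply Finset.sum_nbij' (fun E => W \ E) (fun E => W \ E)
    · intro E _; simp
    · intro E _; simp
    · intro E hE; rw [Finset.mem_powerset] at hE; exact Finset.sdiff_sdiff_eq_self hE
    · intro E hE; rw [Finset.mem_powerset] at hE; exact Finset.sdiff_sdiff_eq_self hE
    · intro E hE; rfl
  have hs2 : ∑ E ∈ W.powerset, ((fib F b (C ∪ (W \ E))).card : ℝ) = (fib F L C).card := by
    rw [hbij (fun E => ((fib F b (C ∪ E)).card : ℝ)), fib_window F L b hb1 C hC]; push_cast; rfl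
  have hs3 : ∑ E ∈ W.powerset, (if E ∈ H1 then D / 2 else 0) = H1.card * (D / 2) := by
    rw [← Finset.sum_filter, Finset.sum_const, nsmul_eq_mul]
    congr 3
    rw [Finset.filter_mem_eq_inter]
    exact Finset.inter_eq_right.mpr (Finset.filter_subset _ _)
  have hs4 : ∑ E ∈ W.powerset, (if W \ E ∈ H2 then D / 2 else 0) = H2.card * (D / 2) := by
    rw [hbij (fun E => if E ∈ H2 then D / 2 else 0)]
    rw [← Finset.sum_filter, Finset.sum_const, nsmul_eq_mul]
    congr 3
    rw [Finset.filter_mem_eq_inter]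
    exact Finset.inter_eq_right.mpr (Finset.filter_subset _ _)
  rw [hs1, hs2, hs3, hs4, hc0] at hsum
  -- final computation
  obtain ⟨m, hm⟩ : ∃ m, b - L = m := ⟨_, rfl⟩
  rw [hm] at hsum hb1' hb2'
  have hmK : m ≤ 2 * K := by omega
  have r1 : (2 * (m : ℝ) + 1) * H1.card ≤ m * 2 ^ m := by exact_mod_cast hb1'
  have r2 : (2 * (m : ℝ) + 1) * H2.card ≤ m * 2 ^ m := by exact_mod_cast hb2'
  have r3 : (2 : ℝ) ^ (N - L) = 2 ^ m * D := by
    rw [hD, ← pow_add]; congr 1; omega
  have r4 : (m : ℝ) ≤ 2 * K := by exact_mod_cast hmK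
  have hm0 : (0 : ℝ) ≤ m := by positivity
  have r5 : (H1.card : ℝ) + H2.card ≤ 2 ^ m * (1 - 1 / (2 * m + 1)) := by
    have h1 : (0 : ℝ) < 2 * m + 1 := by positivity
    have h2 : (1 : ℝ) - 1 / (2 * m + 1) = 2 * m / (2 * m + 1) := by
      field_simp; ring
    rw [h2, mul_div_assoc', le_div_iff₀ h1]
    nlinarith
  have r6 : (1 : ℝ) / (8 * K + 2) ≤ 1 / (2 * (2 * m + 1)) := by
    apply one_div_le_one_div_of_le
    · positivity
    · linarith
  have r7 : (1 : ℝ) / (2 * (2 * m + 1)) = (1 / (2 * m + 1)) / 2 := by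
    field_simp
  rw [r3]
  push_cast at hsum
  have h2m : (0 : ℝ) < 2 ^ m := by positivity
  have r8 : ((H1.card : ℝ) + H2.card) * (D / 2) ≤ (2 ^ m * (1 - 1 / (2 * m + 1))) * (D / 2) :=
    mul_le_mul_of_nonneg_right r5 (by positivity)
  have r9 : (2 ^ m * D) * (1 / (8 * (K : ℝ) + 2)) ≤ (2 ^ m * D) * ((1 / (2 * m + 1)) / 2) := by
    apply mul_le_mul_of_nonneg_left _ (by positivity)
    rw [← r7]; exact r6
  calc ((fib F L B).card : ℝ) + (fib F L C).card
      ≤ 2 ^ m * (D / 2 + (9 / 10) ^ K * D) + (H1.card * (D / 2) + H2.card * (D / 2)) := hsum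
    _ ≤ 2 ^ m * (D / 2 + (9 / 10) ^ K * D) + (2 ^ m * (1 - 1 / (2 * m + 1))) * (D / 2) := by
        linarith
    _ = 2 ^ m * D * (1 + (9 / 10) ^ K) - (2 ^ m * D) * ((1 / (2 * m + 1)) / 2) := by ring
    _ ≤ 2 ^ m * D * (1 + (9 / 10) ^ K) - (2 ^ m * D) * (1 / (8 * (K : ℝ) + 2)) := by linarith
    _ = _ := by ring

end Pool.Agent.H122R3.TW
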