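import Pool.Agent.H122R3.TwG

namespace Pool.Agent.H122R3.TW

open Finset

lemma exists_conflict (s L : ℕ) (J : Finset (Finset ℕ)) (hJ : J ⊆ (range L).powerset)
    (hJT : ThreeWise s J) (hJm : J.card = mx (ThreeWise s) L) (hJpos : 0 < J.card)
    (A : Finset ℕ) (hA : A ⊆ range L) (hAJ : A ∉ J) :
    ∃ B ∈ J, ∃ C ∈ J, (A ∩ B ∩ C).card < s := by
  by_contra hcon
  push Not at hcon
  obtain ⟨B0, hB0⟩ := Finset.card_pos.mp hJpos
  have hins : ThreeWise s (insert A J) := by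
    intro X hX Y hY Z hZ
    rcases Finset.mem_insert.mp hX with eX | mX <;> rcases Finset.mem_insert.mp hY with eY | mY <;>
      rcases Finset.mem_insert.mp hZ with eZ | mZ
    · rw [eX, eY, eZ]
      refine le_trans (hcon B0 hB0 B0 hB0) (Finset.card_le_card ?_)
      intro x hx; simp only [Finset.mem_inter] at hx ⊢; tauto
    · rw [eX, eY]
      refine le_trans (hcon Z mZ Z mZ) (Finset.card_le_card ?_)
      intro x hx; simp only [Finset.mem_inter] at hx ⊢; tauto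
    · rw [eX, eZ]
      refine le_trans (hcon Y mY Y mY) (Finset.card_le_card ?_)
      intro x hx; simp only [Finset.mem_inter] at hx ⊢; tauto
    · rw [eX]
      exact hcon Y mY Z mZ
    · rw [eY, eZ]
      refine le_trans (hcon X mX X mX) (Finset.card_le_card ?_)
      intro x hx; simp only [Finset.mem_inter] at hx ⊢; tauto
    · rw [eY]
      refine le_trans (hcon X mX Z mZ) (Finset.card_le_card ?_)
      intro x hx; simp only [Finset.mem_inter] at hx ⊢; tauto
    · rw [eZ]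
      refine le_trans (hcon X mX Y mY) (Finset.card_le_card ?_)
      intro x hx; simp only [Finset.mem_inter] at hx ⊢; tauto
    · exact hJT X mX Y mY Z mZ
  have h1 := le_mx (ThreeWise s) L (insert A J)
    (Finset.insert_subset (Finset.mem_powerset.mpr hA) hJ) hins
  rw [Finset.card_insert_of_notMem hAJ] at h1
  omega

/-- the final inequality -/
lemma final_bound (s : ℕ) (hs : 1 ≤ s) (N L t K0 : ℕ) (hLN : L ≤ N) (ht : L + 2 ≤ t)
    (F : Finset (Finset ℕ)) (hF : F ⊆ (range N).powerset) (hT : ThreeWise s F)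
    (hP : PairWise t F) (hS : Shifted N F) (J : Finset (Finset ℕ))
    (hJ : J ⊆ (range L).powerset) (hJT : ThreeWise s J) (hJm : J.card = mx (ThreeWise s) L)
    (hJpos : 0 < J.card) (η : ℝ) (hη : (F.card : ℝ) ≤ cap F L J + η * 2 ^ (N - L))
    (hη2 : η ≤ (9 / 10 : ℝ) ^ K0)
    (hK0 : ∀ k : ℕ, K0 ≤ k → (2 ^ L + 1) * (9 / 10 : ℝ) ^ k * (16 * k + 20) ≤ 1) :
    2 * (F.card * 2 ^ L) ≤ J.card * 2 ^ N := by
  classical
  set Out := (range L).powerset \ J with hOut
  have hOutsub : Out ⊆ (range L).powerset := Finset.sdiff_subset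
  have hcardF : F.card = ∑ A ∈ (range L).powerset, (fib F L A).card := by
    apply Finset.card_eq_sum_card_fiberwise
    intro X _
    simp
  have hsplit : F.card = ∑ A ∈ Out, (fib F L A).card + cap F L J := by
    rw [hcardF]; unfold cap; exact (Finset.sum_sdiff hJ).symm
  set D : ℝ := 2 ^ (N - L) with hD
  have hDpos : 0 < D := by positivity
  have h2N : (2 : ℝ) ^ N = 2 ^ L * D := by
    rw [hD, ← pow_add]; congr 1; omega
  have hhalf : ∀ B ∈ J, ((fib F L B).card : ℝ) ≤ D / 2 := by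
    intro B hB
    have := half_fib N L t F hF hP (by omega) hLN B (Finset.mem_powerset.mp (hJ hB))
    have h' : 2 * ((fib F L B).card : ℝ) ≤ D := by rw [hD]; exact_mod_cast this
    linarith
  have goalR : (F.card : ℝ) ≤ J.card * (D / 2) → 2 * (F.card * 2 ^ L) ≤ J.card * 2 ^ N := by
    intro h
    have : (2 : ℝ) * (F.card * 2 ^ L) ≤ J.card * 2 ^ N := by
      rw [h2N]
      have h2L : (0 : ℝ) < 2 ^ L := by positivity
      nlinarith
    exact_mod_cast this
  apply goalR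
  by_cases hO : ∃ A ∈ Out, 0 < (fib F L A).card
  · obtain ⟨A1, hA1, hA1pos⟩ := hO
    obtain ⟨A, hA, hmax⟩ := Finset.exists_max_image Out (fun A => (fib F L A).card) ⟨A1, hA1⟩
    have hApos : 0 < (fib F L A).card := lt_of_lt_of_le hA1pos (hmax A1 hA1)
    have hAL : A ⊆ range L := Finset.mem_powerset.mp (hOutsub hA)
    have hAJ : A ∉ J := (Finset.mem_sdiff.mp hA).2
    set fA : ℝ := ((fib F L A).card : ℝ) with hfA
    have hfApos : 0 < fA := by rw [hfA]; exact_mod_cast hApos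
    have hfAle : fA ≤ (9 / 10 : ℝ) ^ K0 * D := by
      have h1 : (fib F L A).card ≤ ∑ A ∈ Out, (fib F L A).card :=
        Finset.single_le_sum (f := fun A => (fib F L A).card) (fun _ _ => Nat.zero_le _) hA
      have h2 : fA ≤ ((∑ A ∈ Out, (fib F L A).card : ℕ) : ℝ) := by rw [hfA]; exact_mod_cast h1
      have h3 : (F.card : ℝ) = ((∑ A ∈ Out, (fib F L A).card : ℕ) : ℝ) + cap F L J := by
        exact_mod_cast hsplit
      have h4 : η * D ≤ (9 / 10 : ℝ) ^ K0 * D := mul_le_mul_of_nonneg_right hη2 hDpos.le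
      linarith
    have hexK : ∃ K : ℕ, (9 / 10 : ℝ) ^ K * D < fA := by
      obtain ⟨K, hK⟩ := exists_pow_lt_of_lt_one (show 0 < fA / D by positivity)
        (show (9 / 10 : ℝ) < 1 by norm_num)
      exact ⟨K, (lt_div_iff₀ hDpos).mp hK⟩
    obtain ⟨K, hK, hKmin⟩ : ∃ K : ℕ, (9 / 10 : ℝ) ^ K * D < fA ∧
        ∀ m < K, ¬ ((9 / 10 : ℝ) ^ m * D < fA) :=
      ⟨Nat.find hexK, Nat.find_spec hexK, fun m hm => Nat.find_min hexK hm⟩
    have hKK0 : K0 < K := by
      by_contra hcon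
      push Not at hcon
      have h1 : (9 / 10 : ℝ) ^ K0 ≤ (9 / 10 : ℝ) ^ K :=
        pow_le_pow_of_le_one (by norm_num) (by norm_num) hcon
      have h2 : (9 / 10 : ℝ) ^ K0 * D ≤ (9 / 10 : ℝ) ^ K * D :=
        mul_le_mul_of_nonneg_right h1 hDpos.le
      linarith
    obtain ⟨k, rfl⟩ : ∃ k, K = k + 1 := ⟨K - 1, by omega⟩
    have hfAk : fA ≤ (9 / 10 : ℝ) ^ k * D := by
      have := hKmin k (by omega)
      push Not at this
      exact this
    obtain ⟨B, hB, C, hC, hABC⟩ := exists_conflict s L J hJ hJT hJm hJpos A hAL hAJ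
    have hconf := conflict s hs N L t hLN ht F hF hT hP hS A B C hAL
      (Finset.mem_powerset.mp (hJ hB)) (Finset.mem_powerset.mp (hJ hC)) hABC (k + 1) hK
    rw [← hD] at hconf
    set ρ : ℝ := 1 + (9 / 10 : ℝ) ^ (k + 1) - 1 / (8 * ((k + 1 : ℕ) : ℝ) + 2) with hρ
    obtain ⟨B1, hB1, hB1le⟩ : ∃ B1 ∈ J, ((fib F L B1).card : ℝ) ≤ D * ρ / 2 := by
      by_cases h : ((fib F L B).card : ℝ) ≤ D * ρ / 2
      · exact ⟨B, hB, h⟩
      · refine ⟨C, hC, ?_⟩
        push Not at h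
        linarith
    have hcapJ : (cap F L J : ℝ) ≤ D * ρ / 2 + ((J.card : ℝ) - 1) * (D / 2) := by
      have h1 : cap F L J = (fib F L B1).card + ∑ B ∈ J.erase B1, (fib F L B).card := by
        unfold cap
        exact (Finset.add_sum_erase J (fun B => (fib F L B).card) hB1).symm
      have h2 : (∑ B ∈ J.erase B1, ((fib F L B).card : ℝ)) ≤ ∑ B ∈ J.erase B1, D / 2 :=
        Finset.sum_le_sum (fun B hB => hhalf B (Finset.mem_of_mem_erase hB))
      rw [Finset.sum_const, Finset.card_erase_of_mem hB1, nsmul_eq_mul] at h2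
      have h3 : ((J.card - 1 : ℕ) : ℝ) = (J.card : ℝ) - 1 := by
        rw [Nat.cast_sub (by omega)]; simp
      rw [h3] at h2
      rw [h1]
      push_cast
      linarith
    have hout : ((∑ A ∈ Out, (fib F L A).card : ℕ) : ℝ) ≤ 2 ^ L * fA := by
      push_cast
      have h1 : ∑ A ∈ Out, ((fib F L A).card : ℝ) ≤ ∑ A ∈ Out, fA := by
        apply Finset.sum_le_sum
        intro A' hA'
        rw [hfA]
        exact_mod_cast hmax A' hA'
      rw [Finset.sum_const, nsmul_eq_mul] at h1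
      have h2 : (Out.card : ℝ) ≤ 2 ^ L := by
        have := Finset.card_le_card hOutsub
        rw [Finset.card_powerset, Finset.card_range] at this
        exact_mod_cast this
      have h3 : (Out.card : ℝ) * fA ≤ 2 ^ L * fA := mul_le_mul_of_nonneg_right h2 hfApos.le
      linarith
    have hFc : (F.card : ℝ) = ((∑ A ∈ Out, (fib F L A).card : ℕ) : ℝ) + cap F L J := by
      exact_mod_cast hsplit
    have h2L : (0 : ℝ) < 2 ^ L := by positivity
    have hoo : 2 ^ L * fA ≤ 2 ^ L * ((9 / 10 : ℝ) ^ k * D) :=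
      mul_le_mul_of_nonneg_left hfAk h2L.le
    have hk := hK0 k (by omega)
    have hkpos : (0 : ℝ) < 16 * k + 20 := by positivity
    have hk2 : (2 ^ L + 1) * (9 / 10 : ℝ) ^ k ≤ 1 / (16 * k + 20) := by
      rw [le_div_iff₀ hkpos]; exact hk
    have hk3 : (1 : ℝ) / (8 * ((k + 1 : ℕ) : ℝ) + 2) = 2 * (1 / (16 * k + 20)) := by
      push_cast
      field_simp
      ring
    have hk4 : (9 / 10 : ℝ) ^ (k + 1) ≤ 2 * (9 / 10 : ℝ) ^ k := by
      rw [pow_succ]
      have : (0 : ℝ) < (9 / 10 : ℝ) ^ k := by positivity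
      linarith
    have hρ2 : ρ ≤ 1 - 2 * (2 ^ L * (9 / 10 : ℝ) ^ k) := by
      rw [hρ, hk3]
      nlinarith
    have hρ3 : D * ρ / 2 ≤ D * (1 - 2 * (2 ^ L * (9 / 10 : ℝ) ^ k)) / 2 := by
      have := mul_le_mul_of_nonneg_left hρ2 hDpos.le
      linarith
    have hfin : D * (1 - 2 * (2 ^ L * (9 / 10 : ℝ) ^ k)) / 2 =
        D / 2 - 2 ^ L * ((9 / 10 : ℝ) ^ k * D) := by ring
    have hexp : ((J.card : ℝ) - 1) * (D / 2) = J.card * (D / 2) - D / 2 := by ring
    linarith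
  · push Not at hO
    have h0 : ∑ A ∈ Out, (fib F L A).card = 0 := by
      apply Finset.sum_eq_zero
      intro A hA
      have := hO A hA
      omega
    have h1 : F.card = cap F L J := by omega
    have h2 : (cap F L J : ℝ) ≤ J.card * (D / 2) := by
      unfold cap
      push_cast
      have := Finset.sum_le_sum hhalf
      rw [Finset.sum_const, nsmul_eq_mul] at this
      exact this
    rw [h1]
    exact h2

lemma exists_K0 (c : ℝ) : ∃ K0 : ℕ, ∀ k : ℕ, K0 ≤ k →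
    c * (9 / 10 : ℝ) ^ k * (16 * k + 20) ≤ 1 := by
  have h1 : Filter.Tendsto (fun n : ℕ => (n : ℝ) * (9 / 10 : ℝ) ^ n) Filter.atTop (nhds 0) :=
    tendsto_self_mul_const_pow_of_lt_one (by norm_num) (by norm_num)
  have h2 : Filter.Tendsto (fun n : ℕ => (9 / 10 : ℝ) ^ n) Filter.atTop (nhds 0) :=
    tendsto_pow_atTop_nhds_zero_of_lt_one (by norm_num) (by norm_num)
  have h3 : Filter.Tendsto (fun n : ℕ => 16 * c * ((n : ℝ) * (9 / 10 : ℝ) ^ n) +
      20 * c * (9 / 10 : ℝ) ^ n) Filter.atTop (nhds (16 * c * 0 + 20 * c * 0)) :=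
    (h1.const_mul _).add (h2.const_mul _)
  have h4 : (16 * c * 0 + 20 * c * 0 : ℝ) < 1 := by norm_num
  obtain ⟨K0, hK0⟩ := Filter.eventually_atTop.mp (h3.eventually_lt_const h4)
  refine ⟨K0, fun k hk => ?_⟩
  have := hK0 k hk
  have e : c * (9 / 10 : ℝ) ^ k * (16 * k + 20) =
    16 * c * ((k : ℝ) * (9 / 10 : ℝ) ^ k) + 20 * c * (9 / 10 : ℝ) ^ k := by ring
  rw [e]
  exact this.le

lemma exists_p (c ε : ℝ) (hε : 0 < ε) : ∃ p0 : ℕ, ∀ p : ℕ, p0 ≤ p →
    (72 * (p : ℝ) + 1) * ((9 / 10 : ℝ) ^ p) * c ≤ ε := by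
  have h1 : Filter.Tendsto (fun n : ℕ => (n : ℝ) * (9 / 10 : ℝ) ^ n) Filter.atTop (nhds 0) :=
    tendsto_self_mul_const_pow_of_lt_one (by norm_num) (by norm_num)
  have h2 : Filter.Tendsto (fun n : ℕ => (9 / 10 : ℝ) ^ n) Filter.atTop (nhds 0) :=
    tendsto_pow_atTop_nhds_zero_of_lt_one (by norm_num) (by norm_num)
  have h3 : Filter.Tendsto (fun n : ℕ => 72 * c * ((n : ℝ) * (9 / 10 : ℝ) ^ n) +
      c * (9 / 10 : ℝ) ^ n) Filter.atTop (nhds (72 * c * 0 + c * 0)) :=
    (h1.const_mul _).add (h2.const_mul _)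
  have h4 : (72 * c * 0 + c * 0 : ℝ) < ε := by simpa using hε
  obtain ⟨K0, hK0⟩ := Filter.eventually_atTop.mp (h3.eventually_lt_const h4)
  refine ⟨K0, fun k hk => ?_⟩
  have := hK0 k hk
  have e : (72 * (k : ℝ) + 1) * ((9 / 10 : ℝ) ^ k) * c =
    72 * c * ((k : ℝ) * (9 / 10 : ℝ) ^ k) + c * (9 / 10 : ℝ) ^ k := by ring
  rw [e]
  exact this.le

lemma mx_pos (s : ℕ) (hs : 1 ≤ s) : 0 < mx (ThreeWise s) (9 * s) := by
  have h := le_mx (ThreeWise s) (9 * s) {range (9 * s)} (by simp) (by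
    intro A hA B hB C hC
    rw [Finset.mem_singleton] at hA hB hC
    subst hA; subst hB; subst hC
    simp
    omega)
  rw [Finset.card_singleton] at h
  omega

/-- the upper bound -/
theorem main_bound (s : ℕ) (hs : 1 ≤ s) : ∃ t0 : ℕ, ∀ t, t0 ≤ t → ∀ (N : ℕ)
    (F : Finset (Finset ℕ)), F ⊆ (range N).powerset → ThreeWise s F → PairWise t F →
    2 * (F.card * 2 ^ (9 * s)) ≤ mx (ThreeWise s) (9 * s) * 2 ^ N := by
  obtain ⟨K0, hK0⟩ := exists_K0 ((2 : ℝ) ^ (9 * s) + 1)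
  obtain ⟨p0, hp0⟩ := exists_p ((2 : ℝ) ^ (9 * s)) ((9 / 10 : ℝ) ^ K0) (by positivity)
  set p := max p0 (3 * s + 2) with hp
  have hpp0 : p0 ≤ p := le_max_left _ _
  have hps : 3 * s + 2 ≤ p := le_max_right _ _
  refine ⟨24 * (3 * p) + 1, fun t ht N F hF hT hP => ?_⟩
  by_contra hcon
  push Not at hcon
  by_cases hN : N < 24 * (3 * p)
  · have hF0 : F = ∅ := by
      rw [Finset.eq_empty_iff_forall_notMem]
      intro A hA
      have h1 := hP A hA A hA
      rw [Finset.inter_self] at h1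
      have h2 := Finset.card_le_card (Finset.mem_powerset.mp (hF hA))
      rw [Finset.card_range] at h2
      omega
    rw [hF0] at hcon
    simp at hcon
  · push Not at hN
    obtain ⟨G, g1, g2, g3, g4, g5, g6⟩ := exists_shifted N s t F hF hT hP
    have hbig : mx (ThreeWise s) (9 * s) * 2 ^ N < 2 * (G.card * 2 ^ (9 * s)) :=
      lt_of_lt_of_le hcon (Nat.mul_le_mul_left 2 (Nat.mul_le_mul_right _ g6))
    obtain ⟨J, j1, j2, j3, j4⟩ := stability s hs (3 * p) (by omega) (by omega) N t (by omega) hN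
      G g1 g2 g3 g5 hbig
    have hpos := mx_pos s hs
    have h3p : 3 * p / 3 = p := by omega
    rw [h3p] at j4
    have h2N : (2 : ℝ) ^ N = 2 ^ (9 * s) * 2 ^ (N - 9 * s) := by
      rw [← pow_add]; congr 1; omega
    have hη : (G.card : ℝ) ≤ cap G (9 * s) J +
        ((72 * (p : ℝ) + 1) * ((9 / 10 : ℝ) ^ p) * 2 ^ (9 * s)) * 2 ^ (N - 9 * s) := by
      rw [h2N] at j4
      push_cast at j4
      have e : (24 * (3 * (p : ℝ)) + 1) * ((9 / 10 : ℝ) ^ p * (2 ^ (9 * s) * 2 ^ (N - 9 * s))) =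
        ((72 * (p : ℝ) + 1) * ((9 / 10 : ℝ) ^ p) * 2 ^ (9 * s)) * 2 ^ (N - 9 * s) := by ring
      rw [e] at j4
      exact j4
    have hfin := final_bound s hs N (9 * s) t K0 (by omega) (by omega) G g1 g2 g3 g5 J j1 j2 j3
      (by omega) _ hη (hp0 p hpp0) hK0
    rw [j3] at hfin
    omega

end Pool.Agent.H122R3.TW
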