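import Pool.Agent.H122R3.TwH

namespace Pool.Agent.H122R3.TW

open Finset

lemma prod_family (L n : ℕ) (hLn : L ≤ n) (J G : Finset (Finset ℕ))
    (hJ : J ⊆ (range L).powerset) (hG : G ⊆ (Ico L n).powerset) :
    ∃ F ⊆ (range n).powerset, F.card = J.card * G.card ∧
      (∀ s, ThreeWise s J → ThreeWise s F) ∧ (∀ t, PairWise t G → PairWise t F) := by
  classical
  refine ⟨(J ×ˢ G).image (fun p => p.1 ∪ p.2), ?_, ?_, ?_, ?_⟩
  · intro X hX
    obtain ⟨⟨A, E⟩, h, rfl⟩ := Finset.mem_image.mp hX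
    rw [Finset.mem_product] at h
    rw [Finset.mem_powerset]
    intro x hx
    rcases Finset.mem_union.mp hx with h1 | h1
    · have := Finset.mem_range.mp (Finset.mem_powerset.mp (hJ h.1) h1)
      exact Finset.mem_range.mpr (by omega)
    · exact Finset.mem_range.mpr (Finset.mem_Ico.mp (Finset.mem_powerset.mp (hG h.2) h1)).2
  · rw [Finset.card_image_of_injOn, Finset.card_product]
    rintro ⟨A, E⟩ h ⟨A', E'⟩ h' heq
    rw [Finset.mem_coe, Finset.mem_product] at h h'
    have a1 : ∀ x, x ∈ A → x < L := fun x hx =>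
      Finset.mem_range.mp (Finset.mem_powerset.mp (hJ h.1) hx)
    have a2 : ∀ x, x ∈ A' → x < L := fun x hx =>
      Finset.mem_range.mp (Finset.mem_powerset.mp (hJ h'.1) hx)
    have a3 : ∀ x, x ∈ E → L ≤ x := fun x hx =>
      (Finset.mem_Ico.mp (Finset.mem_powerset.mp (hG h.2) hx)).1
    have a4 : ∀ x, x ∈ E' → L ≤ x := fun x hx =>
      (Finset.mem_Ico.mp (Finset.mem_powerset.mp (hG h'.2) hx)).1
    have a5 : ∀ x, (x ∈ A ∨ x ∈ E) ↔ (x ∈ A' ∨ x ∈ E') := by
      intro x
      have := Finset.ext_iff.mp heq x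
      simpa only [Finset.mem_union] using this
    have e1 : A = A' := by
      ext x
      constructor
      · intro hx
        rcases (a5 x).mp (Or.inl hx) with h1 | h1
        · exact h1
        · have := a1 x hx; have := a4 x h1; omega
      · intro hx
        rcases (a5 x).mpr (Or.inl hx) with h1 | h1
        · exact h1
        · have := a2 x hx; have := a3 x h1; omega
    have e2 : E = E' := by
      ext x
      constructor
      · intro hx
        rcases (a5 x).mp (Or.inr hx) with h1 | h1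
        · have := a3 x hx; have := a2 x h1; omega
        · exact h1
      · intro hx
        rcases (a5 x).mpr (Or.inr hx) with h1 | h1
        · have := a4 x hx; have := a1 x h1; omega
        · exact h1
    rw [e1, e2]
  · intro s hs X hX Y hY Z hZ
    obtain ⟨⟨A, E⟩, h1, rfl⟩ := Finset.mem_image.mp hX
    obtain ⟨⟨A', E'⟩, h2, rfl⟩ := Finset.mem_image.mp hY
    obtain ⟨⟨A'', E''⟩, h3, rfl⟩ := Finset.mem_image.mp hZ
    rw [Finset.mem_product] at h1 h2 h3
    refine le_trans (hs A h1.1 A' h2.1 A'' h3.1) (Finset.card_le_card ?_)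
    exact Finset.inter_subset_inter (Finset.inter_subset_inter Finset.subset_union_left
      Finset.subset_union_left) Finset.subset_union_left
  · intro t ht X hX Y hY
    obtain ⟨⟨A, E⟩, h1, rfl⟩ := Finset.mem_image.mp hX
    obtain ⟨⟨A', E'⟩, h2, rfl⟩ := Finset.mem_image.mp hY
    rw [Finset.mem_product] at h1 h2
    refine le_trans (ht E h1.2 E' h2.2) (Finset.card_le_card ?_)
    exact Finset.inter_subset_inter Finset.subset_union_right Finset.subset_union_right

/-- Katona's families -/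
def kat (L n t : ℕ) : Finset (Finset ℕ) :=
  (Ico L n).powerset.filter (fun X => (n - L) + t ≤ 2 * X.card)

lemma kat_sub (L n t : ℕ) : kat L n t ⊆ (Ico L n).powerset := Finset.filter_subset _ _

lemma kat_pair (L n t : ℕ) : PairWise t (kat L n t) := by
  intro X hX Y hY
  unfold kat at hX hY
  rw [Finset.mem_filter, Finset.mem_powerset] at hX hY
  have h1 := Finset.card_union_add_card_inter X Y
  have h2 := Finset.card_le_card (Finset.union_subset hX.1 hY.1)
  rw [Nat.card_Ico] at h2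
  omega

/-- normalised central binomial coefficient -/
noncomputable def cb (j : ℕ) : ℝ := (Nat.centralBinom j : ℝ) / 4 ^ j

lemma cb_sq (j : ℕ) : (2 * j + 1) * (Nat.centralBinom j) ^ 2 ≤ 16 ^ j := by
  induction j with
  | zero => simp
  | succ j ih =>
    have h := Nat.succ_mul_centralBinom_succ j
    have h1 : (j + 1) ^ 2 * ((2 * (j + 1) + 1) * (Nat.centralBinom (j + 1)) ^ 2) ≤
        (j + 1) ^ 2 * 16 ^ (j + 1) := by
      calc (j + 1) ^ 2 * ((2 * (j + 1) + 1) * (Nat.centralBinom (j + 1)) ^ 2)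
          = (2 * j + 3) * ((j + 1) * Nat.centralBinom (j + 1)) ^ 2 := by ring
        _ = (2 * j + 3) * (2 * (2 * j + 1) * Nat.centralBinom j) ^ 2 := by rw [h]
        _ = 4 * (2 * j + 1) * (2 * j + 3) * ((2 * j + 1) * (Nat.centralBinom j) ^ 2) := by ring
        _ ≤ 4 * (2 * j + 1) * (2 * j + 3) * 16 ^ j := Nat.mul_le_mul_left _ ih
        _ ≤ 16 * (j + 1) ^ 2 * 16 ^ j := by
            apply Nat.mul_le_mul_right
            nlinarith
        _ = _ := by ring
    exact Nat.le_of_mul_le_mul_left h1 (by positivity)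

lemma cb_nonneg (j : ℕ) : 0 ≤ cb j := by unfold cb; positivity

lemma cb_le (j : ℕ) : cb j ≤ Real.sqrt (1 / (2 * j + 1)) := by
  apply Real.le_sqrt_of_sq_le
  unfold cb
  have h := cb_sq j
  have h1 : (2 * (j : ℝ) + 1) * (Nat.centralBinom j : ℝ) ^ 2 ≤ 16 ^ j := by exact_mod_cast h
  have h2 : (0 : ℝ) < 2 * j + 1 := by positivity
  rw [div_pow, ← pow_mul, div_le_div_iff₀ (by positivity) h2]
  have h3 : (4 : ℝ) ^ (j * 2) = 16 ^ j := by
    rw [mul_comm, pow_mul]; norm_num
  rw [h3]
  linarith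

lemma cb_tendsto : Filter.Tendsto cb Filter.atTop (nhds 0) := by
  have h1 : Filter.Tendsto (fun j : ℕ => (1 : ℝ) / (2 * j + 1)) Filter.atTop (nhds 0) := by
    apply Filter.Tendsto.div_atTop tendsto_const_nhds
    apply Filter.tendsto_atTop_add_const_right
    exact Filter.Tendsto.const_mul_atTop (by norm_num) tendsto_natCast_atTop_atTop
  have h2 := h1.sqrt
  rw [Real.sqrt_zero] at h2
  exact squeeze_zero cb_nonneg cb_le h2

lemma choose_le (m k : ℕ) : (m.choose k : ℝ) ≤ 2 ^ m * cb (m / 2) := by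
  unfold cb
  rcases Nat.even_or_odd' m with ⟨j, hj | hj⟩
  · subst hj
    have h1 : 2 * j / 2 = j := by omega
    rw [h1]
    have h2 : (2 : ℝ) ^ (2 * j) = 4 ^ j := by rw [pow_mul]; norm_num
    rw [h2, mul_div_cancel₀ _ (by positivity)]
    exact_mod_cast Nat.choose_le_centralBinom k j
  · subst hj
    have h1 : (2 * j + 1) / 2 = j := by omega
    rw [h1]
    have h2 : (2 : ℝ) ^ (2 * j + 1) = 4 ^ j * 2 := by rw [pow_succ, pow_mul]; norm_num
    have h3 : (2 : ℝ) ^ (2 * j + 1) * ((Nat.centralBinom j : ℝ) / 4 ^ j) =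
        2 * Nat.centralBinom j := by
      rw [h2]; field_simp
    rw [h3]
    have h4 : (2 * j + 1).choose k ≤ 2 * Nat.centralBinom j := by
      cases k with
      | zero =>
        have := Nat.centralBinom_pos j
        simp
        omega
      | succ k =>
        rw [Nat.choose_succ_succ]
        have a1 := Nat.choose_le_centralBinom k j
        have a2 := Nat.choose_le_centralBinom (k + 1) j
        have a3 : (2 * j).choose k.succ = (2 * j).choose (k + 1) := rfl
        omega
    exact_mod_cast h4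

lemma kat_card (L n t : ℕ) : (2 : ℝ) ^ (n - L) ≤
    2 * (kat L n t).card + ((t : ℝ) + 2) * (2 ^ (n - L) * cb ((n - L) / 2)) := by
  classical
  obtain ⟨m, hm⟩ : ∃ m, n - L = m := ⟨_, rfl⟩
  set W := Ico L n with hW
  have hWc : W.card = m := by rw [hW, Nat.card_Ico, hm]
  have hU : W.powerset.card = 2 ^ m := by rw [Finset.card_powerset, hWc]
  set A1 := W.powerset.filter (fun X => m + t ≤ 2 * X.card) with hA1
  set A2 := W.powerset.filter (fun X => 2 * X.card + t ≤ m) with hA2
  set A3 := W.powerset.filter (fun X => 2 * X.card < m + t ∧ m < 2 * X.card + t) with hA3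
  have hkat : kat L n t = A1 := by
    unfold kat
    rw [hm]
  have h12 : A2.card ≤ A1.card := by
    apply Finset.card_le_card_of_injOn (fun X => W \ X)
    · intro X hX
      rw [Finset.mem_coe, hA2, Finset.mem_filter, Finset.mem_powerset] at hX
      rw [Finset.mem_coe, hA1, Finset.mem_filter, Finset.mem_powerset]
      refine ⟨Finset.sdiff_subset, ?_⟩
      have := Finset.card_sdiff_add_card_eq_card hX.1
      simp only
      omega
    · intro X hX Y hY h
      rw [Finset.mem_coe, hA2, Finset.mem_filter, Finset.mem_powerset] at hX hY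
      have h1 : W \ (W \ X) = W \ (W \ Y) := by
        simp only at h; rw [h]
      rwa [Finset.sdiff_sdiff_eq_self hX.1, Finset.sdiff_sdiff_eq_self hY.1] at h1
  have hcov : W.powerset ⊆ A1 ∪ A2 ∪ A3 := by
    intro X hX
    rw [Finset.mem_union, Finset.mem_union, hA1, hA2, hA3, Finset.mem_filter, Finset.mem_filter,
      Finset.mem_filter]
    by_cases h1 : m + t ≤ 2 * X.card
    · exact Or.inl (Or.inl ⟨hX, h1⟩)
    · by_cases h2 : 2 * X.card + t ≤ m
      · exact Or.inl (Or.inr ⟨hX, h2⟩)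
      · exact Or.inr ⟨hX, by omega, by omega⟩
  have hsum : 2 ^ m ≤ 2 * A1.card + A3.card := by
    have h1 := Finset.card_le_card hcov
    have h2 := Finset.card_union_le (A1 ∪ A2) A3
    have h3 := Finset.card_union_le A1 A2
    omega
  have hA3c : (A3.card : ℝ) ≤ ((t : ℝ) + 2) * (2 ^ m * cb (m / 2)) := by
    have h1 : A3 ⊆ (Icc ((m - t) / 2) ((m + t) / 2)).biUnion (fun k => W.powersetCard k) := by
      intro X hX
      rw [hA3, Finset.mem_filter, Finset.mem_powerset] at hX
      rw [Finset.mem_biUnion]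
      refine ⟨X.card, Finset.mem_Icc.mpr ⟨by omega, by omega⟩, ?_⟩
      rw [Finset.mem_powersetCard]
      exact ⟨hX.1, rfl⟩
    have h2 : (A3.card : ℝ) ≤ ∑ k ∈ Icc ((m - t) / 2) ((m + t) / 2), (m.choose k : ℝ) := by
      have h3 := le_trans (Finset.card_le_card h1) Finset.card_biUnion_le
      have h4 : ∑ k ∈ Icc ((m - t) / 2) ((m + t) / 2), (W.powersetCard k).card =
          ∑ k ∈ Icc ((m - t) / 2) ((m + t) / 2), m.choose k := by
        apply Finset.sum_congr rfl
        intro k _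
        rw [Finset.card_powersetCard, hWc]
      rw [h4] at h3
      exact_mod_cast h3
    have h5 : ∑ k ∈ Icc ((m - t) / 2) ((m + t) / 2), (m.choose k : ℝ) ≤
        ∑ k ∈ Icc ((m - t) / 2) ((m + t) / 2), 2 ^ m * cb (m / 2) :=
      Finset.sum_le_sum (fun k _ => choose_le m k)
    rw [Finset.sum_const, nsmul_eq_mul, Nat.card_Icc] at h5
    have h6 : (((m + t) / 2 + 1 - (m - t) / 2 : ℕ) : ℝ) ≤ (t : ℝ) + 2 := by
      have : (m + t) / 2 + 1 - (m - t) / 2 ≤ t + 2 := by omega
      exact_mod_cast this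
    have h7 : 0 ≤ (2 : ℝ) ^ m * cb (m / 2) := mul_nonneg (by positivity) (cb_nonneg _)
    have h8 := mul_le_mul_of_nonneg_right h6 h7
    linarith
  rw [hkat, hm]
  have : (2 : ℝ) ^ m ≤ 2 * A1.card + A3.card := by exact_mod_cast hsum
  linarith

lemma kat_density (L n t : ℕ) :
    1 / 2 - ((t : ℝ) + 2) / 2 * cb ((n - L) / 2) ≤ (kat L n t).card / 2 ^ (n - L) := by
  have h := kat_card L n t
  have h2 : (0 : ℝ) < 2 ^ (n - L) := by positivity
  rw [le_div_iff₀ h2]
  nlinarith

lemma threeWise_density (s : ℕ) (hs : 1 ≤ s) (n : ℕ) (hn : 9 * s ≤ n) :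
    (mx (ThreeWise s) n : ℝ) / 2 ^ n = (mx (ThreeWise s) (9 * s) : ℝ) / 2 ^ (9 * s) := by
  have hp : (0 : ℝ) < 2 ^ n := by positivity
  have hp2 : (0 : ℝ) < 2 ^ (9 * s) := by positivity
  rw [div_eq_div_iff hp.ne' hp2.ne']
  apply le_antisymm
  · obtain ⟨F, hF, hT, hc⟩ := exists_mx (ThreeWise s) n (threeWise_empty s)
    have := bound_all s hs n hn F hF hT
    rw [hc] at this
    exact_mod_cast this
  · obtain ⟨J, hJ, hJT, hJc⟩ := exists_mx (ThreeWise s) (9 * s) (threeWise_empty s)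
    obtain ⟨F, hF, hFc, hF1, _⟩ := prod_family (9 * s) n hn J ((Ico (9 * s) n).powerset) hJ
      (Finset.Subset.refl _)
    have h1 := le_mx (ThreeWise s) n F hF (hF1 s hJT)
    rw [hFc, hJc, Finset.card_powerset, Nat.card_Ico] at h1
    have h2 : (mx (ThreeWise s) (9 * s) : ℝ) * 2 ^ (n - 9 * s) ≤ mx (ThreeWise s) n := by
      exact_mod_cast h1
    have h3 : (2 : ℝ) ^ n = 2 ^ (n - 9 * s) * 2 ^ (9 * s) := by
      rw [← pow_add]; congr 1; omega
    rw [h3, ← mul_assoc]
    exact mul_le_mul_of_nonneg_right h2 hp2.le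

lemma pairWise_empty (t : ℕ) : PairWise t ∅ := by
  intro A hA; simp at hA

lemma fib_zero (F : Finset (Finset ℕ)) : fib F 0 ∅ = F := by
  unfold fib
  apply Finset.filter_true_of_mem
  intro X _
  simp

lemma pairWise_density_le (t : ℕ) (ht : 1 ≤ t) (n : ℕ) :
    (mx (PairWise t) n : ℝ) / 2 ^ n ≤ 1 / 2 := by
  obtain ⟨F, hF, hT, hc⟩ := exists_mx (PairWise t) n (pairWise_empty t)
  have h := half_fib n 0 t F hF hT (by omega) (by omega) ∅ (by simp)
  rw [fib_zero, hc, Nat.sub_zero] at h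
  have h2 : 2 * (mx (PairWise t) n : ℝ) ≤ 2 ^ n := by exact_mod_cast h
  rw [div_le_iff₀ (by positivity)]
  linarith

lemma pairWise_density_ge (t n : ℕ) :
    1 / 2 - ((t : ℝ) + 2) / 2 * cb (n / 2) ≤ (mx (PairWise t) n : ℝ) / 2 ^ n := by
  have h := kat_density 0 n t
  rw [Nat.sub_zero] at h
  refine le_trans h ?_
  have h2 := le_mx (PairWise t) n (kat 0 n t) (by
    have := kat_sub 0 n t
    rwa [← Finset.range_eq_Ico] at this) (kat_pair 0 n t)
  have h3 : ((kat 0 n t).card : ℝ) ≤ mx (PairWise t) n := by exact_mod_cast h2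
  exact div_le_div_of_nonneg_right h3 (by positivity)

lemma both_empty (s t : ℕ) : (fun F => ThreeWise s F ∧ PairWise t F) ∅ :=
  ⟨threeWise_empty s, pairWise_empty t⟩

lemma both_density_ge (s t n : ℕ) (hn : 9 * s ≤ n) :
    ((mx (ThreeWise s) (9 * s) : ℝ) / 2 ^ (9 * s)) *
      (1 / 2 - ((t : ℝ) + 2) / 2 * cb ((n - 9 * s) / 2)) ≤
    (mx (fun F => ThreeWise s F ∧ PairWise t F) n : ℝ) / 2 ^ n := by
  obtain ⟨J, hJ, hJT, hJc⟩ := exists_mx (ThreeWise s) (9 * s) (threeWise_empty s)
  obtain ⟨F, hF, hFc, hF1, hF2⟩ := prod_family (9 * s) n hn J (kat (9 * s) n t) hJ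
    (kat_sub _ _ _)
  have h1 := le_mx (fun F => ThreeWise s F ∧ PairWise t F) n F hF
    ⟨hF1 s hJT, hF2 t (kat_pair _ _ _)⟩
  rw [hFc, hJc] at h1
  have h2 : (mx (ThreeWise s) (9 * s) : ℝ) * (kat (9 * s) n t).card ≤
      mx (fun F => ThreeWise s F ∧ PairWise t F) n := by exact_mod_cast h1
  have h3 : (2 : ℝ) ^ n = 2 ^ (9 * s) * 2 ^ (n - 9 * s) := by
    rw [← pow_add]; congr 1; omega
  have h4 := kat_density (9 * s) n t
  have h5 : (0 : ℝ) ≤ (mx (ThreeWise s) (9 * s) : ℝ) / 2 ^ (9 * s) := by positivity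
  calc _ ≤ ((mx (ThreeWise s) (9 * s) : ℝ) / 2 ^ (9 * s)) *
        ((kat (9 * s) n t).card / 2 ^ (n - 9 * s)) := mul_le_mul_of_nonneg_left h4 h5
    _ = ((mx (ThreeWise s) (9 * s) : ℝ) * (kat (9 * s) n t).card) / 2 ^ n := by
        rw [h3, div_mul_div_comm]
    _ ≤ _ := div_le_div_of_nonneg_right h2 (by positivity)

/-- both sequences converge to half the limit density of 3-wise s-intersecting families -/
theorem limits (s : ℕ) (hs : 1 ≤ s) : ∃ t0 : ℕ, ∀ t, t0 ≤ t →
    Filter.Tendsto (fun n : ℕ => ((mx (ThreeWise s) n : ℝ) / 2 ^ n) *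
      ((mx (PairWise t) n : ℝ) / 2 ^ n)) Filter.atTop
      (nhds (((mx (ThreeWise s) (9 * s) : ℝ) / 2 ^ (9 * s)) * (1 / 2))) ∧
    Filter.Tendsto (fun n : ℕ => (mx (fun F => ThreeWise s F ∧ PairWise t F) n : ℝ) / 2 ^ n)
      Filter.atTop (nhds (((mx (ThreeWise s) (9 * s) : ℝ) / 2 ^ (9 * s)) * (1 / 2))) := by
  obtain ⟨t0, ht0⟩ := main_bound s hs
  refine ⟨max t0 1, fun t ht => ?_⟩
  have ht1 : t0 ≤ t := le_trans (le_max_left _ _) ht
  have ht2 : 1 ≤ t := le_trans (le_max_right _ _) ht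
  set α : ℝ := (mx (ThreeWise s) (9 * s) : ℝ) / 2 ^ (9 * s) with hα
  have hdiv2 : Filter.Tendsto (fun n : ℕ => n / 2) Filter.atTop Filter.atTop := 
    Filter.tendsto_atTop_atTop.mpr (fun b => ⟨2 * b, fun a ha => by omega⟩)
  have hdivL : Filter.Tendsto (fun n : ℕ => (n - 9 * s) / 2) Filter.atTop Filter.atTop :=
    Filter.tendsto_atTop_atTop.mpr (fun b => ⟨2 * b + 9 * s, fun a ha => by omega⟩)
  have hcb1 : Filter.Tendsto (fun n : ℕ => 1 / 2 - ((t : ℝ) + 2) / 2 * cb (n / 2))
      Filter.atTop (nhds (1 / 2)) := by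
    have := ((cb_tendsto.comp hdiv2).const_mul (((t : ℝ) + 2) / 2)).const_sub (1 / 2)
    simpa using this
  have hcb2 : Filter.Tendsto (fun n : ℕ => 1 / 2 - ((t : ℝ) + 2) / 2 * cb ((n - 9 * s) / 2))
      Filter.atTop (nhds (1 / 2)) := by
    have := ((cb_tendsto.comp hdivL).const_mul (((t : ℝ) + 2) / 2)).const_sub (1 / 2)
    simpa using this
  constructor
  · apply Filter.Tendsto.mul
    · apply tendsto_const_nhds.congr'
      filter_upwards [Filter.eventually_ge_atTop (9 * s)] with n hn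
      exact (threeWise_density s hs n hn).symm
    · exact tendsto_of_tendsto_of_tendsto_of_le_of_le hcb1 tendsto_const_nhds
        (fun n => pairWise_density_ge t n) (fun n => pairWise_density_le t ht2 n)
  · apply tendsto_of_tendsto_of_tendsto_of_le_of_le' (hcb2.const_mul α) tendsto_const_nhds
    · filter_upwards [Filter.eventually_ge_atTop (9 * s)] with n hn
      exact both_density_ge s t n hn
    · filter_upwards with n
      obtain ⟨F, hF, ⟨hT, hP⟩, hc⟩ := exists_mx (fun F => ThreeWise s F ∧ PairWise t F) n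
        (both_empty s t)
      have h := ht0 t ht1 n F hF hT hP
      rw [hc] at h
      have h2 : 2 * ((mx (fun F => ThreeWise s F ∧ PairWise t F) n : ℝ) * 2 ^ (9 * s)) ≤
          mx (ThreeWise s) (9 * s) * 2 ^ n := by exact_mod_cast h
      rw [hα, div_le_iff₀ (by positivity)]
      have hp : (0 : ℝ) < 2 ^ (9 * s) := by positivity
      have e : (mx (ThreeWise s) (9 * s) : ℝ) / 2 ^ (9 * s) * (1 / 2) * 2 ^ n =
        (mx (ThreeWise s) (9 * s) * 2 ^ n) / (2 * 2 ^ (9 * s)) := by
        field_simp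
      rw [e, le_div_iff₀ (by positivity)]
      linarith

end Pool.Agent.H122R3.TW
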